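import Pool.Agent.TH125.Gal.Pub

/-!
# Independent families of Galois representations and the varieties generated by them: definitions
-/

set_option autoImplicit false

open CategoryTheory AlgebraicGeometry

universe u

namespace Pool.Agent.N179.GR.S

open Pool.Agent.TH125.Gal

/-- A finite-dimensional representation of `Γ` over `K`. -/
structure GRep (K : Type) [Field K] (Γ : Type) [Group Γ] where
  /-- the space -/
  V : Type
  [ac : AddCommGroup V]
  [md : Module K V]
  [fd : FiniteDimensional K V]
  /-- the action -/
  act : Γ → V →ₗ[K] V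
  one : ∀ x, act 1 x = x
  mul : ∀ g h x, act (g * h) x = act g (act h x)

attribute [instance] GRep.ac GRep.md GRep.fd

section Rep

variable {K : Type} [Field K] {Γ : Type} [Group Γ]

/-- The action of an element `g` on a vector `x`. -/
def GRep.ap (M : GRep K Γ) (g : Γ) (x : M.V) : M.V := M.act g x

/-- The dimension. -/
noncomputable def dim (M : GRep K Γ) : ℕ := Module.finrank K M.V

/-- The subspaces. -/
def Sub (M : GRep K Γ) : Type := Submodule K M.V

/-- The vector belongs to the subspace. -/
def Sub.Has {M : GRep K Γ} (A : Sub M) (x : M.V) : Prop := x ∈ (show Submodule K M.V from A)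

/-- The dimension of a subspace. -/
noncomputable def Sub.dim {M : GRep K Γ} (A : Sub M) : ℕ :=
  Module.finrank K (show Submodule K M.V from A)

/-- The subspaces are complements of each other. -/
def Sub.Compl {M : GRep K Γ} (A B : Sub M) : Prop :=
  IsCompl (show Submodule K M.V from A) (show Submodule K M.V from B)

/-- The span of a set. -/
def span {M : GRep K Γ} (S : Set M.V) : Sub M := Submodule.span K S

/-- The operators on `M`. -/
def Op (M : GRep K Γ) : Type := M.V →ₗ[K] M.V

noncomputable instance Op.ac (M : GRep K Γ) : AddCommGroup (Op M) := LinearMap.addCommGroup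

noncomputable instance Op.md (M : GRep K Γ) : Module K (Op M) := LinearMap.module

theorem Op.fd (M : GRep K Γ) : FiniteDimensional K (Op M) :=
  inferInstanceAs (FiniteDimensional K (M.V →ₗ[K] M.V))

/-- The composition of operators. -/
def comp {M : GRep K Γ} (x y : Op M) : Op M := LinearMap.comp x y

/-- The operator given by `g`. -/
def opOf (M : GRep K Γ) (g : Γ) : Op M := M.act g

/-- The conjugation `x ↦ g x g⁻¹`. -/
noncomputable def conj (M : GRep K Γ) (g : Γ) : Op M →ₗ[K] Op M where
  toFun x := comp (comp (opOf M g) x) (opOf M g⁻¹)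
  map_add' := fun x y => LinearMap.ext fun v => map_add (M.act g) _ _
  map_smul' := fun c x => LinearMap.ext fun v => map_smul (M.act g) _ _

theorem conj_one (M : GRep K Γ) (x : Op M) : conj M 1 x = x := by
  refine LinearMap.ext fun v => ?_
  change M.act 1 ((show M.V →ₗ[K] M.V from x) (M.act 1⁻¹ v)) = _
  rw [inv_one, M.one, M.one]

theorem conj_mul (M : GRep K Γ) (g h : Γ) (x : Op M) :
    conj M (g * h) x = conj M g (conj M h x) := by
  refine LinearMap.ext fun v => ?_
  change M.act (g * h) ((show M.V →ₗ[K] M.V from x) (M.act (g * h)⁻¹ v)) =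
    M.act g (M.act h ((show M.V →ₗ[K] M.V from x) (M.act h⁻¹ (M.act g⁻¹ v))))
  rw [mul_inv_rev, M.mul, M.mul]

/-- The representation on the operators: `g` maps `x` to `g x g⁻¹`. -/
noncomputable def endo (M : GRep K Γ) : GRep K Γ where
  V := Op M
  fd := Op.fd M
  act := conj M
  one := conj_one M
  mul := conj_mul M

/-- The commutator. -/
noncomputable def bracket {M : GRep K Γ} (x y : Op M) : Op M := comp x y - comp y x

/-- The subspace is stable. -/
def Stable {M : GRep K Γ} (A : Sub M) : Prop := ∀ g, ∀ x, A.Has x → A.Has (M.ap g x)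

/-- Every stable subspace has a stable complement. -/
def Semisimple (M : GRep K Γ) : Prop :=
  ∀ A : Sub M, Stable A → ∃ B : Sub M, Stable B ∧ A.Compl B

/-- The vector `x` is semi-invariant: `g x` is a multiple of `x` for all `g` in a subgroup of finite
index. -/
def SemiInv {M : GRep K Γ} (x : M.V) : Prop :=
  ∃ Δ : Subgroup Γ, Δ.FiniteIndex ∧ ∀ g ∈ Δ, ∃ c : K, M.ap g x = c • x

/-- The span of the semi-invariant vectors. -/
def semiSpan (M : GRep K Γ) : Sub M := span {x | SemiInv x}

/-- The linear maps. -/
def Lin (M M' : GRep K Γ) : Type := M.V →ₗ[K] M'.V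

/-- The value of a linear map. -/
def Lin.ev {M M' : GRep K Γ} (f : Lin M M') (x : M.V) : M'.V :=
  (show M.V →ₗ[K] M'.V from f) x

/-- The linear map is equivariant. -/
def Equivariant {M M' : GRep K Γ} (f : Lin M M') : Prop :=
  ∀ g x, f.ev (M.ap g x) = M'.ap g (f.ev x)

/-- The linear map is equivariant under a subgroup of finite index. -/
def PotEquivariant {M M' : GRep K Γ} (f : Lin M M') : Prop :=
  ∃ Δ : Subgroup Γ, Δ.FiniteIndex ∧ ∀ g ∈ Δ, ∀ x, f.ev (M.ap g x) = M'.ap g (f.ev x)

/-- Every equivariant linear map `End M → End M'` has its values in the span of the semi-invariant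
vectors. (If `End M` and `End M'` are semisimple: every irreducible representation which is a
constituent of both is a sum of characters after the restriction to a subgroup of finite index.) -/
def Independent (M M' : GRep K Γ) : Prop :=
  ∀ f : Lin (endo M) (endo M'), Equivariant f → ∀ x, (semiSpan (endo M')).Has (f.ev x)

/-- The representations on `End (V i)` are semisimple, and the `V i` are pairwise independent. -/
structure Family {ι : Type} (V : ι → GRep K Γ) : Prop where
  semisimple : ∀ i, Semisimple (endo (V i))
  independent : ∀ i j, i ≠ j → Independent (V i) (V j)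

/-- The bilinear forms. -/
def Form (U : GRep K Γ) : Type := U.V →ₗ[K] U.V →ₗ[K] K

/-- The value of a form. -/
def Form.ev {U : GRep K Γ} (B : Form U) (x y : U.V) : K :=
  (show U.V →ₗ[K] U.V →ₗ[K] K from B) x y

/-- The form `B` on `U` is nondegenerate and invariant up to a character. -/
def InvForm {U : GRep K Γ} (B : Form U) : Prop :=
  (∀ x, (∀ y, B.ev x y = 0) → x = 0) ∧
    ∃ μ : Γ →* Kˣ, ∀ g x y, B.ev (U.ap g x) (U.ap g y) = (μ g : K) * B.ev x y

/-- Let `d` be the dimension of `U`. Then `n` is `d ^ 2`, or `d (d - 1) / 2` if `U` carries a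
symmetric form which is invariant up to a character, or `d (d + 1) / 2` if `U` carries such an
alternating form. -/
def Size (U : GRep K Γ) (n : ℕ) : Prop :=
  n = dim U ^ 2 ∨
    (∃ B : Form U, InvForm B ∧ (∀ x y, B.ev x y = B.ev y x) ∧ n = dim U * (dim U - 1) / 2) ∨
    (∃ B : Form U, InvForm B ∧ (∀ x y, B.ev x y = -B.ev y x) ∧ n = (dim U + 1) * dim U / 2)

/-- The commutators of elements of `s`. -/
def brackets {M : GRep K Γ} (s : Sub (endo M)) : Set (endo M).V :=
  {z | ∃ x y, s.Has x ∧ s.Has y ∧ z = bracket x y}

/-- The space `s` of operators on `M` is stable, a perfect Lie algebra (with the commutator) of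
dimension at least `3`, contains no semi-invariant vectors different from `0`, and is an
equivariant quotient of a stable subspace of `End U`. -/
structure Piece (M U : GRep K Γ) (s : Sub (endo M)) : Prop where
  stable : Stable s
  lie : ∀ x ∈ brackets s, s.Has x
  perfect : ∀ x, s.Has x → (span (brackets s)).Has x
  three : 3 ≤ s.dim
  noSemiInv : ∀ x, s.Has x → SemiInv x → x = 0
  quot : ∃ (A : Sub (endo U)) (Φ : Lin (endo U) (endo M)), Stable A ∧
    (∀ g x, A.Has x → Φ.ev ((endo U).ap g x) = (endo M).ap g (Φ.ev x)) ∧
    ∀ y, s.Has y ↔ ∃ x, A.Has x ∧ Φ.ev x = y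

/-- The properties of the set `E` of the exceptional indices with respect to `U`: for every `i ∈ E`
the representation on `End (V i)` has a piece `s i` in common with `End U`, the sum of the
dimensions of the `s i` is at most the size of `U`, and the number of the elements of `E` is at
most `dim U - dim U'`, where `U'` is the span of the semi-invariant vectors, and at most one half of
this number if `U` carries a form. -/
structure Exceptional {ι : Type} (V : ι → GRep K Γ) (U : GRep K Γ) (E : Set ι) : Prop where
  pieces : ∃ s : ∀ i, Sub (endo (V i)), (∀ i ∈ E, Piece (V i) U (s i)) ∧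
    ∀ F : Finset ι, (F : Set ι) ⊆ E → ∀ n, Size U n → ∑ i ∈ F, (s i).dim ≤ n
  finite : E.Finite
  card : E.ncard + (semiSpan U).dim ≤ dim U
  card_form : (∃ B : Form U, InvForm B) → 2 * E.ncard + (semiSpan U).dim ≤ dim U

end Rep

section Alg

variable {K : Type} [Field K] {A : Type} [Ring A] [Algebra K A] [FiniteDimensional K A]
  {B : Type} [Ring B] [Algebra K B] [FiniteDimensional K B]
  {C : Type} [Ring C] [Algebra K C] [FiniteDimensional K C] {Γ : Type} [Group Γ]

/-- The representation on an algebra. -/
def algRep (ρ : Γ →* (A ≃ₐ[K] A)) : GRep K Γ where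
  V := A
  act g := (ρ g).toLinearMap
  one := fun x => by rw [map_one]; rfl
  mul := fun g h x => by rw [map_mul]; rfl

/-- The images of the linear maps from the `U a` to the algebra which are equivariant under a
subgroup of finite index. -/
def images {κ : Type} (U : κ → GRep K Γ) (ρ : Γ →* (A ≃ₐ[K] A)) : Set A :=
  {x | ∃ (a : κ) (f : Lin (U a) (algRep ρ)) (v : (U a).V), PotEquivariant f ∧ x = f.ev v}

/-- The semi-invariant elements. -/
def semis (ρ : Γ →* (A ≃ₐ[K] A)) : Set A := {x | SemiInv (M := algRep ρ) x}

/-- The algebra is generated by its semi-invariant elements and by the images of the `U a`. -/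
def GeneratedAct {κ : Type} (U : κ → GRep K Γ) (ρ : Γ →* (A ≃ₐ[K] A)) : Prop :=
  Algebra.adjoin K (semis ρ ∪ images U ρ) = ⊤

/-- Every semi-invariant element of `C` is a linear combination of the products `p(a) q(b)` with
semi-invariant `a ∈ A` and `b ∈ B`. -/
def KunnethAct (p : A →ₐ[K] C) (q : B →ₐ[K] C) (ρ : Γ →* (A ≃ₐ[K] A)) (τ : Γ →* (B ≃ₐ[K] B))
    (υ : Γ →* (C ≃ₐ[K] C)) : Prop :=
  ∀ z ∈ semis υ, z ∈ Submodule.span K {x | ∃ a ∈ semis ρ, ∃ b ∈ semis τ, x = p a * q b}

/-- Every semi-invariant element is a linear combination of elements `c ∈ gr (2 j)` with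
`g c = χ(g)^j c` for all `g` in a subgroup of finite index. -/
def TwistedAct (χ : Γ →* Kˣ) (gr : ℕ → Submodule K A) (ρ : Γ →* (A ≃ₐ[K] A)) : Prop :=
  ∀ z ∈ semis ρ, z ∈ Submodule.span K {c | ∃ j, c ∈ gr (2 * j) ∧
    ∃ Δ : Subgroup Γ, Δ.FiniteIndex ∧ ∀ g ∈ Δ, ρ g c = (χ g : K) ^ j • c}

/-- The linear form is invariant up to the power of `χ` with the exponent `n`. -/
def TraceAct (χ : Γ →* Kˣ) (n : ℕ) (tr : A →ₗ[K] K) (ρ : Γ →* (A ≃ₐ[K] A)) : Prop :=
  ∀ g a, tr (ρ g a) = (χ g : K) ^ n * tr a

/-- The set contains an element whose trace is not zero. -/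
def PointIn (S : Set A) (tr : A →ₗ[K] K) : Prop := ∃ a ∈ S, tr a ≠ 0

/-- The actions of `Γ` on the algebra `A`. -/
def AlgActs (K : Type) [Field K] (A : Type) [Ring A] [Algebra K A] (Γ : Type) [Group Γ] : Type :=
  Γ →* (A ≃ₐ[K] A)

end Alg

open Pool.Agent.H914 Pool.Agent.H914.VarClass Pool.Agent.H914.VarClass.Obj
  Pool.Agent.H914.WeilCohomology

variable {k : Type u} [Field k] {𝒱 : VarClass k} {ops : CycleOps 𝒱}
  {W : WeilCohomology.{u, 0} ops} {Γ : Type} [Group Γ]

/-- The representation on the cohomology of `Y`. -/
noncomputable def coh (Y : GVar W Γ) : GRep W.K Γ := algRep Y.act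

/-- The cohomology algebra of `Y` is generated by the semi-invariant classes and by the images of
linear maps from the representations `U a` which are equivariant under a subgroup of finite
index. -/
def GeneratedBy {κ : Type} (U : κ → GRep W.K Γ) (Y : GVar W Γ) : Prop := GeneratedAct U Y.act

/-- The actions of `Γ` on the cohomology algebra of the product of `P` and `Y`. -/
def Acts (P Y : GVar W Γ) : Type := AlgActs W.K (W.H (P.X.prod Y.X)) Γ

/-- The product with an action. -/
noncomputable def prodVar (P Y : GVar W Γ) (υ : Acts P Y) : GVar W Γ := ⟨P.X.prod Y.X, υ⟩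

/-- The action on the cohomology of the product is compatible with the projections. -/
def ProdAct (P Y : GVar W Γ) (υ : Acts P Y) : Prop :=
  Intertwines (W.map (fst P.X Y.X)) P.act υ ∧ Intertwines (W.map (snd P.X Y.X)) Y.act υ

/-- The variety `P` has semisimple cohomology and is generated by the representation `V`. -/
def OfType (V : GRep W.K Γ) (P : GVar W Γ) : Prop :=
  GeneratedBy (fun _ : Unit => V) P ∧ Semisimple (coh P)

/-- The varieties `Y = P_1 × (P_2 × ( ⋯ × Z))`, where `P_a` is a variety with semisimple cohomology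
which is generated by `V i_a`, and the indices `i_a` are pairwise different; `L` is the list of
the pairs `(i_a, P_a)`. -/
inductive Tower {ι : Type} (V : ι → GRep W.K Γ) (Z : GVar W Γ) :
    List (ι × GVar W Γ) → GVar W Γ → Prop
  | base : Tower V Z [] Z
  | step {L : List (ι × GVar W Γ)} {Y : GVar W Γ} (i : ι) (P : GVar W Γ) (υ : Acts P Y) :
      Tower V Z L Y → (∀ x ∈ L, x.1 ≠ i) → OfType (V i) P → ProdAct P Y υ →
      Tower V Z ((i, P) :: L) (prodVar P Y υ)

/-- Every semi-invariant class on `P × Y` is a linear combination of the products of the pull-backs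
of semi-invariant classes on `P` and on `Y`. -/
def KunnethSemi (P Y : GVar W Γ) (υ : Acts P Y) : Prop :=
  KunnethAct (W.map (fst P.X Y.X)) (W.map (snd P.X Y.X)) P.act Y.act υ

/-- Every semi-invariant class on `P` is a linear combination of classes `c` in even degrees `2 j`
with `g c = χ(g)^j c` for all `g` in a subgroup of finite index. -/
def Twisted (χ : Γ →* W.Kˣ) (P : GVar W Γ) : Prop := TwistedAct χ (W.gr P.X) P.act

/-- There is a zero-cycle of degree different from `0`. -/
def HasPoint (P : GVar W Γ) : Prop := PointIn (algClasses W P.X P.X.dim) (W.tr P.X)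

/-- The Künneth formula for the semi-invariant classes, and the Tate conjecture, on the towers over
`Z` without indices in `E`. -/
structure Outside (χ : Γ →* W.Kˣ) {ι : Type} (V : ι → GRep W.K Γ) (Z : GVar W Γ) (E : Set ι) :
    Prop where
  semi : ∀ (L : List (ι × GVar W Γ)) (Y : GVar W Γ), Tower V Z L Y → (∀ x ∈ L, x.1 ∉ E) →
    ∀ (i : ι) (P : GVar W Γ) (υ : Acts P Y), i ∉ E → (∀ x ∈ L, x.1 ≠ i) →
      OfType (V i) P → ProdAct P Y υ → KunnethSemi P Y υ
  tate : ∀ (L : List (ι × GVar W Γ)) (Y : GVar W Γ), Tower V Z L Y →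
    (∀ x ∈ L, x.1 ∉ E ∧ Twisted χ x.2 ∧ HasPoint x.2) → HasPoint Z →
    (TateConjecture χ Y ↔ TateConjecture χ Z ∧ ∀ x ∈ L, TateConjecture χ x.2)

/-- The trace of `Z` is invariant up to the power of `χ` with the dimension of `Z` as exponent. -/
def TraceInv (χ : Γ →* W.Kˣ) (Z : GVar W Γ) : Prop := TraceAct χ Z.X.dim (W.tr Z.X) Z.act

/-- `E U` is the set of the exceptional indices with respect to the representation `U`.

* It has the properties `Exceptional`; in particular it is finite.
* No `j ≠ i` is exceptional with respect to `V i`.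
* For every variety `Z`, the number of the exceptional indices with respect to the cohomology of `Z`
  is at most one half of `b - b'`, where `b` is the sum of the Betti numbers and `b'` is the dimension
  of the span of the semi-invariant classes.
* If `Z` is generated by finitely many representations `U a` (for instance by its own cohomology), then
  the theorem `Outside` holds for the towers over `Z` without indices in the `E (U a)`. -/
structure Splitting (χ : Γ →* W.Kˣ) {ι : Type} (V : ι → GRep W.K Γ) (E : GRep W.K Γ → Set ι) :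
    Prop where
  exceptional : ∀ U, Exceptional V U (E U)
  self : ∀ i, E (V i) ⊆ {i}
  variety : ∀ Z : GVar W Γ, TraceInv χ Z →
    2 * (E (coh Z)).ncard + (semiSpan (coh Z)).dim ≤ dim (coh Z)
  outside : ∀ (m : ℕ) (U : Fin m → GRep W.K Γ) (Z : GVar W Γ), GeneratedBy U Z →
    Outside χ V Z (⋃ a, E (U a))

end Pool.Agent.N179.GR.S
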