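import Pool.Agent.N179.GR.Geo

/-!
# The Künneth formula for semi-invariant classes, and the Tate conjecture for products
-/

set_option autoImplicit false
set_option linter.unusedSectionVars false

open CategoryTheory AlgebraicGeometry

universe u

namespace Pool.Agent.N179.GR

open Module Pool.Agent.H914 Pool.Agent.H914.VarClass Pool.Agent.H914.VarClass.Obj
  Pool.Agent.H914.WeilCohomology Pool.Agent.H281R3.HT Pool.Agent.W552 Pool.Agent.TH125.Gal

noncomputable section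

variable {k : Type u} [Field k] {𝒱 : VarClass k} {ops : CycleOps 𝒱}
  {W : WeilCohomology.{u, 0} ops} {Γ : Type} [Group Γ]

variable {P Y : 𝒱.Obj} {ρ : Γ →* (W.H P ≃ₐ[W.K] W.H P)} {τ : Γ →* (W.H Y ≃ₐ[W.K] W.H Y)}
  {υ : Γ →* (W.H (P.prod Y) ≃ₐ[W.K] W.H (P.prod Y))}

/-- **The Künneth formula for semi-invariant classes.** -/
theorem semi_step (h1 : Intertwines (W.map (fst P Y)) ρ υ)
    (h2 : Intertwines (W.map (snd P Y)) τ υ) {z : W.H (P.prod Y)}
    (hz : (full (W.H (P.prod Y)) (algR υ)).Eig z)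
    (hs : ∀ ψ, ctr2 ψ z ∈ Submodule.span W.K {y | (full (W.H P) (algR ρ)).Eig y}) :
    z ∈ Submodule.span W.K {x | ∃ u v, (full (W.H P) (algR ρ)).Eig u ∧
      (full (W.H Y) (algR τ)).Eig v ∧ x = W.map (fst P Y) u * W.map (snd P Y) v} := by
  classical
  obtain ⟨N, m, φ, hm, hφ, hexp⟩ := exists_exp Y {y | (full (W.H P) (algR ρ)).Eig y}
  have h3 := hexp z hs
  rw [h3]
  refine Submodule.sum_mem _ fun l _ => Submodule.subset_span ⟨m l, ctr (φ l) z, hm l, ?_, rfl⟩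
  obtain ⟨Δ, hΔ, hc⟩ := hz
  choose Δ' hΔ' hc' using fun l => hm l
  have hfin : (⨅ l, Δ' l).FiniteIndex := Subgroup.finiteIndex_iInf fun l => hΔ' l
  refine ⟨Δ ⊓ ⨅ l, Δ' l, inferInstance, fun g hg => ?_⟩
  obtain ⟨c, hc⟩ := hc g hg.1
  have hc2 : υ g z = c • z := hc
  choose c' hc' using fun l => hc' l g (Subgroup.mem_iInf.1 hg.2 l)
  have hc3 : ∀ l, ρ g (m l) = c' l • m l := hc'
  have h4 : υ g z = ∑ l', W.map (fst _ Y) (m l') * W.map (snd _ Y)
      (c' l' • τ g (ctr (φ l') z)) := by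
    conv_lhs => rw [h3]
    rw [map_sum]
    refine Finset.sum_congr rfl fun l' _ => ?_
    rw [map_mul, h1, h2, hc3, map_smul, map_smul, smul_mul_assoc, mul_smul_comm]
  have h5 := ctr_sum hφ (fun l' => c' l' • τ g (ctr (φ l') z)) l
  rw [← h4, hc2, map_smul] at h5
  have h6 : c' l ≠ 0 := by
    intro h0
    have h7 := hc3 l
    rw [h0, zero_smul] at h7
    have h8 : m l = 0 := (ρ g).injective (h7.trans (map_zero _).symm)
    have h9 := hφ l l
    rw [h8, map_zero, if_pos rfl] at h9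
    exact zero_ne_one h9
  refine ⟨(c' l)⁻¹ * c, ?_⟩
  change τ g (ctr (φ l) z) = _
  rw [mul_smul, h5, smul_smul, inv_mul_cancel₀ h6, one_smul]

/-- The classes `c` in degrees `2 j` with `g c = χ(g)^j c` for all `g` in a subgroup of finite
index. -/
def TwSet (χ : Γ →* W.Kˣ) (P : 𝒱.Obj) (ρ : Γ →* (W.H P ≃ₐ[W.K] W.H P)) : Set (W.H P) :=
  {c | ∃ j, c ∈ W.gr P (2 * j) ∧
    ∃ Δ : Subgroup Γ, Δ.FiniteIndex ∧ ∀ g ∈ Δ, ρ g c = (χ g : W.K) ^ j • c}

/-- the Tate conjecture for an action -/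
def TT (χ : Γ →* W.Kˣ) (P : 𝒱.Obj) (ρ : Γ →* (W.H P ≃ₐ[W.K] W.H P)) : Prop :=
  ∀ j, ∀ c ∈ W.gr P (2 * j), (∃ Δ : Subgroup Γ, Δ.FiniteIndex ∧
    ∀ g ∈ Δ, ρ g c = (χ g : W.K) ^ j • c) → c ∈ Submodule.span W.K (algClasses W P j)

/-- **The Tate conjecture for products.** -/
theorem tate_step {χ : Γ →* W.Kˣ} (h1 : Intertwines (W.map (fst P Y)) ρ υ)
    (h2 : Intertwines (W.map (snd P Y)) τ υ) (hTP : TT χ P ρ) (hTY : TT χ Y τ) {j : ℕ}
    {z : W.H (P.prod Y)} (hzj : z ∈ W.gr (P.prod Y) (2 * j)) {Δ : Subgroup Γ}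
    (hΔ : Δ.FiniteIndex) (hz : ∀ g ∈ Δ, υ g z = (χ g : W.K) ^ j • z)
    (hs : ∀ ψ, ctr2 ψ z ∈ Submodule.span W.K (TwSet χ P ρ)) :
    z ∈ Submodule.span W.K (algClasses W (P.prod Y) j) := by
  classical
  obtain ⟨N, m, φ, hm, hφ, hexp⟩ := exists_exp Y (TwSet χ P ρ)
  have h3 := hexp z hs
  choose i hmi Δ' hΔ' hc' using fun l => hm l
  have hfin : (⨅ l, Δ' l).FiniteIndex := Subgroup.finiteIndex_iInf fun l => hΔ' l
  set x : Fin N → W.H Y := fun l => ctr (φ l) z with hx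
  -- degrees
  have hdeg : ∀ l, x l = if 2 * i l ≤ 2 * j then
      proj (W.isInternal Y) (2 * j - 2 * i l) (x l) else 0 := by
    intro l
    have h4 : z = ∑ l', W.map (fst _ Y) (m l') * W.map (snd _ Y)
        (if 2 * i l' ≤ 2 * j then proj (W.isInternal Y) (2 * j - 2 * i l') (x l') else 0) := by
      conv_lhs => rw [← proj_same (W.isInternal _) hzj, h3]
      rw [map_sum]
      refine Finset.sum_congr rfl fun l' _ => ?_
      rw [proj_ext (hmi l')]
      by_cases h : 2 * i l' ≤ 2 * j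
      · rw [if_pos h, if_pos h]
      · rw [if_neg h, if_neg h, map_zero, mul_zero]
    conv_lhs => rw [hx]
    beta_reduce
    rw [h4]
    exact ctr_sum hφ _ l
  -- semi-invariance
  have hact : ∀ g ∈ Δ ⊓ ⨅ l, Δ' l, ∀ l,
      (χ g : W.K) ^ i l • τ g (x l) = (χ g : W.K) ^ j • x l := by
    intro g hg l
    have h4 : υ g z = ∑ l', W.map (fst _ Y) (m l') * W.map (snd _ Y)
        ((χ g : W.K) ^ i l' • τ g (x l')) := by
      conv_lhs => rw [h3]
      rw [map_sum]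
      refine Finset.sum_congr rfl fun l' _ => ?_
      rw [map_mul, h1, h2, hc' l' g (Subgroup.mem_iInf.1 hg.2 l'), map_smul, map_smul,
        smul_mul_assoc, mul_smul_comm]
    have h5 := ctr_sum hφ (fun l' => (χ g : W.K) ^ i l' • τ g (x l')) l
    rw [← h4, hz g hg.1, map_smul] at h5
    exact h5.symm
  have halg : ∀ l, x l ∈ algSpan W Y := by
    intro l
    by_cases h : 2 * i l ≤ 2 * j
    · have h4 := hdeg l
      rw [if_pos h] at h4
      have h5 : x l ∈ W.gr Y (2 * (j - i l)) := by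
        rw [h4, show 2 * (j - i l) = 2 * j - 2 * i l by omega]
        exact proj_mem _ _ _
      have h6 := hTY (j - i l) (x l) h5 ⟨Δ ⊓ ⨅ l, Δ' l, inferInstance, fun g hg => ?_⟩
      · exact Submodule.span_mono (Set.subset_iUnion _ _) h6
      · have h7 := hact g hg l
        have h8 : (χ g : W.K) ^ j = (χ g : W.K) ^ i l * (χ g : W.K) ^ (j - i l) := by
          rw [← pow_add]
          congr 1
          omega
        rw [h8, mul_smul] at h7
        exact smul_right_injective _ (pow_ne_zero _ (Units.ne_zero (χ g))) h7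
    · have h4 := hdeg l
      rw [if_neg h] at h4
      rw [h4]
      exact Submodule.zero_mem _
  refine algSpan_gr ?_ hzj
  rw [h3]
  refine Submodule.sum_mem _ fun l _ => ?_
  have h4 : m l ∈ algSpan W P :=
    Submodule.span_mono (Set.subset_iUnion _ (i l)) (hTP (i l) (m l) (hmi l) ⟨Δ' l, hΔ' l, hc' l⟩)
  exact algSpan_mul (algSpan_map _ h4) (algSpan_map _ (halg l))

/-- from the product to the second factor -/
theorem tate_snd {χ : Γ →* W.Kˣ} (h2 : Intertwines (W.map (snd P Y)) τ υ)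
    (hpt : ∃ a ∈ algClasses W P P.dim, W.tr P a ≠ 0) (hT : TT χ (P.prod Y) υ) : TT χ Y τ := by
  intro j c hcj ⟨Δ, hΔ, hc⟩
  have h3 := hT j (W.map (snd _ Y) c) (W.map_mem _ hcj) ⟨Δ, hΔ, fun g hg => by
    rw [h2, hc g hg, map_smul]⟩
  obtain ⟨a, ha, ha0⟩ := hpt
  have h4 : W.push (snd P Y) (W.map (fst P Y) a * W.map (snd P Y) c) ∈ algSpan W Y :=
    algSpan_push _ (algSpan_mul (algSpan_map _ (alg_mem ha))
      (Submodule.span_mono (Set.subset_iUnion _ j) h3))
  rw [W.push_snd] at h4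
  have h5 := Submodule.smul_mem _ (W.tr P a)⁻¹ h4
  rw [smul_smul, inv_mul_cancel₀ ha0, one_smul] at h5
  exact algSpan_gr h5 hcj

end

end Pool.Agent.N179.GR
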