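import Pool.Agent.N179.GR.Defs
import Pool.Agent.N179.GR.Step
import Pool.Agent.Y127.G.Count

/-!
# Independent families of representations: the theorem
-/

set_option autoImplicit false
set_option linter.unusedSectionVars false

open CategoryTheory AlgebraicGeometry

universe u

namespace Pool.Agent.N179.GR.S

open Module Pool.Agent.TH125.Gal Pool.Agent.N179.GR

section Rep

variable {K : Type} [Field K] {Γ : Type} [Group Γ]

/-- the homomorphism -/
def GRep.hom (M : GRep K Γ) : Γ →* Module.End K M.V where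
  toFun := M.act
  map_one' := LinearMap.ext M.one
  map_mul' g h := LinearMap.ext fun x => M.mul g h x

/-- the representation -/
abbrev fl (M : GRep K Γ) : PRep K Γ := full M.V M.hom

theorem semi_iff {M : GRep K Γ} {x : M.V} : SemiInv x ↔ (fl M).Eig x := Iff.rfl

theorem semiS {M : GRep K Γ} (h : Semisimple M) : SemiS M.hom := fun A hA => h A hA

theorem semiS_endo {M : GRep K Γ} (h : Semisimple (endo M)) : SemiS (cj M.hom) :=
  fun A hA => h A hA

/-- the exceptional indices -/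
def Exc {ι : Type} (V : ι → GRep K Γ) (U : GRep K Γ) : Set ι := {i | ¬Spl (fl (V i)) {fl U}}

theorem Family.pair {ι : Type} {V : ι → GRep K Γ} (hV : Family V) {i j : ι} (h : i ≠ j) :
    Spl (fl (V i)) {fl (V j)} :=
  spl_pair (semiS_endo (hV.semisimple i)) (semiS_endo (hV.semisimple j)) fun f hf x =>
    hV.independent i j h f hf x

theorem eigSpan_top (U : GRep K Γ) : eigSpan U.hom ⊤ = semiSpan U := by
  unfold eigSpan semiSpan span
  congr 1
  ext x
  exact ⟨fun h => h.2, fun h => ⟨trivial, h⟩⟩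

theorem dim_semiSpan (U : GRep K Γ) : finrank K (eigSpan U.hom ⊤) = (semiSpan U).dim := by
  rw [eigSpan_top]
  rfl

theorem piece {M U : GRep K Γ} {s : Submodule K (Module.End K M.V)}
    (hs : IsPiece M.hom {fl U} s) (h : ¬Spl (fl M) {fl U}) : Piece M U s where
  stable := hs.stab
  lie := by
    rintro _ ⟨x, y, hx, hy, rfl⟩
    exact hs.br x (hs.le hx) y hy
  perfect := fun x hx => by
    have h1 := hs.perf hx
    have h2 : {x | ∃ y ∈ s, ∃ z ∈ s, x = y * z - z * y} = brackets (M := M) s := by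
      ext z
      exact ⟨fun ⟨x, hx, y, hy, h⟩ => ⟨x, y, hx, hy, h⟩, fun ⟨x, y, hx, hy, h⟩ => ⟨x, hx, y, hy, h⟩⟩
    rw [h2] at h1
    exact h1
  three := hs.three_le h
  noSemiInv := hs.eig
  quot := by
    obtain ⟨A, Φ, h1, h2, h3⟩ := hs.exists_quot
    exact ⟨A, Φ, fun g x hx => (h1 g x hx).1, fun g x hx => (h1 g x hx).2, fun y => (h3 y).symm⟩

variable [CharZero K]

theorem exceptional (e : K ≃+* ℂ) {ι : Type} {V : ι → GRep K Γ} (hV : Family V) (U : GRep K Γ) :
    Exceptional V U (Exc V U) := by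
  classical
  have hT : ∀ N ∈ ({fl U} : Set (PRep K Γ)), IsFull N := by
    rintro N rfl
    exact isFull_full _
  choose s hs using fun i => exists_piece (r := (V i).hom) (semiS_endo (hV.semisimple i)) hT
  have hrank : ∀ F : Finset ι, (F : Set ι) ⊆ Exc V U →
      F.card + (semiSpan U).dim ≤ dim U ∧
        ((∃ B : Form U, InvForm B) → 2 * F.card + (semiSpan U).dim ≤ dim U) := by
    intro F hF
    have h1 := rank_le e (V := fun i => (V i).V) (r := fun i => (V i).hom) (t := U.hom) F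
      (fun i _ => hs i) (fun i hi => (hs i).ne_bot (hF hi))
      (fun i _ j _ hij => hV.pair hij)
    rw [dim_semiSpan] at h1
    refine ⟨h1.1, fun ⟨B, hnd, μ, hB⟩ => h1.2 ⟨μ, B, hnd, hB⟩⟩
  have hfin : (Exc V U).Finite := by
    by_contra hinf
    obtain ⟨F, hF, hc⟩ := Set.Infinite.exists_subset_card_eq hinf (dim U + 1)
    have h1 := (hrank F hF).1
    omega
  refine ⟨⟨s, fun i hi => piece (hs i) hi, ?_⟩, hfin, ?_, ?_⟩
  · intro F hF n hn
    have key : ∀ X : Submodule K (Module.End K U.V),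
        (∀ D : Der K Γ, InDer 1 D → D.Θ (fl U) ∈ X) → finrank K X ≤ n →
        ∑ i ∈ F, finrank K (s i) ≤ n := by
      intro X hX hXn
      have h1 := count (V := fun i => (V i).V) (r := fun i => (V i).hom) (T := {fl U}) (s := s)
        (m := 1) (P := fun _ => fl U) (fun D _ h N hN => by
          rw [Set.mem_singleton_iff.1 hN]
          exact h 0) F (fun i _ => hs i) (fun i _ j _ hij => hV.pair hij) (U := fun _ => X)
        (fun D hD _ => hX D hD) (n := fun _ => n) (fun _ => hXn)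
      rwa [Fin.sum_univ_one] at h1
    rcases hn with rfl | ⟨B, ⟨hnd, μ, hB⟩, hsy, rfl⟩ | ⟨B, ⟨hnd, μ, hB⟩, hsy, rfl⟩
    · refine key ⊤ (fun _ _ => trivial) ?_
      rw [finrank_top, Module.finrank_linearMap, ← sq]
      exact le_rfl
    · let B' : U.V →ₗ[K] U.V →ₗ[K] K := B
      refine key (Y127.G.SkewS B') (fun D hD x y => skew_of_form (B := B') hB hD x y) ?_
      have h1 := Y127.G.finrank_skew_le_sym (B := B') hsy hnd
      rwa [Finset.sum_range_id] at h1
    · let B' : U.V →ₗ[K] U.V →ₗ[K] K := B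
      refine key (Y127.G.SkewS B') (fun D hD x y => skew_of_form (B := B') hB hD x y) ?_
      have h1 := Y127.G.finrank_skew_le_alt (B := B') hsy hnd
      rwa [Finset.sum_range_id] at h1
  · have h1 := (hrank hfin.toFinset (by rw [Set.Finite.coe_toFinset])).1
    rwa [Set.ncard_eq_toFinset_card _ hfin]
  · intro hB
    have h1 := (hrank hfin.toFinset (by rw [Set.Finite.coe_toFinset])).2 hB
    rwa [Set.ncard_eq_toFinset_card _ hfin]

end Rep

open Pool.Agent.H914 Pool.Agent.H914.VarClass Pool.Agent.H914.VarClass.Obj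
  Pool.Agent.H914.WeilCohomology Pool.Agent.W552 Pool.Agent.H281R3.HT

variable {k : Type u} [Field k] {𝒱 : VarClass k} {ops : CycleOps 𝒱}
  {W : WeilCohomology.{u, 0} ops} {Γ : Type} [Group Γ]

theorem gen_of {κ : Type} {U : κ → GRep W.K Γ} {Y : GVar W Γ} (h : GeneratedBy U Y) :
    Gen (fun a => fl (U a)) Y.act := by
  unfold Gen
  rw [eq_top_iff]
  have h1 : Algebra.adjoin W.K (semis Y.act ∪ images U Y.act) = ⊤ := h
  rw [← h1]
  refine Algebra.adjoin_mono (Set.union_subset_union (fun x hx => hx) ?_)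
  rintro x ⟨a, f, v, hf, rfl⟩
  exact ⟨a, f, hf, v, rfl⟩

theorem semiS_coh {P : GVar W Γ} (h : Semisimple (coh P)) : SemiS (algR P.act) :=
  fun A hA => h A hA

section tower

variable {ι : Type} {V : ι → GRep W.K Γ} {Z : GVar W Γ} {L : List (ι × GVar W Γ)} {Y : GVar W Γ}

theorem tower_kill {κ : Type} {U : κ → GRep W.K Γ} (hZ : GeneratedBy U Z) (hY : Tower V Z L Y)
    {D : Der W.K Γ} (hD : InDer 1 D) (h0 : ∀ a, D.Θ (fl (U a)) = 0) :
    (∀ x ∈ L, D.Θ (fl (V x.1)) = 0) → D.Θ (full (W.H Y.X) (algR Y.act)) = 0 := by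
  induction hY with
  | base => exact fun _ => (gen_of hZ).kill hD h0
  | @step L Y i P υ hT hi hP hυ ih =>
    intro hL
    exact Θ_prod hυ.1 hυ.2
      ((gen_of hP.1).kill hD fun _ => hL (i, P) List.mem_cons_self)
      (ih fun x hx => hL x (List.mem_cons_of_mem _ hx))

theorem tower_spl (hV : Family V) {m : ℕ} {U : Fin m → GRep W.K Γ} (hZ : GeneratedBy U Z)
    (hY : Tower V Z L Y) {i : ι} (hi : ∀ a, i ∉ Exc V (U a)) (hL : ∀ x ∈ L, x.1 ≠ i) :
    Spl (fl (V i)) {full (W.H Y.X) (algR Y.act)} := by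
  classical
  have h1 : Spl (fl (V i)) (⋃ a ∈ (Finset.univ : Finset (Fin m)), {fl (U a)}) :=
    Spl.iUnion Finset.univ (fun a => {fl (U a)}) fun a _ => by
      by_contra h
      exact hi a h
  have h2 : Spl (fl (V i)) (⋃ j ∈ (L.map Prod.fst).toFinset, {fl (V j)}) :=
    Spl.iUnion _ (fun j => {fl (V j)}) fun j hj => by
      obtain ⟨x, hx, rfl⟩ := List.mem_map.1 (List.mem_toFinset.1 hj)
      exact hV.pair (hL x hx).symm
  refine (h1.union h2).detect1 fun D hD h0 N hN => ?_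
  rw [Set.mem_singleton_iff.1 hN]
  refine tower_kill hZ hY hD (fun a => h0 _ (Or.inl ?_)) fun x hx => h0 _ (Or.inr ?_)
  · exact Set.mem_iUnion₂.2 ⟨a, Finset.mem_univ a, rfl⟩
  · exact Set.mem_iUnion₂.2 ⟨x.1, List.mem_toFinset.2 (List.mem_map.2 ⟨x, hx, rfl⟩), rfl⟩

/-- the slices of semi-invariant classes are combinations of semi-invariant classes -/
theorem slices [IsAlgClosed W.K] (hV : Family V) {m : ℕ} {U : Fin m → GRep W.K Γ}
    (hZ : GeneratedBy U Z) (hY : Tower V Z L Y) {i : ι} (hi : ∀ a, i ∉ Exc V (U a))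
    (hL : ∀ x ∈ L, x.1 ≠ i) {P : GVar W Γ} {υ : Acts P Y} (hP : OfType (V i) P)
    (hυ : ProdAct P Y υ) {z : W.H (P.X.prod Y.X)}
    (hz : (full (W.H (P.X.prod Y.X)) (algR υ)).Eig z) (ψ : W.H Y.X →ₗ[W.K] W.K) :
    ctr2 ψ z ∈ Submodule.span W.K {y | (full (W.H P.X) (algR P.act)).Eig y} := by
  obtain ⟨k, hk⟩ := slice_mem hυ.1 hυ.2 (gen_of hP.1) (tower_spl hV hZ hY hi hL)
  exact inv_le (semiS_coh hP.2) k (hk z hz ψ)

theorem hasPoint_prod {P Y : 𝒱.Obj} (hP : ∃ a ∈ algClasses W P P.dim, W.tr P a ≠ 0)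
    (hY : ∃ a ∈ algClasses W Y Y.dim, W.tr Y a ≠ 0) :
    ∃ a ∈ algClasses W (P.prod Y) (P.prod Y).dim, W.tr (P.prod Y) a ≠ 0 := by
  obtain ⟨a, ha, ha0⟩ := hP
  obtain ⟨b, hb, hb0⟩ := hY
  refine ⟨W.map (fst P Y) a * W.map (snd P Y) b, alg_mul (alg_map _ ha) (alg_map _ hb), ?_⟩
  rw [W.tr_prod]
  exact mul_ne_zero ha0 hb0

theorem tower_point (hY : Tower V Z L Y) (hZ : HasPoint Z) :
    (∀ x ∈ L, HasPoint x.2) → HasPoint Y := by
  induction hY with
  | base => exact fun _ => hZ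
  | @step L Y i P υ hT hi hP hυ ih =>
    intro hL
    exact hasPoint_prod (hL (i, P) List.mem_cons_self)
      (ih fun x hx => hL x (List.mem_cons_of_mem _ hx))

/-- from the product to the first factor -/
theorem tate_fst {P Y : 𝒱.Obj} {ρ : Γ →* (W.H P ≃ₐ[W.K] W.H P)}
    {υ : Γ →* (W.H (P.prod Y) ≃ₐ[W.K] W.H (P.prod Y))} {χ : Γ →* W.Kˣ}
    (h1 : Intertwines (W.map (fst P Y)) ρ υ)
    (hpt : ∃ a ∈ algClasses W Y Y.dim, W.tr Y a ≠ 0) (hT : TT χ (P.prod Y) υ) : TT χ P ρ := by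
  intro j c hcj ⟨Δ, hΔ, hc⟩
  have h3 := hT j (W.map (fst P Y) c) (W.map_mem _ hcj) ⟨Δ, hΔ, fun g hg => by
    rw [h1, hc g hg, map_smul]⟩
  obtain ⟨a, ha, ha0⟩ := hpt
  have hag : a ∈ W.gr Y (2 * Y.dim) := by
    obtain ⟨w, hw, rfl⟩ := ha
    exact W.cl_mem hw
  have h4 : W.push (fst P Y) (W.map (fst P Y) c * W.map (snd P Y) a) ∈ algSpan W P :=
    algSpan_push _ (algSpan_mul (Submodule.span_mono (Set.subset_iUnion _ j) h3)
      (algSpan_map _ (alg_mem ha)))
  have h5 : W.push (fst P Y) (W.map (fst P Y) c * W.map (snd P Y) a) = W.tr Y a • c := by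
    apply W.tr_ext
    intro d
    rw [W.tr_push, mul_assoc, W.even_comm (W.map_mem (snd P Y) hag), ← mul_assoc, ← map_mul,
      W.tr_prod, smul_mul_assoc, map_smul, smul_eq_mul, mul_comm]
  rw [h5] at h4
  have h6 := Submodule.smul_mem _ (W.tr Y a)⁻¹ h4
  rw [smul_smul, inv_mul_cancel₀ ha0, one_smul] at h6
  exact algSpan_gr h6 hcj

theorem tower_tate [IsAlgClosed W.K] {χ : Γ →* W.Kˣ} (hV : Family V) {m : ℕ}
    {U : Fin m → GRep W.K Γ} (hZ : GeneratedBy U Z) (hpt : HasPoint Z) (hY : Tower V Z L Y) :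
    (∀ x ∈ L, x.1 ∉ (⋃ a, Exc V (U a)) ∧ Twisted χ x.2 ∧ HasPoint x.2) →
    (TateConjecture χ Y ↔ TateConjecture χ Z ∧ ∀ x ∈ L, TateConjecture χ x.2) := by
  induction hY with
  | base => exact fun _ => ⟨fun h => ⟨h, by simp⟩, fun h => h.1⟩
  | @step L Y i P υ hT hi hP hυ ih =>
    intro hL
    have hL' : ∀ x ∈ L, x.1 ∉ (⋃ a, Exc V (U a)) ∧ Twisted χ x.2 ∧ HasPoint x.2 :=
      fun x hx => hL x (List.mem_cons_of_mem _ hx)
    have hPL := hL (i, P) List.mem_cons_self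
    constructor
    · intro h
      have hYp : HasPoint Y := tower_point hT hpt fun x hx => (hL' x hx).2.2
      have h1 : TateConjecture χ Y := tate_snd hυ.2 hPL.2.2 h
      have h2 : TateConjecture χ P := tate_fst hυ.1 hYp h
      obtain ⟨h3, h4⟩ := (ih hL').1 h1
      refine ⟨h3, fun x hx => ?_⟩
      rcases List.mem_cons.1 hx with rfl | hx
      · exact h2
      · exact h4 x hx
    · rintro ⟨h3, h4⟩
      have h1 : TateConjecture χ Y := (ih hL').2 ⟨h3, fun x hx => h4 x (List.mem_cons_of_mem _ hx)⟩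
      have h2 : TateConjecture χ P := h4 (i, P) List.mem_cons_self
      rintro j z hzj ⟨Δ, hΔ, hz⟩
      refine tate_step hυ.1 hυ.2 h2 h1 hzj hΔ hz fun ψ => ?_
      have h5 := slices hV hZ hT (i := i) (fun a ha => hPL.1 (Set.mem_iUnion.2 ⟨a, ha⟩)) hi hP
        hυ (z := z) ⟨Δ, hΔ, fun g hg => ⟨_, hz g hg⟩⟩ ψ
      exact (Submodule.span_le.2 fun y hy => hPL.2.1 y hy) h5

end tower

/-- **The theorem.** -/
theorem final (hK : Nonempty (W.K ≃+* ℂ)) (χ : Γ →* W.Kˣ) {ι : Type} {V : ι → GRep W.K Γ}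
    (hV : Family V) : ∃ E : GRep W.K Γ → Set ι, Splitting χ V E := by
  obtain ⟨e⟩ := hK
  have halg : IsAlgClosed W.K := IsAlgClosed.of_ringEquiv ℂ W.K e.symm
  refine ⟨Exc V, exceptional e hV, ?_, ?_, fun m U Z hZ => ⟨?_, ?_⟩⟩
  · intro j i hi
    by_contra h
    exact hi (hV.pair h)
  · intro Z hZ
    refine (exceptional e hV (coh Z)).card_form
      ⟨(LinearMap.mul W.K (W.H Z.X)).compr₂ (W.tr Z.X), fun x hx => W.nondeg x fun y => hx y,
        χ ^ Z.X.dim, fun g (x y : W.H Z.X) => ?_⟩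
    have h1 := hZ g (x * y)
    rw [map_mul] at h1
    rw [MonoidHom.pow_apply, Units.val_pow_eq_pow_val]
    exact h1
  · intro L Y hY hE i P υ hi hL hP hυ z hz
    have h1 := semi_step hυ.1 hυ.2 hz fun ψ => slices hV hZ hY
      (fun a ha => hi (Set.mem_iUnion.2 ⟨a, ha⟩)) hL hP hυ hz ψ
    refine Submodule.span_mono ?_ h1
    rintro x ⟨u, v, hu, hv, rfl⟩
    exact ⟨u, hu, v, hv, rfl⟩
  · intro L Y hY hL hpt
    exact tower_tate hV hZ hpt hY hL

end Pool.Agent.N179.GR.S
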