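import Pool.Agent.N179.GR.Ultra

/-!
# Reconstruction: derivations move all lines which are not stable under a subgroup of finite index
-/

set_option autoImplicit false
set_option linter.unusedSectionVars false

open Filter

namespace Pool.Agent.N179.GR

noncomputable section

variable {K : Type} [Field K] {Γ : Type} [Group Γ] {U : Ultrafilter Γ}

/-- all subgroups of finite index belong to the ultrafilter -/
def Big (U : Ultrafilter Γ) : Prop := ∀ Δ : Subgroup Γ, Δ.FiniteIndex → (Δ : Set Γ) ∈ U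

/-- the action of the generic element -/
def eta (U : Ultrafilter Γ) (M : PRep K Γ) : UV U M.V →ₗ[UL K U] UV U M.V where
  toFun w := Germ.map₂ (fun (r : Module.End K M.V) v => r v)
    (↑M.ρ : (U : Filter Γ).Germ (Module.End K M.V)) w
  map_add' x y := by
    induction x using Germ.inductionOn with | h x =>
    induction y using Germ.inductionOn with | h y =>
    exact congrArg _ (funext fun g => map_add (M.ρ g) (x g) (y g))
  map_smul' a y := by
    induction a using Germ.inductionOn with | h a =>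
    induction y using Germ.inductionOn with | h y =>
    exact congrArg _ (funext fun g => map_smul (M.ρ g) (a g) (y g))

/-- the action of the inverse of the generic element -/
def etaI (U : Ultrafilter Γ) (M : PRep K Γ) : UV U M.V →ₗ[UL K U] UV U M.V where
  toFun w := Germ.map₂ (fun (r : Module.End K M.V) v => r v)
    (↑(fun g => M.ρ g⁻¹) : (U : Filter Γ).Germ (Module.End K M.V)) w
  map_add' x y := by
    induction x using Germ.inductionOn with | h x =>
    induction y using Germ.inductionOn with | h y =>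
    exact congrArg _ (funext fun g => map_add (M.ρ g⁻¹) (x g) (y g))
  map_smul' a y := by
    induction a using Germ.inductionOn with | h a =>
    induction y using Germ.inductionOn with | h y =>
    exact congrArg _ (funext fun g => map_smul (M.ρ g⁻¹) (a g) (y g))

theorem eta_coe (M : PRep K Γ) (x : Γ → M.V) :
    eta U M (↑x : UV U M.V) = ↑(fun g => M.ρ g (x g)) := rfl

theorem etaI_coe (M : PRep K Γ) (x : Γ → M.V) :
    etaI U M (↑x : UV U M.V) = ↑(fun g => M.ρ g⁻¹ (x g)) := rfl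

theorem etaI_eta (hU : Big U) (M : PRep K Γ) (w : UV U M.V) : etaI U M (eta U M w) = w := by
  obtain ⟨Δ, hΔ, -, -, h⟩ := M.exists_dom
  induction w using Germ.inductionOn with | h w =>
  rw [eta_coe, etaI_coe]
  refine Germ.coe_eq.2 ?_
  filter_upwards [hU Δ hΔ] with g hg
  exact h g hg _

theorem eta_etaI (hU : Big U) (M : PRep K Γ) (w : UV U M.V) : eta U M (etaI U M w) = w := by
  obtain ⟨Δ, hΔ, -, h, -⟩ := M.exists_dom
  induction w using Germ.inductionOn with | h w =>
  rw [etaI_coe, eta_coe]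
  refine Germ.coe_eq.2 ?_
  filter_upwards [hU Δ hΔ] with g hg
  exact h g hg _

theorem mapL_eta (hU : Big U) {M M' : PRep K Γ} {f : M.V →ₗ[K] M'.V} (hf : PE M M' f)
    (w : UV U M.V) : mapL U f (eta U M w) = eta U M' (mapL U f w) := by
  obtain ⟨Δ, hΔ, h⟩ := hf
  induction w using Germ.inductionOn with | h w =>
  rw [eta_coe, mapL_coe, mapL_coe, eta_coe]
  refine Germ.coe_eq.2 ?_
  filter_upwards [hU Δ hΔ] with g hg
  exact h g hg _

theorem mapL_etaI (hU : Big U) {M M' : PRep K Γ} {f : M.V →ₗ[K] M'.V} (hf : PE M M' f)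
    (w : UV U M.V) : mapL U f (etaI U M w) = etaI U M' (mapL U f w) := by
  obtain ⟨Δ, hΔ, h⟩ := hf
  induction w using Germ.inductionOn with | h w =>
  rw [etaI_coe, mapL_coe, mapL_coe, etaI_coe]
  refine Germ.coe_eq.2 ?_
  filter_upwards [hU Δ hΔ] with g hg
  exact h _ (Δ.inv_mem hg) _

theorem mapB_eta (hU : Big U) {M₁ M₂ M' : PRep K Γ} {h : M₁.V →ₗ[K] M₂.V →ₗ[K] M'.V}
    (hh : PE2 M₁ M₂ M' h) (x : UV U M₁.V) (y : UV U M₂.V) :
    mapB U h (eta U M₁ x) (eta U M₂ y) = eta U M' (mapB U h x y) := by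
  obtain ⟨Δ, hΔ, h⟩ := hh
  induction x using Germ.inductionOn with | h x =>
  induction y using Germ.inductionOn with | h y =>
  rw [eta_coe, eta_coe, mapB_coe, mapB_coe, eta_coe]
  refine Germ.coe_eq.2 ?_
  filter_upwards [hU Δ hΔ] with g hg
  exact h g hg _ _

theorem mapB_etaI (hU : Big U) {M₁ M₂ M' : PRep K Γ} {h : M₁.V →ₗ[K] M₂.V →ₗ[K] M'.V}
    (hh : PE2 M₁ M₂ M' h) (x : UV U M₁.V) (y : UV U M₂.V) :
    mapB U h (etaI U M₁ x) (etaI U M₂ y) = etaI U M' (mapB U h x y) := by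
  obtain ⟨Δ, hΔ, h⟩ := hh
  induction x using Germ.inductionOn with | h x =>
  induction y using Germ.inductionOn with | h y =>
  rw [etaI_coe, etaI_coe, mapB_coe, mapB_coe, etaI_coe]
  refine Germ.coe_eq.2 ?_
  filter_upwards [hU Δ hΔ] with g hg
  exact h _ (Δ.inv_mem hg) _ _

variable (δ : Derivation K (UL K U) (UL K U)) (θ : UL K U →ₗ[K] K)

/-- the logarithmic derivative of the generic element -/
def ld (M : PRep K Γ) (v : M.V) : UV U M.V := etaI U M (nab δ (eta U M (↑v : UV U M.V)))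

theorem ld_lin (hU : Big U) {M M' : PRep K Γ} {f : M.V →ₗ[K] M'.V} (hf : PE M M' f) (v : M.V) :
    mapL U f (ld δ M v) = ld δ M' (f v) := by
  unfold ld
  rw [mapL_etaI hU hf, ← nab_mapL, mapL_eta hU hf, mapL_const]

theorem ld_bil (hU : Big U) {M₁ M₂ M' : PRep K Γ} {h : M₁.V →ₗ[K] M₂.V →ₗ[K] M'.V}
    (hh : PE2 M₁ M₂ M' h) (x : M₁.V) (y : M₂.V) :
    mapB U h (ld δ M₁ x) (↑y : UV U M₂.V) + mapB U h (↑x : UV U M₁.V) (ld δ M₂ y) =
      ld δ M' (h x y) := by
  have h1 : ld δ M' (h x y) = etaI U M' (nab δ (mapB U h (eta U M₁ (↑x : UV U M₁.V))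
      (eta U M₂ (↑y : UV U M₂.V)))) := by
    unfold ld
    rw [mapB_eta hU hh, mapB_const]
  rw [h1, nab_mapB, map_add, ← mapB_etaI hU hh, ← mapB_etaI hU hh, etaI_eta hU, etaI_eta hU]
  rfl

theorem ld_add (M : PRep K Γ) (v v' : M.V) : ld δ M (v + v') = ld δ M v + ld δ M v' := by
  unfold ld
  rw [← map_add, ← nab_add, ← map_add]
  rfl

theorem ld_smul (M : PRep K Γ) (a : K) (v : M.V) : ld δ M (a • v) = a • ld δ M v := by
  have h1 : (↑(a • v) : UV U M.V) = algebraMap K (UL K U) a • (↑v : UV U M.V) := by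
    rw [smul_const]
    rfl
  unfold ld
  rw [h1, map_smul, nab_smul, Derivation.map_algebraMap, zero_smul, zero_add, map_smul,
    algebraMap_smul]

/-- The derivation defined by a derivation of the ultrapower and a functional. -/
def mkDer (hU : Big U) : Der K Γ where
  Θ M :=
    { toFun := fun v => thV θ (ld δ M v)
      map_add' := fun v v' => by rw [ld_add, thV_add]
      map_smul' := fun a v => by rw [ld_smul, thV_smul, RingHom.id_apply] }
  lin M M' f hf v := by
    change f (thV θ (ld δ M v)) = thV θ (ld δ M' (f v))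
    rw [← thV_mapL, ld_lin δ hU hf]
  bil M₁ M₂ M' h hh x y := by
    change h (thV θ (ld δ M₁ x)) y + h x (thV θ (ld δ M₂ y)) = thV θ (ld δ M' (h x y))
    rw [← ld_bil δ hU hh, thV_add, mapB_constR, mapB_constL, thV_mapL, thV_mapL]
    rfl

theorem mkDer_apply (hU : Big U) (M : PRep K Γ) (v : M.V) :
    (mkDer δ θ hU).Θ M v = thV θ (ld δ M v) := rfl

/-- If the generic vector of the orbit of `f` is not a multiple of a constant vector, then some
derivation moves the line of `f`. -/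
theorem exists_move [IsAlgClosed K] [CharZero K] (hU : Big U) (M : PRep K Γ) (f : M.V)
    (hf : ∀ (a : UL K U) (v : M.V), eta U M (↑f : UV U M.V) ≠ a • (↑v : UV U M.V)) :
    ∃ D : Der K Γ, ∀ c : K, D.Θ M f ≠ c • f := by
  classical
  -- a nonzero coordinate
  obtain ⟨w, hw⟩ : ∃ w : UV U M.V, w = eta U M (↑f : UV U M.V) := ⟨_, rfl⟩
  rw [← hw] at hf
  let b₀ := Module.finBasis K M.V
  obtain ⟨j, hj⟩ : ∃ j, (mapL U (b₀.coord j) w : UL K U) ≠ 0 := by
    by_contra hcon
    push Not at hcon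
    apply hf 0 0
    rw [expand b₀ w, zero_smul]
    exact Finset.sum_eq_zero fun k _ => by rw [hcon k, zero_smul]
  obtain ⟨c, hc⟩ : ∃ c : UL K U, c = mapL U (b₀.coord j) w := ⟨_, rfl⟩
  rw [← hc] at hj
  obtain ⟨w', hw'⟩ : ∃ w' : UV U M.V, w' = c⁻¹ • w := ⟨_, rfl⟩
  have hww : w = c • w' := by rw [hw', smul_smul, mul_inv_cancel₀ hj, one_smul]
  have hj1 : (mapL U (b₀.coord j) w' : UL K U) = 1 := by
    rw [hw', map_smul, smul_eq_mul, ← hc, inv_mul_cancel₀ hj]
  -- a transcendental coordinate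
  obtain ⟨i, hi⟩ : ∃ i, ∀ a : K, (mapL U (b₀.coord i) w' : UL K U) ≠ algebraMap K (UL K U) a := by
    by_contra hcon
    push Not at hcon
    choose a ha using hcon
    apply hf c (∑ k, a k • b₀ k)
    rw [hww]
    congr 1
    refine ext_coord (K := K) fun φ => ?_
    rw [map_expand b₀ φ w', mapL_const, ← smul_const, map_sum, map_sum]
    refine Finset.sum_congr rfl fun k _ => ?_
    rw [ha, map_smul, smul_eq_mul, Algebra.smul_def, ← map_mul, mul_comm]
  have htr : Transcendental K (mapL U (b₀.coord i) w' : UL K U) := by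
    intro halg
    have h1 := IsAlgClosed.degree_eq_one_of_irreducible K (minpoly.irreducible halg.isIntegral)
    obtain ⟨a, ha⟩ := minpoly.mem_range_of_degree_eq_one K _ h1
    exact hi a ha.symm
  obtain ⟨δ, hδ⟩ := H497R2.exists_derivation K (UL K U) htr
  -- the logarithmic derivative is not a multiple of `f`
  have hld : ∀ a : UL K U, ld δ M f ≠ a • (↑f : UV U M.V) := by
    intro a ha
    have h1 : nab δ w = a • w := by
      have h2 := congrArg (eta U M) ha
      rw [map_smul, ← hw] at h2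
      unfold ld at h2
      rwa [eta_etaI hU, ← hw] at h2
    have h3 : nab δ w' = (a - c⁻¹ * δ c) • w' := by
      have h4 := h1
      rw [hww, nab_smul, smul_smul] at h4
      have h5 : c • nab δ w' = (a * c - δ c) • w' := by
        rw [sub_smul, ← h4]
        abel
      have h6 := congrArg (fun z => c⁻¹ • z) h5
      simp only [smul_smul, inv_mul_cancel₀ hj, one_smul] at h6
      rw [h6]
      congr 1
      field_simp
    have h4 : a - c⁻¹ * δ c = 0 := by
      have h5 := congrArg (mapL U (b₀.coord j)) h3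
      rw [coord_nab, map_smul, hj1] at h5
      rw [smul_eq_mul, mul_one] at h5
      rw [← h5]
      exact δ.map_one_eq_zero
    rw [h4, zero_smul] at h3
    have h5 := coord_nab δ (b₀.coord i) w'
    rw [h3, map_zero, hδ] at h5
    exact zero_ne_one h5
  -- a coordinate of the logarithmic derivative
  have hf0 : f ≠ 0 := by
    rintro rfl
    apply hf 0 0
    rw [zero_smul, hw]
    exact map_zero (eta U M)
  obtain ⟨φ, hφ, hφ1⟩ : ∃ φ : M.V →ₗ[K] K, φ f = 0 ∧ (mapL U φ (ld δ M f) : UL K U) ≠ 0 := by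
    by_contra hcon
    push Not at hcon
    obtain ⟨ψ, hψ⟩ : ∃ ψ : M.V →ₗ[K] K, ψ f = 1 := by
      have h1 := mt (Module.forall_dual_apply_eq_zero_iff K f).1 hf0
      push Not at h1
      obtain ⟨ψ, hψ⟩ := h1
      exact ⟨(ψ f)⁻¹ • ψ, by rw [LinearMap.smul_apply, smul_eq_mul, inv_mul_cancel₀ hψ]⟩
    apply hld (mapL U ψ (ld δ M f))
    refine ext_coord (K := K) fun χ => ?_
    have h1 := hcon (χ - χ f • ψ) (by simp [hψ])
    have h2 : (mapL U (χ - χ f • ψ) (ld δ M f) : UL K U) =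
        mapL U χ (ld δ M f) - χ f • mapL U ψ (ld δ M f) := by
      generalize ld δ M f = z
      induction z using Germ.inductionOn with | h z => rfl
    rw [h2, sub_eq_zero] at h1
    rw [h1, map_smul, mapL_const, smul_eq_mul, mul_comm, ← smul_const, Algebra.smul_def]
  obtain ⟨θ, hθ⟩ : ∃ θ : UL K U →ₗ[K] K, θ (mapL U φ (ld δ M f)) ≠ 0 := by
    have h1 := mt (Module.forall_dual_apply_eq_zero_iff K
      (mapL U φ (ld δ M f) : UL K U)).1 hφ1
    push Not at h1
    exact h1
  refine ⟨mkDer δ θ hU, fun a ha => hθ ?_⟩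
  rw [← coord_thV, ← mkDer_apply δ θ hU, ha, map_smul, hφ, smul_zero]

/-- the line of `f` has finitely many images only if it is stable under a subgroup of finite
index -/
theorem exists_not_mem (M : PRep K Γ) (f : M.V) (hf : ¬ M.Eig f) (Δ : Subgroup Γ)
    (hΔ : Δ.FiniteIndex) (F : Finset M.V) :
    ∃ g ∈ Δ, ∀ v ∈ F, ∀ c : K, M.ρ g f ≠ c • v := by
  classical
  by_contra hcon
  push Not at hcon
  apply hf
  have hf0 : f ≠ 0 := by
    rintro rfl
    exact hf ⟨⊤, inferInstance, fun g _ => ⟨0, by rw [map_zero, smul_zero]⟩⟩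
  obtain ⟨Δ', hΔ', hmul, h1, h2⟩ := M.exists_dom
  have hinj : ∀ g ∈ Δ', M.ρ g f ≠ 0 := by
    intro g hg h3
    apply hf0
    rw [← h2 g hg f, h3, map_zero]
  -- the stabilizer of the line
  let S : Subgroup Γ :=
    { carrier := {g | g ∈ Δ ⊓ Δ' ∧ ∃ c : K, M.ρ g f = c • f}
      one_mem' := ⟨Subgroup.one_mem _, 1, by rw [M.one, one_smul]; rfl⟩
      mul_mem' := by
        rintro a b ⟨ha, c, hc⟩ ⟨hb, d, hd⟩
        refine ⟨Subgroup.mul_mem _ ha hb, d * c, ?_⟩
        rw [hmul a ha.2 b hb.2, Module.End.mul_apply, hd, map_smul, hc, smul_smul]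
      inv_mem' := by
        rintro a ⟨ha, c, hc⟩
        refine ⟨Subgroup.inv_mem _ ha, c⁻¹, ?_⟩
        have hc0 : c ≠ 0 := by
          rintro rfl
          exact hinj a ha.2 (by rw [hc, zero_smul])
        have h3 := h2 a ha.2 f
        rw [hc, map_smul] at h3
        rw [← h3, smul_smul, inv_mul_cancel₀ hc0, one_smul, h3] }
  refine ⟨S, ?_, fun g hg => hg.2⟩
  -- the index is finite
  have hΔ2 : (Δ ⊓ Δ').FiniteIndex := inferInstance
  have hle : S ≤ Δ ⊓ Δ' := fun g hg => hg.1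
  have hcos : ∀ g ∈ Δ ⊓ Δ', ∀ g' ∈ Δ ⊓ Δ', ∀ v : M.V, (∃ c : K, M.ρ g f = c • v) →
      (∃ c : K, M.ρ g' f = c • v) → g⁻¹ * g' ∈ S := by
    rintro g hg g' hg' v ⟨c, hc⟩ ⟨d, hd⟩
    refine ⟨Subgroup.mul_mem _ (Subgroup.inv_mem _ hg) hg', d * c⁻¹, ?_⟩
    have hc0 : c ≠ 0 := by
      rintro rfl
      exact hinj g hg.2 (by rw [hc, zero_smul])
    have h3 : M.ρ g' f = (d * c⁻¹) • M.ρ g f := by
      rw [hd, hc, smul_smul, mul_assoc, inv_mul_cancel₀ hc0, mul_one]
    rw [hmul _ (Subgroup.inv_mem _ hg.2) _ hg'.2, Module.End.mul_apply, h3, map_smul, h2 g hg.2]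
  have hex : ∀ g : (Δ ⊓ Δ' : Subgroup Γ), ∃ v : F, ∃ c : K, M.ρ g f = c • (v : M.V) := by
    intro g
    obtain ⟨v, hv, c, hc⟩ := hcon g g.2.1
    exact ⟨⟨v, hv⟩, c, hc⟩
  choose vv hvv using hex
  have hfin : Finite ((Δ ⊓ Δ' : Subgroup Γ) ⧸ S.subgroupOf (Δ ⊓ Δ')) := by
    refine Finite.of_injective (fun q : ((Δ ⊓ Δ' : Subgroup Γ) ⧸ S.subgroupOf (Δ ⊓ Δ')) =>
      vv q.out) fun q q' hq => ?_
    have h3 := hcos q.out q.out.2 q'.out q'.out.2 (vv q.out) (hvv q.out) (by
      have h4 := hvv q'.out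
      simp only at hq
      rwa [← hq] at h4)
    rw [← q.out_eq', ← q'.out_eq']
    exact QuotientGroup.eq.2 (by
      rw [Subgroup.mem_subgroupOf]
      exact h3)
  have h3 : (S.subgroupOf (Δ ⊓ Δ')).FiniteIndex := Subgroup.finiteIndex_of_finite_quotient
  have h4 : S.relIndex (Δ ⊓ Δ') ≠ 0 := h3.index_ne_zero
  constructor
  rw [← Subgroup.relIndex_mul_index hle]
  exact mul_ne_zero h4 hΔ2.index_ne_zero

/-- **Reconstruction.** If all derivations preserve the line of `f`, then the line is stable under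
a subgroup of finite index. -/
theorem eig_of_der [IsAlgClosed K] [CharZero K] (M : PRep K Γ) (f : M.V)
    (h : ∀ D : Der K Γ, ∃ c : K, D.Θ M f = c • f) : M.Eig f := by
  classical
  by_contra hf
  let 𝒮 : Set (Set Γ) := {s | (∃ Δ : Subgroup Γ, Δ.FiniteIndex ∧ s = Δ) ∨
    ∃ v : M.V, s = {g | ∀ c : K, M.ρ g f ≠ c • v}}
  have key : ∀ T : Finset (Set Γ), (T : Set (Set Γ)) ⊆ 𝒮 → ∃ (Δ : Subgroup Γ) (F : Finset M.V),
      Δ.FiniteIndex ∧ ∀ g ∈ Δ, (∀ v ∈ F, ∀ c : K, M.ρ g f ≠ c • v) → ∀ s ∈ T, g ∈ s := by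
    intro T
    induction T using Finset.induction_on with
    | empty => exact fun _ => ⟨⊤, ∅, inferInstance, fun g _ _ s hs => by simp at hs⟩
    | insert a T ha ih =>
      intro hT
      rw [Finset.coe_insert, Set.insert_subset_iff] at hT
      obtain ⟨Δ, F, hΔ, h1⟩ := ih hT.2
      rcases hT.1 with ⟨Δ', hΔ', rfl⟩ | ⟨v, rfl⟩
      · refine ⟨Δ ⊓ Δ', F, inferInstance, fun g hg h2 s hs => ?_⟩
        rcases Finset.mem_insert.1 hs with rfl | hs
        · exact hg.2
        · exact h1 g hg.1 h2 s hs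
      · refine ⟨Δ, insert v F, hΔ, fun g hg h2 s hs => ?_⟩
        rcases Finset.mem_insert.1 hs with rfl | hs
        · exact h2 v (Finset.mem_insert_self _ _)
        · exact h1 g hg (fun v' hv' => h2 v' (Finset.mem_insert_of_mem hv')) s hs
  obtain ⟨U, hU⟩ := Ultrafilter.exists_ultrafilter_of_finite_inter_nonempty 𝒮 (by
    intro T hT
    obtain ⟨Δ, F, hΔ, h1⟩ := key T hT
    obtain ⟨g, hg, hgF⟩ := exists_not_mem M f hf Δ hΔ F
    exact ⟨g, fun s hs => h1 g hg hgF s hs⟩)
  have hbig : Big U := fun Δ hΔ => hU (Or.inl ⟨Δ, hΔ, rfl⟩)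
  obtain ⟨D, hD⟩ := exists_move hbig M f (by
    intro a v hav
    induction a using Germ.inductionOn with | h a =>
    have h1 : (↑(fun g => M.ρ g f) : UV U M.V) = ↑(fun g => a g • v) := hav
    have h2 := Germ.coe_eq.1 h1
    have h3 : {g | ∀ c : K, M.ρ g f ≠ c • v} ∈ U := hU (Or.inr ⟨v, rfl⟩)
    have h4 : ∀ᶠ g in (U : Filter Γ), False := by
      filter_upwards [h2, h3] with g hg hg'
      exact hg' _ hg
    obtain ⟨g, hg⟩ := h4.exists
    exact hg)
  obtain ⟨c, hc⟩ := h D
  exact hD c hc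

end

end Pool.Agent.N179.GR
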