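import Pool.Agent.N179.GR.Lie
import Pool.Agent.N179.GR.Recon

/-!
# Representations of the whole group, stable subspaces, lines, and Lie's theorem
-/

set_option autoImplicit false
set_option linter.unusedSectionVars false

namespace Pool.Agent.N179.GR

noncomputable section

variable {K : Type} [Field K] {Γ : Type} [Group Γ]

/-- a representation of the whole group -/
abbrev full (V : Type) [AddCommGroup V] [Module K V] [FiniteDimensional K V]
    (r : Γ →* Module.End K V) : PRep K Γ where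
  V := V
  ρ := r
  one := map_one r
  mul := ⟨⊤, inferInstance, fun g _ h _ => map_mul r g h⟩

/-- the line with a character of a subgroup of finite index -/
abbrev lineP (c : Γ → K) (h1 : c 1 = 1)
    (hc : ∃ Δ : Subgroup Γ, Δ.FiniteIndex ∧ ∀ g ∈ Δ, ∀ h ∈ Δ, c (g * h) = c g * c h) :
    PRep K Γ where
  V := K
  ρ g := LinearMap.lsmul K K (c g)
  one := by
    rw [h1]
    ext
    simp
  mul := by
    obtain ⟨Δ, hΔ, h⟩ := hc
    refine ⟨Δ, hΔ, fun g hg g' hg' => ?_⟩
    rw [h g hg g' hg']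
    ext
    simp

theorem lineP_zero {c : Γ → K} {h1 : c 1 = 1}
    {hc : ∃ Δ : Subgroup Γ, Δ.FiniteIndex ∧ ∀ g ∈ Δ, ∀ h ∈ Δ, c (g * h) = c g * c h}
    {D : Der K Γ} {k : ℕ} (hD : InDer (k + 1) D) : D.Θ (lineP c h1 hc) = 0 := by
  have hcomm : ∀ f g : Module.End K K, f * g - g * f = 0 := by
    intro f g
    ext
    rw [LinearMap.sub_apply, Module.End.mul_apply, Module.End.mul_apply]
    have h1 : ∀ (f : Module.End K K) (x : K), f x = x * f 1 := by
      intro f x
      conv_lhs => rw [← mul_one x, ← smul_eq_mul, map_smul, smul_eq_mul]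
    rw [h1 f (g 1), h1 g (f 1), mul_comm, sub_self, LinearMap.zero_apply]
  generalize hn : k + 1 = n at hD
  induction hD with
  | base D => omega
  | zero j => rfl
  | add j D D' _ _ h1 h2 => rw [add_Θ, h1 hn, h2 hn, add_zero]
  | br j D D' _ _ _ _ => exact hcomm _ _

/-- derivations in the derived algebra kill the vectors which span stable lines -/
theorem InDer.kill {D : Der K Γ} {k : ℕ} (hD : InDer (k + 1) D) {M : PRep K Γ} {f : M.V}
    (hf : M.Eig f) : D.Θ M f = 0 := by
  classical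
  rcases eq_or_ne f 0 with rfl | hf0
  · exact map_zero _
  obtain ⟨Δ, hΔ, h⟩ := hf
  obtain ⟨Δ', hΔ', hmul, -, -⟩ := M.exists_dom
  choose! c hc using h
  let c' : Γ → K := fun g => if g ∈ Δ then c g else 1
  have hc' : ∀ g ∈ Δ, M.ρ g f = c' g • f := by
    intro g hg
    simp only [c', if_pos hg]
    exact hc g hg
  have hinj : ∀ a b : K, a • f = b • f → a = b := fun a b hab => smul_left_injective K hf0 hab
  have h1 : c' 1 = 1 := by
    apply hinj
    rw [← hc' 1 Δ.one_mem, M.one, one_smul]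
    rfl
  have h2 : ∃ Δ : Subgroup Γ, Δ.FiniteIndex ∧ ∀ g ∈ Δ, ∀ h ∈ Δ, c' (g * h) = c' g * c' h := by
    refine ⟨Δ ⊓ Δ', inferInstance, fun g hg g' hg' => ?_⟩
    apply hinj
    rw [← hc' _ (Δ.mul_mem hg.1 hg'.1), hmul g hg.2 g' hg'.2, Module.End.mul_apply,
      hc' g' hg'.1, map_smul, hc' g hg.1, smul_smul, mul_comm]
  have h3 := D.lin (lineP c' h1 h2) M (LinearMap.toSpanSingleton K M.V f)
    ⟨Δ, hΔ, fun g hg v => by
      have h4 : (c' g * (v : K)) • f = M.ρ g ((v : K) • f) := by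
        rw [map_smul, hc' g hg, smul_smul, mul_comm]
      exact h4⟩ (1 : K)
  rw [lineP_zero hD] at h3
  have h4 : (LinearMap.toSpanSingleton K M.V f) (1 : K) = f := by
    rw [LinearMap.toSpanSingleton_apply, one_smul]
  refine Eq.trans (congrArg (D.Θ M) h4.symm) (h3.symm.trans ?_)
  exact map_zero (LinearMap.toSpanSingleton K M.V f)

section full

variable {V : Type} [AddCommGroup V] [Module K V] [FiniteDimensional K V]

/-- the subspace is stable -/
def Stab (r : Γ →* Module.End K V) (A : Submodule K V) : Prop := ∀ g, ∀ x ∈ A, r g x ∈ A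

/-- every stable subspace has a stable complement -/
def SemiS (r : Γ →* Module.End K V) : Prop :=
  ∀ A : Submodule K V, Stab r A → ∃ B : Submodule K V, Stab r B ∧ IsCompl A B

/-- the restriction to a stable subspace -/
def subR (r : Γ →* Module.End K V) (A : Submodule K V) (hA : Stab r A) :
    Γ →* Module.End K A where
  toFun g := (r g).restrict (hA g)
  map_one' := by
    ext x
    rw [LinearMap.coe_restrict_apply, map_one]
    rfl
  map_mul' g h := by
    ext x
    rw [LinearMap.coe_restrict_apply, map_mul]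
    rfl

theorem sub_Θ (D : Der K Γ) (r : Γ →* Module.End K V) (A : Submodule K V) (hA : Stab r A)
    (x : A) : ((D.Θ (full A (subR r A hA)) x : A) : V) = D.Θ (full V r) (x : V) :=
  D.lin (full A (subR r A hA)) (full V r) A.subtype ⟨⊤, inferInstance, fun _ _ _ => rfl⟩ x

theorem Θ_mem (D : Der K Γ) {r : Γ →* Module.End K V} {A : Submodule K V} (hA : Stab r A)
    {x : V} (hx : x ∈ A) : D.Θ (full V r) x ∈ A := by
  have h1 := sub_Θ D r A hA ⟨x, hx⟩
  have h2 : D.Θ (full V r) x = ((D.Θ (full A (subR r A hA)) ⟨x, hx⟩ : A) : V) := h1.symm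
  rw [h2]
  exact SetLike.coe_mem _

/-- eigenvectors in a stable subspace -/
theorem eig_sub {r : Γ →* Module.End K V} {A : Submodule K V} {hA : Stab r A} {x : A}
    (h : (full A (subR r A hA)).Eig x) : (full V r).Eig (x : V) := by
  obtain ⟨Δ, hΔ, h⟩ := h
  refine ⟨Δ, hΔ, fun g hg => ?_⟩
  obtain ⟨c, hc⟩ := h g hg
  exact ⟨c, congrArg Subtype.val hc⟩

/-- conjugates of eigenvectors are eigenvectors -/
theorem eig_act {r : Γ →* Module.End K V} {x : V} (h : (full V r).Eig x) (γ : Γ) :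
    (full V r).Eig (r γ x) := by
  obtain ⟨Δ, hΔ, h⟩ := h
  refine ⟨Δ.comap (MulAut.conj γ⁻¹).toMonoidHom, ⟨?_⟩, fun g hg => ?_⟩
  · rw [Subgroup.index_comap_of_surjective _ (MulAut.conj γ⁻¹).surjective]
    exact hΔ.index_ne_zero
  · have h1 : γ⁻¹ * g * γ ∈ Δ := by
      have h2 := Subgroup.mem_comap.1 hg
      simpa using h2
    obtain ⟨c, hc⟩ := h _ h1
    refine ⟨c, ?_⟩
    have h3 : r g (r γ x) = r γ (r (γ⁻¹ * g * γ) x) := by
      rw [← Module.End.mul_apply, ← Module.End.mul_apply, ← map_mul, ← map_mul]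
      congr 2
      group
    have hc' : r (γ⁻¹ * g * γ) x = c • x := hc
    change r g (r γ x) = c • r γ x
    rw [h3, hc', map_smul]

/-- the span of the eigenvectors in a stable subspace is stable -/
def eigSpan (r : Γ →* Module.End K V) (A : Submodule K V) : Submodule K V :=
  Submodule.span K {x | x ∈ A ∧ (full V r).Eig x}

theorem eigSpan_stab {r : Γ →* Module.End K V} {A : Submodule K V} (hA : Stab r A) :
    Stab r (eigSpan r A) := by
  intro g x hx
  induction hx using Submodule.span_induction with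
  | mem x hx => exact Submodule.subset_span ⟨hA g x hx.1, eig_act hx.2 g⟩
  | zero => rw [map_zero]; exact zero_mem _
  | add x y _ _ hx hy => rw [map_add]; exact add_mem hx hy
  | smul a x _ hx => rw [map_smul]; exact Submodule.smul_mem _ _ hx

end full

section lie

attribute [local instance 100] LieRing.ofAssociativeRing

/-- the Lie algebra acting on `M` -/
def gLie (M : PRep K Γ) : LieSubalgebra K (Module.End K M.V) where
  carrier := {x | ∃ D : Der K Γ, D.Θ M = x}
  add_mem' := by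
    rintro x y ⟨D, rfl⟩ ⟨D', rfl⟩
    exact ⟨D + D', rfl⟩
  zero_mem' := ⟨0, rfl⟩
  smul_mem' := by
    rintro c x ⟨D, rfl⟩
    exact ⟨c • D, rfl⟩
  lie_mem' := by
    rintro x y ⟨D, rfl⟩ ⟨D', rfl⟩
    exact ⟨D.br D', rfl⟩

theorem derivedSeries_mem (M : PRep K Γ) (k : ℕ) :
    ∀ x ∈ LieAlgebra.derivedSeries K (gLie M) k, ∃ D : Der K Γ, InDer k D ∧
      D.Θ M = (x : Module.End K M.V) := by
  induction k with
  | zero =>
    rintro x -
    obtain ⟨D, hD⟩ := x.2
    exact ⟨D, InDer.base _, hD⟩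
  | succ k ih =>
    intro x hx
    rw [LieAlgebra.derivedSeries_def, LieAlgebra.derivedSeriesOfIdeal_succ] at hx
    have hx' : x ∈ (⁅LieAlgebra.derivedSeriesOfIdeal K (gLie M) k ⊤,
        LieAlgebra.derivedSeriesOfIdeal K (gLie M) k ⊤⁆ : LieIdeal K (gLie M)).toSubmodule := hx
    rw [LieSubmodule.lieIdeal_oper_eq_linear_span'] at hx'
    refine Submodule.span_induction (p := fun (x : gLie M) _ => ∃ D : Der K Γ, InDer (k + 1) D ∧
      D.Θ M = (x : Module.End K M.V)) ?_ ?_ ?_ ?_ hx'
    · rintro _ ⟨y, hy, z, hz, rfl⟩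
      obtain ⟨D, hD, h1⟩ := ih y hy
      obtain ⟨D', hD', h1'⟩ := ih z hz
      refine ⟨D.br D', InDer.br k _ _ hD hD', ?_⟩
      rw [br_Θ, h1, h1']
      rfl
    · exact ⟨0, InDer.zero' _, rfl⟩
    · rintro x y _ _ ⟨D, hD, h1⟩ ⟨D', hD', h1'⟩
      exact ⟨D + D', hD.add' hD', by rw [add_Θ, h1, h1']; rfl⟩
    · rintro a x _ ⟨D, hD, h1⟩
      exact ⟨a • D, hD.smul a, by rw [smul_Θ, h1]; rfl⟩

/-- **Lie's theorem**: if the `k`-th step of the derived series kills a nonzero representation, then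
it contains a vector which spans a line stable under a subgroup of finite index. -/
theorem exists_eig [IsAlgClosed K] [CharZero K] (M : PRep K Γ) [Nontrivial M.V] (k : ℕ)
    (h : ∀ D : Der K Γ, InDer k D → D.Θ M = 0) : ∃ v : M.V, v ≠ 0 ∧ M.Eig v := by
  have hsol : LieAlgebra.IsSolvable (gLie M) := by
    rw [LieAlgebra.isSolvable_iff K]
    refine ⟨k, ?_⟩
    rw [eq_bot_iff]
    intro x hx
    obtain ⟨D, hD, h1⟩ := derivedSeries_mem M k x hx
    rw [h D hD] at h1
    rw [LieSubmodule.mem_bot]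
    exact Subtype.ext h1.symm
  obtain ⟨χ, hχ⟩ := LieModule.exists_nontrivial_weightSpace_of_isSolvable K (gLie M) M.V
  obtain ⟨⟨v, hv⟩, hv0⟩ := exists_ne (0 : LieModule.weightSpace M.V χ)
  refine ⟨v, fun h0 => hv0 (Subtype.ext h0), eig_of_der M v fun D => ?_⟩
  rw [LieModule.mem_weightSpace] at hv
  exact ⟨χ ⟨D.Θ M, D, rfl⟩, hv ⟨D.Θ M, D, rfl⟩⟩

end lie

/-- **The abelian part.** Let `V` be semisimple. A stable subspace which is killed by some step of
the derived series is spanned by vectors whose lines are stable under subgroups of finite index. -/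
theorem le_eigSpan [IsAlgClosed K] [CharZero K] {V : Type} [AddCommGroup V] [Module K V]
    [FiniteDimensional K V] {r : Γ →* Module.End K V} (hr : SemiS r) {A : Submodule K V}
    (hA : Stab r A) {k : ℕ} (h : ∀ D : Der K Γ, InDer k D → ∀ x ∈ A, D.Θ (full V r) x = 0) :
    A ≤ eigSpan r A := by
  obtain ⟨B, hB, hc⟩ := hr (eigSpan r A) (eigSpan_stab hA)
  have hle : eigSpan r A ≤ A := Submodule.span_le.2 fun x hx => hx.1
  have hAB : Stab r (A ⊓ B) := fun g x hx => ⟨hA g x hx.1, hB g x hx.2⟩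
  have hbot : A ⊓ B = ⊥ := by
    by_contra hne
    have hnt : Nontrivial (A ⊓ B : Submodule K V) := Submodule.nontrivial_iff_ne_bot.2 hne
    have hnt' : Nontrivial (full (A ⊓ B : Submodule K V) (subR r (A ⊓ B) hAB)).V := hnt
    obtain ⟨v, hv0, hv⟩ := exists_eig (full (A ⊓ B : Submodule K V) (subR r (A ⊓ B) hAB)) k (by
      intro D hD
      refine LinearMap.ext fun x => ?_
      have h1 := sub_Θ D r (A ⊓ B) hAB x
      rw [h D hD _ x.2.1] at h1
      exact Subtype.ext h1)
    have h2 : (v : V) ∈ eigSpan r A := Submodule.subset_span ⟨v.2.1, eig_sub hv⟩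
    have h3 := hc.disjoint.le_bot ⟨h2, v.2.2⟩
    exact hv0 (Subtype.ext ((Submodule.mem_bot K).1 h3))
  intro x hx
  obtain ⟨y, hy, z, hz, rfl⟩ := Submodule.mem_sup.1 (hc.sup_eq_top ▸ Submodule.mem_top : x ∈ _)
  have h1 : z ∈ A ⊓ B := ⟨by
    have h2 := sub_mem hx (hle hy)
    rwa [add_sub_cancel_left] at h2, hz⟩
  rw [hbot, Submodule.mem_bot] at h1
  rwa [h1, add_zero]

end

end Pool.Agent.N179.GR
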