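import Pool.Agent.N179.GR.Bd

/-!
# Algebras generated by representations
-/

set_option autoImplicit false
set_option linter.unusedSectionVars false

namespace Pool.Agent.N179.GR

open Module

noncomputable section

variable {K : Type} [Field K] {Γ : Type} [Group Γ]

/-- the restriction to smaller representations, for the derived algebra -/
theorem Spl.detect1 {M : PRep K Γ} {T T' : Set (PRep K Γ)} (h : Spl M T)
    (hT : ∀ D : Der K Γ, InDer 1 D → (∀ N ∈ T, D.Θ N = 0) → ∀ N ∈ T', D.Θ N = 0) : Spl M T' := by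
  intro x hx
  rw [mem_aI]
  intro k
  obtain ⟨D, hD, h1, rfl⟩ := mem_aI.1 (h hx) (k + 1)
  exact ⟨D, hD.mono, hT D (hD.mono' (by omega)) h1, rfl⟩

section alg

variable {A : Type} [Ring A] [Algebra K A] [FiniteDimensional K A]

/-- the action on an algebra as a representation -/
def algR (τ : Γ →* (A ≃ₐ[K] A)) : Γ →* Module.End K A where
  toFun g := (τ g).toLinearMap
  map_one' := by rw [map_one]; rfl
  map_mul' g h := by rw [map_mul]; rfl

theorem algR_apply (τ : Γ →* (A ≃ₐ[K] A)) (g : Γ) (a : A) : algR τ g a = τ g a := rfl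

variable {τ : Γ →* (A ≃ₐ[K] A)}

theorem Θ_mul (D : Der K Γ) (a b : A) : D.Θ (full A (algR τ)) (a * b) =
    D.Θ (full A (algR τ)) a * b + a * D.Θ (full A (algR τ)) b :=
  (D.bil (full A (algR τ)) (full A (algR τ)) (full A (algR τ)) (LinearMap.mul K A)
    ⟨⊤, inferInstance, fun g _ x y => (map_mul (τ g) x y).symm⟩ a b).symm

theorem Θ_one (D : Der K Γ) : D.Θ (full A (algR τ)) 1 = 0 := by
  have h1 := Θ_mul (τ := τ) D 1 1
  rw [mul_one, mul_one, one_mul] at h1
  exact left_eq_add.1 h1

/-- derivations which kill generators are zero -/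
theorem Θ_eq_zero {D : Der K Γ} {S : Set A} (hS : Algebra.adjoin K S = ⊤)
    (h : ∀ a ∈ S, D.Θ (full A (algR τ)) a = 0) : D.Θ (full A (algR τ)) = 0 := by
  refine LinearMap.ext fun a => ?_
  have ha : a ∈ Algebra.adjoin K S := by
    rw [hS]
    exact Algebra.mem_top
  induction ha using Algebra.adjoin_induction with
  | mem a ha => exact h a ha
  | algebraMap r =>
    rw [Algebra.algebraMap_eq_smul_one]
    exact (map_smul (D.Θ (full A (algR τ))) r (1 : A)).trans (by rw [Θ_one, smul_zero]; rfl)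
  | add a b _ _ ha hb =>
    exact (map_add (D.Θ (full A (algR τ))) a b).trans (by rw [ha, hb]; exact add_zero _)
  | mul a b _ _ ha hb =>
    rw [Θ_mul, ha, hb]
    change (0 : A) * b + a * 0 = 0
    rw [zero_mul, mul_zero, add_zero]

/-- The algebra is generated by eigenvectors and by the images of potentially equivariant maps. -/
def Gen {κ : Type} (U : κ → PRep K Γ) (τ : Γ →* (A ≃ₐ[K] A)) : Prop :=
  Algebra.adjoin K ({x : A | (full A (algR τ)).Eig x} ∪
    {x | ∃ (a : κ) (f : (U a).V →ₗ[K] A), PE (U a) (full A (algR τ)) f ∧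
      x ∈ LinearMap.range f}) = ⊤

/-- derivations in the derived algebra which kill the generating representations kill the
algebra -/
theorem Gen.kill {κ : Type} {U : κ → PRep K Γ} (h : Gen U τ) {D : Der K Γ} {k : ℕ}
    (hD : InDer (k + 1) D) (h0 : ∀ a, D.Θ (U a) = 0) : D.Θ (full A (algR τ)) = 0 := by
  refine Θ_eq_zero h ?_
  rintro x (hx | ⟨a, f, hf, v, rfl⟩)
  · exact hD.kill hx
  · have h1 := D.lin (U a) (full A (algR τ)) f hf v
    rw [h0 a] at h1
    exact h1.symm.trans (map_zero f)

/-- two derivations which agree on the generating representations -/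
theorem Gen.eq_of {κ : Type} {U : κ → PRep K Γ} (h : Gen U τ) {D D' : Der K Γ} {k : ℕ}
    (hD : InDer (k + 1) D) (hD' : InDer (k + 1) D') (h0 : ∀ a, D.Θ (U a) = D'.Θ (U a)) :
    D.Θ (full A (algR τ)) = D'.Θ (full A (algR τ)) := by
  have h1 := h.kill (D := D + (-1 : K) • D') (hD.add' (hD'.smul _)) fun a => by
    rw [add_Θ, smul_Θ, h0, neg_one_smul, add_neg_cancel]
  rw [add_Θ, smul_Θ, neg_one_smul] at h1
  exact eq_of_sub_eq_zero ((sub_eq_add_neg _ _).trans h1)

/-- the elements killed by the `k`-th step of the derived series -/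
def inv (k : ℕ) (τ : Γ →* (A ≃ₐ[K] A)) : Submodule K A where
  carrier := {x | ∀ D : Der K Γ, InDer k D → D.Θ (full A (algR τ)) x = 0}
  add_mem' := fun {x y} hx hy D hD =>
    (map_add (D.Θ (full A (algR τ))) x y).trans (by rw [hx D hD, hy D hD]; exact add_zero _)
  zero_mem' := fun D _ => map_zero (D.Θ (full A (algR τ)))
  smul_mem' := fun c x hx D hD =>
    (map_smul (D.Θ (full A (algR τ))) c x).trans (by rw [hx D hD]; exact smul_zero _)

theorem mem_inv {k : ℕ} {x : A} :
    x ∈ inv k τ ↔ ∀ D : Der K Γ, InDer k D → D.Θ (full A (algR τ)) x = 0 := Iff.rfl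

theorem inv_stab (k : ℕ) : Stab (algR τ) (inv k τ) := by
  intro g x hx D hD
  have h1 := hx (D.conj g) (hD.conj g)
  rw [conj_full D g (isFull_full _)] at h1
  have h2 : algR τ g (algR τ g⁻¹ (D.Θ (full A (algR τ)) (algR τ g x))) = 0 := by
    have h3 : algR τ g⁻¹ (D.Θ (full A (algR τ)) (algR τ g x)) = 0 := h1
    rw [h3, map_zero]
  have h4 : algR τ g (algR τ g⁻¹ (D.Θ (full A (algR τ)) (algR τ g x))) =
      D.Θ (full A (algR τ)) (algR τ g x) :=
    LinearMap.congr_fun ((isFull_full (algR τ)).inv_r g) _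
  rw [h4] at h2
  exact h2

/-- the elements killed by the derived series are combinations of eigenvectors -/
theorem inv_le [IsAlgClosed K] [CharZero K] (hss : SemiS (algR τ)) (k : ℕ) {x : A}
    (hx : x ∈ inv k τ) : x ∈ Submodule.span K {y | (full A (algR τ)).Eig y} :=
  Submodule.span_mono (fun _ hy => hy.2)
    (le_eigSpan hss (inv_stab k) (k := k) (fun D hD x hx => hx D hD) hx)

end alg

end

end Pool.Agent.N179.GR
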