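import Mathlib

/-!
# Potential representations and their derivations

Let `Γ` be a group and `K` a field. A potential representation of `Γ` is a finite-dimensional
representation of a subgroup of finite index (extended arbitrarily to `Γ`). A derivation of the
category of the potential representations is an operator on every potential representation which is
compatible with all linear and bilinear maps that are equivariant under a subgroup of finite index.
-/

set_option autoImplicit false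

namespace Pool.Agent.N179.GR

/-- A finite-dimensional representation of a subgroup of finite index (extended to `Γ` as a
function). -/
structure PRep (K : Type) [Field K] (Γ : Type) [Group Γ] where
  /-- the space -/
  V : Type
  [ac : AddCommGroup V]
  [md : Module K V]
  [fd : FiniteDimensional K V]
  /-- the action -/
  ρ : Γ → Module.End K V
  one : ρ 1 = 1
  mul : ∃ Δ : Subgroup Γ, Δ.FiniteIndex ∧ ∀ g ∈ Δ, ∀ h ∈ Δ, ρ (g * h) = ρ g * ρ h

attribute [instance] PRep.ac PRep.md PRep.fd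

variable {K : Type} [Field K] {Γ : Type} [Group Γ]

/-- The linear map `f` is equivariant under a subgroup of finite index. -/
def PE (M M' : PRep K Γ) (f : M.V →ₗ[K] M'.V) : Prop :=
  ∃ Δ : Subgroup Γ, Δ.FiniteIndex ∧ ∀ g ∈ Δ, ∀ v, f (M.ρ g v) = M'.ρ g (f v)

/-- The bilinear map `h` is equivariant under a subgroup of finite index. -/
def PE2 (M₁ M₂ M' : PRep K Γ) (h : M₁.V →ₗ[K] M₂.V →ₗ[K] M'.V) : Prop :=
  ∃ Δ : Subgroup Γ, Δ.FiniteIndex ∧
    ∀ g ∈ Δ, ∀ x y, h (M₁.ρ g x) (M₂.ρ g y) = M'.ρ g (h x y)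

/-- A derivation of the category of potential representations. -/
structure Der (K : Type) [Field K] (Γ : Type) [Group Γ] where
  /-- the operators -/
  Θ : ∀ M : PRep K Γ, Module.End K M.V
  lin : ∀ (M M' : PRep K Γ) (f : M.V →ₗ[K] M'.V), PE M M' f → ∀ v, f (Θ M v) = Θ M' (f v)
  bil : ∀ (M₁ M₂ M' : PRep K Γ) (h : M₁.V →ₗ[K] M₂.V →ₗ[K] M'.V), PE2 M₁ M₂ M' h →
    ∀ x y, h (Θ M₁ x) y + h x (Θ M₂ y) = Θ M' (h x y)

/-- The vector `v` spans a line which is stable under a subgroup of finite index. -/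
def PRep.Eig (M : PRep K Γ) (v : M.V) : Prop :=
  ∃ Δ : Subgroup Γ, Δ.FiniteIndex ∧ ∀ g ∈ Δ, ∃ c : K, M.ρ g v = c • v

/-- a subgroup of finite index on which `M` is a representation -/
theorem PRep.exists_dom (M : PRep K Γ) : ∃ Δ : Subgroup Γ, Δ.FiniteIndex ∧
    (∀ g ∈ Δ, ∀ h ∈ Δ, M.ρ (g * h) = M.ρ g * M.ρ h) ∧
    (∀ g ∈ Δ, ∀ v, M.ρ g (M.ρ g⁻¹ v) = v) ∧ (∀ g ∈ Δ, ∀ v, M.ρ g⁻¹ (M.ρ g v) = v) := by
  obtain ⟨Δ, hΔ, h⟩ := M.mul
  refine ⟨Δ, hΔ, h, fun g hg v => ?_, fun g hg v => ?_⟩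
  · have h1 := h g hg g⁻¹ (Δ.inv_mem hg)
    rw [mul_inv_cancel, M.one] at h1
    exact (LinearMap.congr_fun h1 v).symm
  · have h1 := h g⁻¹ (Δ.inv_mem hg) g hg
    rw [inv_mul_cancel, M.one] at h1
    exact (LinearMap.congr_fun h1 v).symm

end Pool.Agent.N179.GR
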