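import Pool.Agent.N179.GR.Rank
import Mathlib.LinearAlgebra.Complex.FiniteDimensional

/-!
# The number of the representations which do not split off
-/

set_option autoImplicit false
set_option linter.unusedSectionVars false

namespace Pool.Agent.N179.GR

open Module Finset

noncomputable section

variable {K : Type} [Field K]

section rat

variable [CharZero K]

/-- numbers which are linearly independent over the rational numbers -/
theorem exists_indep (e : K ≃+* ℂ) {ι : Type} (F : Finset ι) :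
    ∃ τ : F → K, LinearIndependent ℚ τ := by
  have h1 : ((F.card : ℕ) : Cardinal) ≤ Module.rank ℚ ℂ := by
    rw [Complex.rank_rat_complex]
    exact (Cardinal.nat_lt_continuum _).le
  obtain ⟨s, hs, h2⟩ := le_rank_iff_exists_linearIndependent_finset.1 h1
  have h3 : Fintype.card F = Fintype.card (s : Set ℂ) := by
    rw [Fintype.card_coe]
    exact hs.symm.trans (Fintype.card_coe s).symm
  let f : F ≃ (s : Set ℂ) := Fintype.equivOfCardEq h3
  let g : ℂ →ₗ[ℚ] K := (e.symm.toRingHom.toRatAlgHom).toLinearMap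
  refine ⟨fun i => g (f i : ℂ), ?_⟩
  have h4 := h2.comp f f.injective
  exact h4.map' g (LinearMap.ker_eq_bot.2 e.symm.injective)

/-- elements of the rational span of a finite set -/
theorem card_le_of_span {ι : Type} {F : Finset ι} {τ : F → K} (hτ : LinearIndependent ℚ τ)
    (s : Finset K) (hs : ∀ i, τ i ∈ Submodule.span ℚ (s : Set K)) : F.card ≤ s.card := by
  have h1 : LinearIndependent ℚ fun i => (⟨τ i, hs i⟩ : Submodule.span ℚ (s : Set K)) :=
    LinearIndependent.of_comp (Submodule.span ℚ (s : Set K)).subtype hτ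
  have : FiniteDimensional ℚ (Submodule.span ℚ (s : Set K)) :=
    FiniteDimensional.span_of_finite ℚ s.finite_toSet
  have h2 := h1.fintype_card_le_finrank
  rw [Fintype.card_coe] at h2
  exact h2.trans (finrank_span_finset_le_card s)

/-- a set which is symmetric up to the sign -/
theorem exists_half (e : K ≃+* ℂ) (s : Finset K) (h0 : (0 : K) ∉ s) (hs : ∀ c ∈ s, -c ∈ s) :
    ∃ t : Finset K, 2 * t.card = s.card ∧ ∀ c ∈ s, c ∈ Submodule.span ℚ (t : Set K) := by
  classical
  let p : K → Prop := fun c => 0 < (e c).re ∨ ((e c).re = 0 ∧ 0 < (e c).im)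
  have hp : ∀ c, p (-c) ↔ ((e c).re < 0 ∨ ((e c).re = 0 ∧ (e c).im < 0)) := by
    intro c
    simp only [p, map_neg, Complex.neg_re, Complex.neg_im, Left.neg_pos_iff, neg_eq_zero]
  have hne : ∀ c, c ≠ 0 → (¬p c ↔ p (-c)) := by
    intro c hc
    rw [hp]
    simp only [p]
    have h1 : ¬((e c).re = 0 ∧ (e c).im = 0) := by
      rintro ⟨h1, h2⟩
      exact hc ((map_eq_zero e).1 (Complex.ext h1 h2))
    rcases lt_trichotomy (e c).re 0 with h | h | h
    · constructor
      · intro _
        exact Or.inl h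
      · rintro - (h2 | ⟨h2, -⟩)
        · exact absurd h2 (not_lt.2 h.le)
        · exact absurd h2 h.ne
    · rcases lt_trichotomy (e c).im 0 with h' | h' | h'
      · constructor
        · intro _
          exact Or.inr ⟨h, h'⟩
        · rintro - (h2 | ⟨-, h2⟩)
          · exact absurd h2 (by rw [h]; exact lt_irrefl _)
          · exact absurd h2 (not_lt.2 h'.le)
      · exact absurd ⟨h, h'⟩ h1
      · constructor
        · intro h2
          exact absurd (Or.inr ⟨h, h'⟩) h2
        · rintro (h2 | ⟨-, h2⟩)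
          · exact absurd h2 (by rw [h]; exact lt_irrefl _)
          · exact absurd h2 (not_lt.2 h'.le)
    · constructor
      · intro h2
        exact absurd (Or.inl h) h2
      · rintro (h2 | ⟨h2, -⟩)
        · exact absurd h2 (not_lt.2 h.le)
        · exact absurd h2 h.ne'
  refine ⟨s.filter p, ?_, ?_⟩
  · have h1 : (s.filter fun c => ¬p c).card = (s.filter p).card := by
      refine Finset.card_bij (fun c _ => -c) ?_ ?_ ?_
      · intro c hc
        rw [Finset.mem_filter] at hc ⊢
        exact ⟨hs c hc.1, (hne c (fun h => h0 (h ▸ hc.1))).1 hc.2⟩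
      · intro a _ b _ h
        exact neg_injective h
      · intro c hc
        rw [Finset.mem_filter] at hc
        refine ⟨-c, ?_, neg_neg c⟩
        rw [Finset.mem_filter]
        refine ⟨hs c hc.1, ?_⟩
        rw [hne (-c) (fun h => h0 (neg_eq_zero.1 h ▸ hc.1)), neg_neg]
        exact hc.2
    have h2 := Finset.card_filter_add_card_filter_not (s := s) p
    omega
  · intro c hc
    by_cases h : p c
    · exact Submodule.subset_span (Finset.mem_coe.2 (Finset.mem_filter.2 ⟨hc, h⟩))
    · have h1 := (hne c (fun h' => h0 (h' ▸ hc))).1 h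
      have h2 : -c ∈ Submodule.span ℚ ((s.filter p : Finset K) : Set K) :=
        Submodule.subset_span (Finset.mem_coe.2 (Finset.mem_filter.2 ⟨hs c hc, h1⟩))
      rw [← neg_neg c]
      exact neg_mem h2

end rat

variable {Γ : Type} [Group Γ]

/-- operators which are skew with respect to a form have a symmetric set of eigenvalues -/
theorem eig_neg {V : Type} [AddCommGroup V] [Module K V] [FiniteDimensional K V]
    {B : V →ₗ[K] V →ₗ[K] K} (hnd : ∀ x, (∀ y, B x y = 0) → x = 0) {y : End K V}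
    (hy : ∀ u w, B (y u) w + B u (y w) = 0) {c : K} (h : y.HasEigenvalue c) :
    y.HasEigenvalue (-c) := by
  obtain ⟨v, hv⟩ := h.exists_hasEigenvector
  by_contra hcon
  have h1 : Function.Injective (y - (-c) • (1 : End K V)) := by
    rw [injective_iff_map_eq_zero]
    intro w hw
    by_contra hw0
    apply hcon
    refine End.hasEigenvalue_of_hasEigenvector (x := w) ⟨?_, hw0⟩
    rw [End.mem_eigenspace_iff]
    rw [LinearMap.sub_apply, LinearMap.smul_apply, End.one_apply, sub_eq_zero] at hw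
    exact hw
  have h2 : Function.Surjective (y - (-c) • (1 : End K V)) :=
    LinearMap.injective_iff_surjective.1 h1
  apply hv.2
  refine hnd v fun w => ?_
  obtain ⟨w', rfl⟩ := h2 w
  rw [LinearMap.sub_apply, LinearMap.smul_apply, End.one_apply, neg_smul, sub_neg_eq_add, map_add,
    map_smul, smul_eq_mul]
  have h3 := hy v w'
  rw [hv.apply_eq_smul, map_smul, LinearMap.smul_apply, smul_eq_mul] at h3
  linear_combination h3

/-- The representation carries a nondegenerate form which is invariant up to a character. -/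
def FormR {U : Type} [AddCommGroup U] [Module K U] (t : Γ →* Module.End K U) : Prop :=
  ∃ (μ : Γ →* Kˣ) (B : U →ₗ[K] U →ₗ[K] K), (∀ x, (∀ y, B x y = 0) → x = 0) ∧
    ∀ g x y, B (t g x) (t g y) = (μ g : K) * B x y

/-- derivations in the derived algebra are skew with respect to invariant forms -/
theorem skew_of_form {U : Type} [AddCommGroup U] [Module K U] [FiniteDimensional K U]
    {t : Γ →* Module.End K U} {μ : Γ →* Kˣ} {B : U →ₗ[K] U →ₗ[K] K}
    (hB : ∀ g x y, B (t g x) (t g y) = (μ g : K) * B x y) {D : Der K Γ} {k : ℕ}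
    (hD : InDer (k + 1) D) (x y : U) :
    B (D.Θ (full U t) x) y + B x (D.Θ (full U t) y) = 0 := by
  have h1 : ((μ 1 : Kˣ) : K) = 1 := by rw [map_one, Units.val_one]
  have h2 : ∃ Δ : Subgroup Γ, Δ.FiniteIndex ∧ ∀ g ∈ Δ, ∀ h ∈ Δ,
      ((μ (g * h) : Kˣ) : K) = (μ g : K) * (μ h : K) :=
    ⟨⊤, inferInstance, fun g _ h _ => by rw [map_mul, Units.val_mul]⟩
  have h3 := D.bil (full U t) (full U t) (lineP (fun g => ((μ g : Kˣ) : K)) h1 h2) B
    ⟨⊤, inferInstance, fun g _ x y => by
      have h4 : B (t g x) (t g y) = (μ g : K) * B x y := hB g x y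
      exact h4⟩ x y
  rw [lineP_zero hD] at h3
  exact h3

/-- **The number of the representations which do not split off.** -/
theorem rank_le [CharZero K] (e : K ≃+* ℂ) {ι : Type} {V : ι → Type} [∀ i, AddCommGroup (V i)]
    [∀ i, Module K (V i)] [∀ i, FiniteDimensional K (V i)] {r : ∀ i, Γ →* Module.End K (V i)}
    {U : Type} [AddCommGroup U] [Module K U] [FiniteDimensional K U] {t : Γ →* Module.End K U}
    {s : ∀ i, Submodule K (Module.End K (V i))} (F : Finset ι)
    (hs : ∀ i ∈ F, IsPiece (r i) {full U t} (s i)) (hne : ∀ i ∈ F, s i ≠ ⊥)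
    (hpair : ∀ i ∈ F, ∀ j ∈ F, i ≠ j → Spl (full (V i) (r i)) {full (V j) (r j)}) :
    F.card + finrank K (eigSpan t ⊤) ≤ finrank K U ∧
      (FormR t → 2 * F.card + finrank K (eigSpan t ⊤) ≤ finrank K U) := by
  classical
  have halg : IsAlgClosed K := IsAlgClosed.of_ringEquiv ℂ K e.symm
  choose k₀ hk₀ using fun i => exists_stable (full (V i) (r i)) {full U t}
  let k : ℕ := F.sup k₀ + 1
  have hk : ∀ i ∈ F, ak k (full (V i) (r i)) {full U t} = aI (full (V i) (r i)) {full U t} :=
    fun i hi => hk₀ i k ((Finset.le_sup hi).trans (Nat.le_succ _))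
  have hlift : ∀ i : F, ∀ x ∈ core (full (V i.1) (r i.1)), ∃ D : Der K Γ, InDer k D ∧
      (∀ j : F, j ≠ i → D.Θ (full (V j.1) (r j.1)) = 0) ∧ D.Θ (full (V i.1) (r i.1)) = x := by
    intro i x hx
    have h1 := Spl.iUnion (M := full (V i.1) (r i.1)) (F.erase i.1)
      (fun j => {full (V j) (r j)}) (fun j hj =>
        hpair i.1 i.2 j (Finset.mem_of_mem_erase hj) (Finset.ne_of_mem_erase hj).symm)
    obtain ⟨D, hD, h2, h3⟩ := mem_aI.1 (h1 hx) k
    refine ⟨D, hD, fun j hj => h2 _ ?_, h3⟩
    rw [Set.mem_iUnion₂]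
    exact ⟨j.1, Finset.mem_erase.2 ⟨fun h => hj (Subtype.ext h), j.2⟩, rfl⟩
  have hx : ∀ i : F, ∃ x ∈ s i.1, ∃ w ∈ s i.1, w ≠ 0 ∧ ∃ c : K, c ≠ 0 ∧
      x * w - w * x = c • w := fun i =>
    exists_ad_eig (hne i.1 i.2) (fun x hx y hy => (hs i.1 i.2).br x ((hs i.1 i.2).le hx) y hy)
      (hs i.1 i.2).perf
  choose x hx w hw hw0 c hc0 hxw using hx
  obtain ⟨τ, hτ⟩ := exists_indep e F
  choose D hD hD0 hDx using fun i : F => hlift i (x i) ((hs i.1 i.2).le (hx i))
  obtain ⟨E, hE, hEs⟩ := InDer.sum Finset.univ (fun i : F => (τ i * (c i)⁻¹) • D i)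
    (fun i _ => (hD i).smul _)
  have hEi : ∀ i : F, E.Θ (full (V i.1) (r i.1)) = (τ i * (c i)⁻¹) • x i := by
    intro i
    rw [hEs, Finset.sum_eq_single i, smul_Θ, hDx]
    · intro j _ hj
      rw [smul_Θ, hD0 j i hj.symm, smul_zero]
    · intro h
      exact absurd (Finset.mem_univ i) h
  set y : End K U := E.Θ (full U t) with hy
  have hker : finrank K (eigSpan t ⊤) ≤ finrank K (LinearMap.ker y) := by
    refine Submodule.finrank_mono (Submodule.span_le.2 fun v hv => ?_)
    have h1 : InDer (F.sup k₀ + 1) E := hE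
    exact LinearMap.mem_ker.2 (h1.kill hv.2)
  -- the eigenvalues
  have hX : ∀ i : F, ∃ X : End K U, X ≠ 0 ∧ y * X - X * y = τ i • X := by
    intro i
    by_contra hcon
    push Not at hcon
    let A : End K (End K U) := LinearMap.mulLeft K y - LinearMap.mulRight K y - τ i • 1
    have hA : ∀ X, A X = y * X - X * y - τ i • X := fun X => rfl
    have hinj : Function.Injective A := by
      rw [injective_iff_map_eq_zero]
      intro X hX
      by_contra h0
      exact hcon X h0 (sub_eq_zero.1 hX)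
    let M₀ : Submodule K (End K U) :=
      { carrier := {z | ∃ D' : Der K Γ, InDer k D' ∧ D'.Θ (full U t) = z ∧
          D'.Θ (full (V i.1) (r i.1)) ∈ aI (full (V i.1) (r i.1)) {full U t}}
        add_mem' := by
          rintro a b ⟨D₁, h1, h2, h3⟩ ⟨D₂, h1', h2', h3'⟩
          exact ⟨D₁ + D₂, h1.add' h1', by rw [add_Θ, h2, h2'], add_mem h3 h3'⟩
        zero_mem' := ⟨0, InDer.zero' _, rfl, zero_mem _⟩
        smul_mem' := by
          rintro a b ⟨D₁, h1, h2, h3⟩
          exact ⟨a • D₁, h1.smul a, by rw [smul_Θ, h2], Submodule.smul_mem _ a h3⟩ }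
    have hEcore : E.Θ (full (V i.1) (r i.1)) ∈ core (full (V i.1) (r i.1)) := by
      rw [hEi]
      exact Submodule.smul_mem _ _ ((hs i.1 i.2).le (hx i))
    have hA0 : ∀ z ∈ M₀, A z ∈ M₀ := by
      rintro z ⟨D', h1, h2, h3⟩
      refine ⟨E.br D' + (-(τ i)) • D', ((InDer.br k _ _ hE h1).mono).add' (h1.smul _), ?_, ?_⟩
      · rw [add_Θ, smul_Θ, br_Θ, h2, hA, neg_smul, ← sub_eq_add_neg]
      · rw [add_Θ, smul_Θ, br_Θ]
        exact add_mem (core_br hEcore h3) (Submodule.smul_mem _ _ h3)
    have hsurj : Function.Surjective (A.restrict hA0) := by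
      refine LinearMap.injective_iff_surjective.1 ?_
      intro a b hab
      exact Subtype.ext (hinj (congrArg Subtype.val hab))
    obtain ⟨D', hD', -, hD'w⟩ := hlift i (w i) ((hs i.1 i.2).le (hw i))
    have h1 : A (D'.Θ (full U t)) ∈ M₀ := by
      refine ⟨E.br D' + (-(τ i)) • D', ((InDer.br k _ _ hE hD').mono).add' (hD'.smul _), ?_, ?_⟩
      · rw [add_Θ, smul_Θ, br_Θ, hA, neg_smul, ← sub_eq_add_neg]
      · rw [add_Θ, smul_Θ, br_Θ, hD'w, hEi, smul_mul_assoc, mul_smul_comm, ← smul_sub, hxw,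
          smul_smul, mul_assoc, inv_mul_cancel₀ (hc0 i), mul_one, neg_smul, add_neg_cancel]
        exact zero_mem _
    obtain ⟨⟨m, D'', hD'', h2, h3⟩, hm⟩ := hsurj ⟨_, h1⟩
    have h4 : m = D'.Θ (full U t) := hinj (congrArg Subtype.val hm)
    have h5 : w i - D''.Θ (full (V i.1) (r i.1)) ∈ aI (full (V i.1) (r i.1)) {full U t} := by
      rw [← hk i.1 i.2]
      refine ⟨D' + (-1 : K) • D'', hD'.add' (hD''.smul _), ?_, ?_⟩
      · intro N hN
        rw [Set.mem_singleton_iff.1 hN, add_Θ, smul_Θ, h2, h4, neg_one_smul, add_neg_cancel]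
      · rw [add_Θ, smul_Θ, hD'w, neg_one_smul, sub_eq_add_neg]
    have h6 : w i ∈ aI (full (V i.1) (r i.1)) {full U t} := by
      have h7 := add_mem h5 h3
      rwa [sub_add_cancel] at h7
    exact hw0 i (Submodule.disjoint_def.1 (hs i.1 i.2).disj _ (hw i) h6)
  have hμ : ∀ i : F, ∃ μ, y.HasEigenvalue μ ∧ y.HasEigenvalue (μ + τ i) := by
    intro i
    obtain ⟨X, h0, h1⟩ := hX i
    exact eig_diff h1 h0
  let Λ : Finset K := y.charpoly.roots.toFinset.erase 0
  have hΛ : ∀ c, c ∈ Λ ↔ c ≠ 0 ∧ y.HasEigenvalue c := by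
    intro c
    rw [Finset.mem_erase, Multiset.mem_toFinset, Polynomial.mem_roots (LinearMap.charpoly_monic y).ne_zero,
      End.hasEigenvalue_iff_isRoot_charpoly]
  have hcard := card_add_ker_le y Λ fun c hc => (hΛ c).1 hc
  have hspan : ∀ c, y.HasEigenvalue c → c ∈ Submodule.span ℚ (Λ : Set K) := by
    intro c hc
    rcases eq_or_ne c 0 with rfl | h0
    · exact zero_mem _
    · exact Submodule.subset_span (Finset.mem_coe.2 ((hΛ c).2 ⟨h0, hc⟩))
  have hτs : ∀ i, τ i ∈ Submodule.span ℚ (Λ : Set K) := by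
    intro i
    obtain ⟨μ, h1, h2⟩ := hμ i
    have h3 := sub_mem (hspan _ h2) (hspan _ h1)
    rwa [add_sub_cancel_left] at h3
  refine ⟨?_, ?_⟩
  · have h1 := card_le_of_span hτ Λ hτs
    omega
  · rintro ⟨μ, B, hnd, hB⟩
    have h1 : InDer (F.sup k₀ + 1) E := hE
    obtain ⟨t', ht, hts⟩ := exists_half e Λ (fun h => ((hΛ 0).1 h).1 rfl) (by
      intro c hc
      rw [hΛ] at hc ⊢
      exact ⟨neg_ne_zero.2 hc.1, eig_neg hnd (fun u w => skew_of_form hB h1 u w) hc.2⟩)
    have h2 := card_le_of_span hτ t' fun i =>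
      (Submodule.span_le.2 fun c hc => hts c (Finset.mem_coe.1 hc)) (hτs i)
    omega

end

end Pool.Agent.N179.GR
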