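import Pool.Agent.N179.GR.Act

/-!
# Conjugation, and the representation on the operators
-/

set_option autoImplicit false
set_option linter.unusedSectionVars false

namespace Pool.Agent.N179.GR

noncomputable section

variable {K : Type} [Field K] {Γ : Type} [Group Γ]

/-- `g ↦ γ⁻¹ g γ` -/
def cjHom (γ : Γ) : Γ →* Γ := (MulAut.conj γ⁻¹).toMonoidHom

theorem cjHom_apply (γ g : Γ) : cjHom γ g = γ⁻¹ * g * γ := by
  simp [cjHom]

theorem comap_fin (γ : Γ) {Δ : Subgroup Γ} (h : Δ.FiniteIndex) :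
    (Δ.comap (cjHom γ)).FiniteIndex := by
  refine ⟨?_⟩
  unfold cjHom
  rw [Subgroup.index_comap_of_surjective _ (MulAut.conj γ⁻¹).surjective]
  exact h.index_ne_zero

/-- the conjugate representation -/
abbrev PRep.cjP (M : PRep K Γ) (γ : Γ) : PRep K Γ where
  V := M.V
  ρ g := M.ρ (cjHom γ g)
  one := by rw [map_one, M.one]
  mul := by
    obtain ⟨Δ, hΔ, h⟩ := M.mul
    exact ⟨Δ.comap (cjHom γ), comap_fin γ hΔ, fun g hg g' hg' => by
      rw [map_mul]
      exact h _ hg _ hg'⟩

/-- the conjugate derivation -/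
def Der.conj (D : Der K Γ) (γ : Γ) : Der K Γ where
  Θ M := D.Θ (M.cjP γ)
  lin M M' f hf v := by
    obtain ⟨Δ, hΔ, h⟩ := hf
    exact D.lin (M.cjP γ) (M'.cjP γ) f ⟨Δ.comap (cjHom γ), comap_fin γ hΔ,
      fun g hg v => h _ hg v⟩ v
  bil M₁ M₂ M' f hf x y := by
    obtain ⟨Δ, hΔ, h⟩ := hf
    exact D.bil (M₁.cjP γ) (M₂.cjP γ) (M'.cjP γ) f ⟨Δ.comap (cjHom γ), comap_fin γ hΔ,
      fun g hg x y => h _ hg x y⟩ x y

theorem conj_Θ (D : Der K Γ) (γ : Γ) (M : PRep K Γ) : (D.conj γ).Θ M = D.Θ (M.cjP γ) := rfl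

theorem InDer.conj {k : ℕ} {D : Der K Γ} (h : InDer k D) (γ : Γ) : InDer k (D.conj γ) := by
  induction h with
  | base D => exact InDer.base _
  | zero k =>
    have h1 : (0 : Der K Γ).conj γ = 0 := Der.ext' fun M => rfl
    rw [h1]
    exact InDer.zero k
  | add k D D' _ _ h1 h2 =>
    have h3 : (D + D').conj γ = D.conj γ + D'.conj γ := Der.ext' fun M => rfl
    rw [h3]
    exact InDer.add k _ _ h1 h2
  | br k D D' _ _ h1 h2 =>
    have h3 : (D.br D').conj γ = (D.conj γ).br (D'.conj γ) := Der.ext' fun M => rfl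
    rw [h3]
    exact InDer.br k _ _ h1 h2

/-- a representation of the whole group -/
def IsFull (M : PRep K Γ) : Prop := ∀ g h, M.ρ (g * h) = M.ρ g * M.ρ h

theorem IsFull.inv_l {M : PRep K Γ} (h : IsFull M) (g : Γ) : M.ρ g⁻¹ * M.ρ g = 1 := by
  rw [← h, inv_mul_cancel, M.one]

theorem IsFull.inv_r {M : PRep K Γ} (h : IsFull M) (g : Γ) : M.ρ g * M.ρ g⁻¹ = 1 := by
  rw [← h, mul_inv_cancel, M.one]

theorem isFull_full {V : Type} [AddCommGroup V] [Module K V] [FiniteDimensional K V]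
    (r : Γ →* Module.End K V) : IsFull (full V r) := fun g h => map_mul r g h

theorem conj_full (D : Der K Γ) (γ : Γ) {M : PRep K Γ} (hM : IsFull M) :
    (D.conj γ).Θ M = M.ρ γ⁻¹ * D.Θ M * M.ρ γ := by
  rw [conj_Θ]
  have h1 := D.lin (M.cjP γ) M (M.ρ γ) ⟨⊤, inferInstance, fun g _ v => by
    have h2 : M.ρ γ * M.ρ (cjHom γ g) = M.ρ g * M.ρ γ := by
      rw [← hM, ← hM, cjHom_apply]
      congr 1
      group
    exact LinearMap.congr_fun h2 v⟩
  refine LinearMap.ext fun v => ?_
  have h2 := congrArg (M.ρ γ⁻¹) (h1 v)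
  have h3 : ∀ w, M.ρ γ⁻¹ (M.ρ γ w) = w := fun w => LinearMap.congr_fun (hM.inv_l γ) w
  rw [h3] at h2
  exact h2

section

variable {V : Type} [AddCommGroup V] [Module K V] [FiniteDimensional K V]

/-- the representation on the operators -/
def cj (r : Γ →* Module.End K V) : Γ →* Module.End K (Module.End K V) where
  toFun g :=
    { toFun := fun x => r g * x * r g⁻¹
      map_add' := fun x y => by rw [mul_add, add_mul]
      map_smul' := fun c x => by rw [mul_smul_comm, smul_mul_assoc, RingHom.id_apply] }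
  map_one' := by
    refine LinearMap.ext fun x => ?_
    change r 1 * x * r 1⁻¹ = x
    rw [inv_one, map_one, one_mul, mul_one]
  map_mul' g h := by
    refine LinearMap.ext fun x => ?_
    change r (g * h) * x * r (g * h)⁻¹ = r g * (r h * x * r h⁻¹) * r g⁻¹
    rw [mul_inv_rev, map_mul, map_mul]
    simp only [mul_assoc]

theorem cj_apply (r : Γ →* Module.End K V) (g : Γ) (x : Module.End K V) :
    cj r g x = r g * x * r g⁻¹ := rfl

/-- derivations act on the operators by commutators -/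
theorem cj_Θ (D : Der K Γ) (r : Γ →* Module.End K V) (x : Module.End K V) :
    D.Θ (full (Module.End K V) (cj r)) x = D.Θ (full V r) * x - x * D.Θ (full V r) := by
  have h1 := D.bil (full (Module.End K V) (cj r)) (full V r) (full V r)
    (LinearMap.id : Module.End K V →ₗ[K] (V →ₗ[K] V)) ⟨⊤, inferInstance, fun g _ x v => by
      change (cj r g x) (r g v) = r g (x v)
      rw [cj_apply, Module.End.mul_apply, Module.End.mul_apply, ← Module.End.mul_apply (r g⁻¹),
        ← map_mul, inv_mul_cancel, map_one]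
      rfl⟩ x
  refine LinearMap.ext fun v => ?_
  have h2 : (D.Θ (full (Module.End K V) (cj r)) x : Module.End K V) v + x (D.Θ (full V r) v) =
    D.Θ (full V r) (x v) := h1 v
  rw [LinearMap.sub_apply, Module.End.mul_apply, Module.End.mul_apply, ← h2, add_sub_cancel_right]

/-- the derived algebra commutes with the operators which span stable lines -/
theorem InDer.comm {D : Der K Γ} {k : ℕ} (hD : InDer (k + 1) D) {r : Γ →* Module.End K V}
    {x : Module.End K V} (hx : (full (Module.End K V) (cj r)).Eig x) :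
    D.Θ (full V r) * x - x * D.Θ (full V r) = 0 := by
  rw [← cj_Θ]
  exact hD.kill hx

theorem InDer.comm_span {D : Der K Γ} {k : ℕ} (hD : InDer (k + 1) D) {r : Γ →* Module.End K V}
    {x : Module.End K V}
    (hx : x ∈ Submodule.span K {x | (full (Module.End K V) (cj r)).Eig x}) :
    D.Θ (full V r) * x - x * D.Θ (full V r) = 0 := by
  induction hx using Submodule.span_induction with
  | mem x hx => exact hD.comm hx
  | zero => rw [mul_zero, zero_mul, sub_zero]
  | add x y _ _ hx hy =>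
    rw [mul_add, add_mul, add_sub_add_comm, hx, hy, add_zero]
  | smul a x _ hx => rw [mul_smul_comm, smul_mul_assoc, ← smul_sub, hx, smul_zero]

/-- the spaces `ak` are stable under conjugation -/
theorem ak_stab (r : Γ →* Module.End K V) {T : Set (PRep K Γ)} (hT : ∀ N ∈ T, IsFull N) (k : ℕ) :
    Stab (cj r) (ak k (full V r) T) := by
  rintro g x ⟨D, hD, h1, rfl⟩
  refine ⟨D.conj g⁻¹, hD.conj _, fun N hN => ?_, ?_⟩
  · rw [conj_full D g⁻¹ (hT N hN), h1 N hN, mul_zero, zero_mul]
  · rw [conj_full D g⁻¹ (isFull_full r), inv_inv]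
    rfl

theorem aI_stab (r : Γ →* Module.End K V) {T : Set (PRep K Γ)} (hT : ∀ N ∈ T, IsFull N) :
    Stab (cj r) (aI (full V r) T) := by
  intro g x hx
  unfold aI at hx ⊢
  rw [Submodule.mem_iInf] at hx ⊢
  exact fun k => ak_stab r hT k g x (hx k)

theorem core_stab (r : Γ →* Module.End K V) : Stab (cj r) (core (full V r)) :=
  aI_stab r (by simp)

/-- stable subspaces of the space of operators are stable under commutators -/
theorem br_mem {r : Γ →* Module.End K V} {A : Submodule K (Module.End K V)} (hA : Stab (cj r) A)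
    (D : Der K Γ) {x : Module.End K V} (hx : x ∈ A) :
    D.Θ (full V r) * x - x * D.Θ (full V r) ∈ A := by
  have h1 := Θ_mem D (r := cj r) hA hx
  rwa [cj_Θ] at h1

end

/-- elements of the core lift to pairs -/
theorem lift_pair (M N : PRep K Γ) {x : Module.End K M.V} (hx : x ∈ core M) :
    ∃ y : Module.End K N.V, ∀ k, ∃ D : Der K Γ, InDer k D ∧ D.Θ M = x ∧ D.Θ N = y := by
  obtain ⟨k₀, hk₀⟩ := exists_stable N {M}
  obtain ⟨D₀, hD₀, h0⟩ := mem_core.1 hx k₀
  refine ⟨D₀.Θ N, fun k => ?_⟩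
  rcases le_total k k₀ with h | h
  · exact ⟨D₀, hD₀.mono' h, h0, rfl⟩
  · obtain ⟨D, hD, h1⟩ := mem_core.1 hx k
    have h2 : D₀.Θ N - D.Θ N ∈ ak k₀ N {M} := by
      refine ⟨D₀ + (-1 : K) • D, hD₀.add' ((hD.mono' h).smul _), fun N' hN' => ?_, ?_⟩
      · rw [Set.mem_singleton_iff.1 hN', add_Θ, smul_Θ, h0, h1, neg_one_smul, add_neg_cancel]
      · rw [add_Θ, smul_Θ, neg_one_smul, sub_eq_add_neg]
    rw [hk₀ k₀ le_rfl, ← hk₀ k h] at h2
    obtain ⟨D', hD', h3, h4⟩ := h2
    refine ⟨D + D', hD.add' hD', ?_, ?_⟩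
    · rw [add_Θ, h1, h3 M rfl, add_zero]
    · rw [add_Θ, h4, add_sub_cancel]

end

end Pool.Agent.N179.GR
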