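import Pool.Agent.N179.GR.Gour

/-!
# Representations which do not split off
-/

set_option autoImplicit false
set_option linter.unusedSectionVars false

namespace Pool.Agent.N179.GR

open Module

noncomputable section

variable {K : Type} [Field K] {Γ : Type} [Group Γ]

/-- perfect nonzero spaces of operators have dimension at least `3` -/
theorem three_le {V : Type} [AddCommGroup V] [Module K V] [FiniteDimensional K V]
    {s : Submodule K (Module.End K V)} (h0 : s ≠ ⊥)
    (h : s ≤ Submodule.span K {x | ∃ y ∈ s, ∃ z ∈ s, x = y * z - z * y}) :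
    3 ≤ finrank K s := by
  -- dimension at most one is impossible
  have key : ¬finrank K s ≤ 1 := by
    intro h1
    obtain ⟨u, hu⟩ := (finrank_le_one_iff (K := K) (V := s)).1 h1
    apply h0
    rw [eq_bot_iff]
    refine h.trans (Submodule.span_le.2 ?_)
    rintro x ⟨y, hy, z, hz, rfl⟩
    obtain ⟨c, hc⟩ := hu ⟨y, hy⟩
    obtain ⟨d, hd⟩ := hu ⟨z, hz⟩
    have hc' : c • (u : Module.End K V) = y := congrArg Subtype.val hc
    have hd' : d • (u : Module.End K V) = z := congrArg Subtype.val hd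
    rw [SetLike.mem_coe, Submodule.mem_bot, ← hc', ← hd', smul_mul_smul_comm, smul_mul_smul_comm,
      mul_comm c d, sub_self]
  by_contra hcon
  have h2 : finrank K s = 2 := by omega
  let b := Module.finBasisOfFinrankEq K s h2
  apply key
  have hle : s ≤ Submodule.span K {(b 0 : Module.End K V) * b 1 - b 1 * b 0} := by
    refine h.trans (Submodule.span_le.2 ?_)
    rintro x ⟨y, hy, z, hz, rfl⟩
    have hy' : y = b.repr ⟨y, hy⟩ 0 • (b 0 : Module.End K V) + b.repr ⟨y, hy⟩ 1 • (b 1) := by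
      have h3 := b.sum_repr ⟨y, hy⟩
      rw [Fin.sum_univ_two] at h3
      exact (congrArg Subtype.val h3).symm
    have hz' : z = b.repr ⟨z, hz⟩ 0 • (b 0 : Module.End K V) + b.repr ⟨z, hz⟩ 1 • (b 1) := by
      have h3 := b.sum_repr ⟨z, hz⟩
      rw [Fin.sum_univ_two] at h3
      exact (congrArg Subtype.val h3).symm
    generalize b.repr ⟨y, hy⟩ 0 = c₀ at hy'
    generalize b.repr ⟨y, hy⟩ 1 = c₁ at hy'
    generalize b.repr ⟨z, hz⟩ 0 = d₀ at hz'
    generalize b.repr ⟨z, hz⟩ 1 = d₁ at hz'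
    rw [SetLike.mem_coe, Submodule.mem_span_singleton]
    refine ⟨c₀ * d₁ - c₁ * d₀, ?_⟩
    rw [hy', hz']
    simp only [add_mul, mul_add, smul_mul_smul_comm, smul_sub, sub_smul]
    rw [mul_comm d₀ c₀, mul_comm d₁ c₁, mul_comm d₁ c₀, mul_comm d₀ c₁]
    abel
  calc finrank K s ≤ finrank K (Submodule.span K {(b 0 : Module.End K V) * b 1 - b 1 * b 0}) :=
        Submodule.finrank_mono hle
    _ ≤ 1 := (finrank_span_le_card _).trans (by simp)

theorem neg_br_mem {V : Type} [AddCommGroup V] [Module K V] {A : Submodule K (Module.End K V)}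
    {x y : Module.End K V} (h : x * y - y * x ∈ A) : y * x - x * y ∈ A := by
  have h1 := A.neg_mem h
  rwa [neg_sub] at h1

section piece

variable {V : Type} [AddCommGroup V] [Module K V] [FiniteDimensional K V]

/-- The properties of the part of the core which does not split off. -/
structure IsPiece (r : Γ →* Module.End K V) (T : Set (PRep K Γ))
    (s : Submodule K (Module.End K V)) : Prop where
  stab : Stab (cj r) s
  le : s ≤ core (full V r)
  disj : Disjoint s (aI (full V r) T)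
  sup : core (full V r) ≤ s ⊔ aI (full V r) T
  br : ∀ x ∈ core (full V r), ∀ y ∈ s, x * y - y * x ∈ s
  perf : s ≤ Submodule.span K {x | ∃ y ∈ s, ∃ z ∈ s, x = y * z - z * y}
  eig : ∀ x ∈ s, (full (Module.End K V) (cj r)).Eig x → x = 0

theorem exists_piece {r : Γ →* Module.End K V} (hr : SemiS (cj r)) {T : Set (PRep K Γ)}
    (hT : ∀ N ∈ T, IsFull N) : ∃ s, IsPiece r T s := by
  obtain ⟨q, hq1, hq2, hq3⟩ := hr.exists_proj (aI_stab r hT)
  let s : Submodule K (Module.End K V) := core (full V r) ⊓ LinearMap.ker q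
  have hcore : ∀ x ∈ core (full V r), x - q x ∈ s := fun x hx =>
    ⟨sub_mem hx (aI_le_core _ _ (hq2 x)), LinearMap.mem_ker.2 (by
      rw [map_sub, hq1 _ (hq2 x), sub_self])⟩
  have hstab : Stab (cj r) s := fun g x hx => ⟨core_stab r g x hx.1, LinearMap.mem_ker.2 (by
    rw [hq3, LinearMap.mem_ker.1 hx.2, map_zero])⟩
  have hbr : ∀ x ∈ core (full V r), ∀ y ∈ s, x * y - y * x ∈ s := by
    intro x hx y hy
    obtain ⟨D, hD, rfl⟩ := mem_core.1 hx 0
    exact br_mem hstab D hy
  have hdisj : Disjoint s (aI (full V r) T) := by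
    rw [Submodule.disjoint_def]
    intro x hx hx'
    rw [← hq1 x hx']
    exact LinearMap.mem_ker.1 hx.2
  have hperf : s ≤ Submodule.span K {x | ∃ y ∈ s, ∃ z ∈ s, x = y * z - z * y} := by
    intro x hx
    have h1 : ∀ x ∈ Submodule.span K {x | ∃ y ∈ core (full V r), ∃ z ∈ core (full V r),
        x = y * z - z * y}, x - q x ∈ Submodule.span K {x | ∃ y ∈ s, ∃ z ∈ s,
          x = y * z - z * y} := by
      intro x hx
      induction hx using Submodule.span_induction with
      | mem x hx =>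
        obtain ⟨y, hy, z, hz, rfl⟩ := hx
        have h2 : (y - q y) * (z - q z) - (z - q z) * (y - q y) =
            (y * z - z * y) - q (y * z - z * y) := by
          have h3 : (y * z - z * y) - ((y - q y) * (z - q z) - (z - q z) * (y - q y)) ∈
              aI (full V r) T := by
            have e1 : (y * z - z * y) - ((y - q y) * (z - q z) - (z - q z) * (y - q y)) =
                (y * q z - q z * y) - (z * q y - q y * z) - (q y * q z - q z * q y) := by
              noncomm_ring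
            rw [e1]
            exact sub_mem (sub_mem (core_br hy (hq2 z)) (core_br hz (hq2 y)))
              (core_br (aI_le_core _ _ (hq2 y)) (hq2 z))
          have h4 : (y - q y) * (z - q z) - (z - q z) * (y - q y) ∈ s :=
            hbr _ (hcore y hy).1 _ (hcore z hz)
          have h5 := hq1 _ h3
          rw [map_sub q (y * z - z * y), LinearMap.mem_ker.1 h4.2, sub_zero] at h5
          rw [h5]
          abel
        rw [← h2]
        exact Submodule.subset_span ⟨_, hcore y hy, _, hcore z hz, rfl⟩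
      | zero => rw [map_zero, sub_zero]; exact zero_mem _
      | add x y _ _ hx hy =>
        have h2 := add_mem hx hy
        rwa [← add_sub_add_comm, ← map_add] at h2
      | smul a x _ hx =>
        have h2 := Submodule.smul_mem _ a hx
        rwa [smul_sub, ← map_smul] at h2
    have h2 := h1 x (core_perfect _ hx.1)
    rwa [LinearMap.mem_ker.1 hx.2, sub_zero] at h2
  refine ⟨s, hstab, inf_le_left, hdisj, ?_, hbr, hperf, ?_⟩
  · intro x hx
    have h1 := Submodule.add_mem_sup (hcore x hx) (hq2 x)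
    rwa [sub_add_cancel] at h1
  · -- the span of the eigenvectors in `s` is zero
    obtain ⟨π, hπ1, hπ2, hπ3⟩ := hr.exists_proj (eigSpan_stab hstab)
    have hle : eigSpan (cj r) s ≤ s := Submodule.span_le.2 fun x hx => hx.1
    have hcomm : ∀ x ∈ core (full V r), ∀ y ∈ eigSpan (cj r) s, x * y - y * x = 0 := by
      intro x hx y hy
      obtain ⟨D, hD, rfl⟩ := mem_core.1 hx 1
      exact hD.comm_span (Submodule.span_mono (fun z hz => hz.2) hy)
    let s' : Submodule K (Module.End K V) := s ⊓ LinearMap.ker π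
    have hstab' : Stab (cj r) s' := fun g x hx => ⟨hstab g x hx.1, LinearMap.mem_ker.2 (by
      rw [hπ3, LinearMap.mem_ker.1 hx.2, map_zero])⟩
    have hs' : ∀ x ∈ s, x - π x ∈ s' := fun x hx => ⟨sub_mem hx (hle (hπ2 x)), LinearMap.mem_ker.2 (by
      rw [map_sub, hπ1 _ (hπ2 x), sub_self])⟩
    have hss' : s ≤ s' := by
      refine hperf.trans (Submodule.span_le.2 ?_)
      rintro x ⟨y, hy, z, hz, rfl⟩
      have e1 : y * z - z * y = ((y - π y) * (z - π z) - (z - π z) * (y - π y)) +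
          (y * π z - π z * y) - (z * π y - π y * z) - (π y * π z - π z * π y) := by
        noncomm_ring
      rw [SetLike.mem_coe, e1, hcomm _ hy.1 _ (hπ2 z), hcomm _ hz.1 _ (hπ2 y),
        hcomm _ (hle (hπ2 y)).1 _ (hπ2 z), add_zero, sub_zero, sub_zero]
      obtain ⟨D, hD, h1⟩ := mem_core.1 (hs' y hy).1.1 0
      rw [← h1]
      exact br_mem hstab' D (hs' z hz)
    intro x hx hxe
    have h1 : x ∈ eigSpan (cj r) s := Submodule.subset_span ⟨hx, hxe⟩
    rw [← hπ1 x h1]
    exact LinearMap.mem_ker.1 (hss' hx).2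

theorem IsPiece.ne_bot {r : Γ →* Module.End K V} {T : Set (PRep K Γ)}
    {s : Submodule K (Module.End K V)} (h : IsPiece r T s) (hn : ¬Spl (full V r) T) : s ≠ ⊥ := by
  rintro rfl
  apply hn
  have h1 := h.sup
  rwa [bot_sup_eq] at h1

theorem IsPiece.three_le {r : Γ →* Module.End K V} {T : Set (PRep K Γ)}
    {s : Submodule K (Module.End K V)} (h : IsPiece r T s) (hn : ¬Spl (full V r) T) :
    3 ≤ finrank K s :=
  GR.three_le (h.ne_bot hn) h.perf

/-- **The piece is a quotient of a Lie algebra which acts on the other representation.** -/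
theorem IsPiece.exists_quot {r : Γ →* Module.End K V} {W : Type} [AddCommGroup W] [Module K W]
    [FiniteDimensional K W] {t : Γ →* Module.End K W} {s : Submodule K (Module.End K V)}
    (h : IsPiece r {full W t} s) :
    ∃ (A : Submodule K (Module.End K W)) (Φ : Module.End K W →ₗ[K] Module.End K V),
      (∀ g, ∀ x ∈ A, cj t g x ∈ A ∧ Φ (cj t g x) = cj r g (Φ x)) ∧
      (∀ x ∈ A, ∀ y ∈ A, x * y - y * x ∈ A ∧ Φ (x * y - y * x) = Φ x * Φ y - Φ y * Φ x) ∧
      ∀ x, (∃ y ∈ A, Φ y = x) ↔ x ∈ s := by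
  -- a projector onto `aI` which vanishes on `s`
  obtain ⟨B, hsB, hB⟩ := Submodule.exists_isCompl (s ⊔ aI (full V r) {full W t}) |>.imp
    fun B hB => hB.disjoint |> fun _ => (⟨True.intro, hB⟩ : True ∧ IsCompl _ B)
  clear hsB
  have hc : IsCompl (aI (full V r) {full W t}) (s ⊔ B) := by
    refine ⟨?_, ?_⟩
    · rw [Submodule.disjoint_def]
      intro x hx hx'
      obtain ⟨y, hy, z, hz, rfl⟩ := Submodule.mem_sup.1 hx'
      have h1 : z ∈ s ⊔ aI (full V r) {full W t} := by
        have h2 : z = -y + (y + z) := by abel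
        rw [h2]
        exact Submodule.add_mem_sup (neg_mem hy) hx
      have h2 := Submodule.disjoint_def.1 hB.disjoint z h1 hz
      rw [h2, add_zero] at hx ⊢
      exact Submodule.disjoint_def.1 h.disj y hy hx
    · rw [codisjoint_iff, ← sup_assoc, sup_comm (aI (full V r) {full W t}) s]
      exact hB.sup_eq_top
  let q : Module.End K V →ₗ[K] Module.End K V :=
    (aI (full V r) {full W t}).subtype ∘ₗ Submodule.projectionOnto _ _ hc
  have hq1 : ∀ x ∈ aI (full V r) {full W t}, q x = x := fun x hx =>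
    congrArg Subtype.val (Submodule.projectionOnto_apply_left hc ⟨x, hx⟩)
  have hq2 : ∀ x, q x ∈ aI (full V r) {full W t} := fun x => SetLike.coe_mem _
  have hqs : ∀ x ∈ s, q x = 0 := by
    intro x hx
    change (aI (full V r) {full W t}).subtype (Submodule.projectionOnto _ _ hc x) = 0
    rw [Submodule.projectionOnto_apply_of_mem_right hc (Submodule.mem_sup_left hx), map_zero]
  have hcore : ∀ x ∈ core (full V r), x - q x ∈ s := by
    intro x hx
    obtain ⟨y, hy, z, hz, rfl⟩ := Submodule.mem_sup.1 (h.sup hx)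
    rw [map_add, hqs y hy, hq1 z hz, zero_add, add_sub_cancel_right]
    exact hy
  let f : pairs (full W t) (full V r) →ₗ[K] Module.End K W :=
    LinearMap.fst K _ _ ∘ₗ (pairs (full W t) (full V r)).subtype
  let g : pairs (full W t) (full V r) →ₗ[K] Module.End K V :=
    (LinearMap.id - q) ∘ₗ LinearMap.snd K _ _ ∘ₗ (pairs (full W t) (full V r)).subtype
  obtain ⟨Φ, hΦ⟩ := exists_factor f g (by
    rintro ⟨⟨x, y⟩, hxy⟩ h0
    obtain rfl : x = 0 := h0
    change y - q y = 0
    rw [hq1 y, sub_self]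
    rw [mem_aI]
    intro k
    obtain ⟨D, hD, h1, h2⟩ := hxy k
    exact ⟨D, hD, fun N hN => by rw [Set.mem_singleton_iff.1 hN]; exact h1, h2⟩)
  have hΦ' : ∀ x y, (x, y) ∈ pairs (full W t) (full V r) → Φ x = y - q y :=
    fun x y hxy => hΦ ⟨(x, y), hxy⟩
  have hpc : ∀ x y, (x, y) ∈ pairs (full W t) (full V r) → y ∈ core (full V r) := by
    intro x y hxy
    rw [mem_core]
    intro k
    obtain ⟨D, hD, h1, h2⟩ := hxy k
    exact ⟨D, hD, h2⟩
  refine ⟨LinearMap.range f, Φ, ?_, ?_, ?_⟩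
  · rintro γ _ ⟨⟨⟨x, y⟩, hxy⟩, rfl⟩
    have h1 : (cj t γ x, cj r γ y) ∈ pairs (full W t) (full V r) := by
      intro k
      obtain ⟨D, hD, h1, h2⟩ := hxy k
      refine ⟨D.conj γ⁻¹, hD.conj _, ?_, ?_⟩
      · rw [conj_full D γ⁻¹ (isFull_full t), inv_inv, h1]
        rfl
      · rw [conj_full D γ⁻¹ (isFull_full r), inv_inv, h2]
        rfl
    refine ⟨⟨⟨_, h1⟩, rfl⟩, ?_⟩
    change Φ (cj t γ x) = cj r γ (Φ x)
    rw [hΦ' _ _ h1, hΦ' _ _ hxy, map_sub]
    have h2 : cj r γ y - q (cj r γ y) ∈ s := hcore _ (core_stab r γ y (hpc x y hxy))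
    have h3 : cj r γ y - cj r γ (q y) ∈ s := by
      rw [← map_sub]
      exact h.stab γ _ (hcore y (hpc x y hxy))
    have h4 : cj r γ (q y) ∈ aI (full V r) {full W t} :=
      aI_stab r (by rintro N rfl; exact isFull_full t) γ _ (hq2 y)
    have h5 : q (cj r γ y) = cj r γ (q y) := by
      have h6 := hqs _ h3
      rw [map_sub q, hq1 _ h4, sub_eq_zero] at h6
      exact h6
    rw [h5]
  · rintro _ ⟨⟨⟨x, y⟩, hxy⟩, rfl⟩ _ ⟨⟨⟨x', y'⟩, hxy'⟩, rfl⟩
    have h1 : (x * x' - x' * x, y * y' - y' * y) ∈ pairs (full W t) (full V r) := by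
      intro k
      obtain ⟨D, hD, h1, h2⟩ := hxy k
      obtain ⟨D', hD', h1', h2'⟩ := hxy' k
      exact ⟨D.br D', (InDer.br k _ _ hD hD').mono, by rw [br_Θ, h1, h1'], by
        rw [br_Θ, h2, h2']⟩
    refine ⟨⟨⟨_, h1⟩, rfl⟩, ?_⟩
    change Φ (x * x' - x' * x) = Φ x * Φ x' - Φ x' * Φ x
    rw [hΦ' _ _ h1, hΦ' _ _ hxy, hΦ' _ _ hxy']
    have hy := hpc _ _ hxy
    have hy' := hpc _ _ hxy'
    have h3 : (y * y' - y' * y) - ((y - q y) * (y' - q y') - (y' - q y') * (y - q y)) ∈
        aI (full V r) {full W t} := by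
      have e1 : (y * y' - y' * y) - ((y - q y) * (y' - q y') - (y' - q y') * (y - q y)) =
          (y * q y' - q y' * y) - (y' * q y - q y * y') - (q y * q y' - q y' * q y) := by
        noncomm_ring
      rw [e1]
      exact sub_mem (sub_mem (core_br hy (hq2 y')) (core_br hy' (hq2 y)))
        (core_br (aI_le_core _ _ (hq2 y)) (hq2 y'))
    have h4 : (y - q y) * (y' - q y') - (y' - q y') * (y - q y) ∈ s :=
      h.br _ (h.le (hcore y hy)) _ (hcore y' hy')
    have h5 := hq1 _ h3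
    rw [map_sub q (y * y' - y' * y), hqs _ h4, sub_zero] at h5
    rw [h5]
    abel
  · intro x
    constructor
    · rintro ⟨_, ⟨⟨⟨z, y⟩, hzy⟩, rfl⟩, rfl⟩
      change Φ z ∈ s
      rw [hΦ' _ _ hzy]
      exact hcore y (hpc _ _ hzy)
    · intro hx
      obtain ⟨y, hy⟩ := lift_pair (full V r) (full W t) (h.le hx)
      have h1 : (y, x) ∈ pairs (full W t) (full V r) := by
        intro k
        obtain ⟨D, hD, h1, h2⟩ := hy k
        exact ⟨D, hD, h2, h1⟩
      refine ⟨y, ⟨⟨_, h1⟩, rfl⟩, ?_⟩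
      rw [hΦ' _ _ h1, hqs x hx, sub_zero]

end piece

/-- **The sum of the dimensions of the pieces.** -/
theorem count {ι : Type} {V : ι → Type} [∀ i, AddCommGroup (V i)] [∀ i, Module K (V i)]
    [∀ i, FiniteDimensional K (V i)] {r : ∀ i, Γ →* Module.End K (V i)} {T : Set (PRep K Γ)}
    {s : ∀ i, Submodule K (Module.End K (V i))} {m : ℕ} {P : Fin m → PRep K Γ}
    (hdet : ∀ D : Der K Γ, InDer 1 D → (∀ a, D.Θ (P a) = 0) → ∀ N ∈ T, D.Θ N = 0)
    (F : Finset ι) (hs : ∀ i ∈ F, IsPiece (r i) T (s i))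
    (hpair : ∀ i ∈ F, ∀ j ∈ F, i ≠ j → Spl (full (V i) (r i)) {full (V j) (r j)})
    {U : ∀ a, Submodule K (Module.End K (P a).V)}
    (hU : ∀ D : Der K Γ, InDer 1 D → ∀ a, D.Θ (P a) ∈ U a)
    {n : Fin m → ℕ} (hn : ∀ a, finrank K (U a) ≤ n a) :
    ∑ i ∈ F, finrank K (s i) ≤ ∑ a, n a := by
  classical
  choose k₀ hk₀ using fun i => exists_stable (full (V i) (r i)) T
  let k : ℕ := F.sup k₀ + 1
  have hk : ∀ i ∈ F, ak k (full (V i) (r i)) T = aI (full (V i) (r i)) T := fun i hi =>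
    hk₀ i k ((Finset.le_sup hi).trans (Nat.le_succ _))
  let S : Submodule K ((∀ a, Module.End K (P a).V) × (∀ i : F, Module.End K (V i.1))) :=
    { carrier := {x | ∃ D : Der K Γ, InDer k D ∧ (∀ a, D.Θ (P a) = x.1 a) ∧
        ∀ i : F, D.Θ (full (V i.1) (r i.1)) = x.2 i}
      add_mem' := by
        rintro x y ⟨D, hD, h1, h2⟩ ⟨D', hD', h1', h2'⟩
        exact ⟨D + D', hD.add' hD', fun a => by rw [add_Θ, h1, h1']; rfl,
          fun i => by rw [add_Θ, h2, h2']; rfl⟩
      zero_mem' := ⟨0, InDer.zero' _, fun a => rfl, fun i => rfl⟩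
      smul_mem' := by
        rintro c x ⟨D, hD, h1, h2⟩
        exact ⟨c • D, hD.smul c, fun a => by rw [smul_Θ, h1]; rfl,
          fun i => by rw [smul_Θ, h2]; rfl⟩ }
  let f : S →ₗ[K] (∀ a, Module.End K (P a).V) := LinearMap.fst K _ _ ∘ₗ S.subtype
  let g : S →ₗ[K] (∀ i : F, Module.End K (V i.1) ⧸ aI (full (V i.1) (r i.1)) T) :=
    (LinearMap.pi fun i : F => (aI (full (V i.1) (r i.1)) T).mkQ ∘ₗ LinearMap.proj i) ∘ₗ
      LinearMap.snd K _ _ ∘ₗ S.subtype
  obtain ⟨Φ, hΦ⟩ := exists_factor f g (by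
    rintro ⟨⟨x, y⟩, D, hD, h1, h2⟩ h0
    obtain rfl : x = 0 := h0
    funext i
    change Submodule.Quotient.mk (y i) = 0
    rw [Submodule.Quotient.mk_eq_zero, ← hk i.1 i.2]
    exact ⟨D, hD, hdet D (hD.mono' (by omega)) (fun a => h1 a), h2 i⟩)
  let Θ : (∀ a, U a) →ₗ[K] (∀ i : F, Module.End K (V i.1) ⧸ aI (full (V i.1) (r i.1)) T) :=
    Φ ∘ₗ LinearMap.pi fun a => (U a).subtype ∘ₗ LinearMap.proj a
  let Ψ : (∀ i : F, s i.1) →ₗ[K] (∀ i : F, Module.End K (V i.1) ⧸ aI (full (V i.1) (r i.1)) T) :=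
    LinearMap.pi fun i => (aI (full (V i.1) (r i.1)) T).mkQ ∘ₗ (s i.1).subtype ∘ₗ
      LinearMap.proj i
  have hΨ : Function.Injective Ψ := by
    rw [injective_iff_map_eq_zero]
    intro X hX
    funext i
    have h1 : Submodule.Quotient.mk (X i : Module.End K (V i.1)) = 0 := congrFun hX i
    rw [Submodule.Quotient.mk_eq_zero] at h1
    exact Subtype.ext (Submodule.disjoint_def.1 (hs i.1 i.2).disj _ (X i).2 h1)
  have hlift : ∀ i : F, ∀ x ∈ s i.1, ∃ D : Der K Γ, InDer k D ∧
      (∀ j : F, j ≠ i → D.Θ (full (V j.1) (r j.1)) = 0) ∧ D.Θ (full (V i.1) (r i.1)) = x := by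
    intro i x hx
    have h1 := Spl.iUnion (M := full (V i.1) (r i.1)) (F.erase i.1)
      (fun j => {full (V j) (r j)}) (fun j hj =>
        hpair i.1 i.2 j (Finset.mem_of_mem_erase hj) (Finset.ne_of_mem_erase hj).symm)
    obtain ⟨D, hD, h2, h3⟩ := mem_aI.1 (h1 ((hs i.1 i.2).le hx)) k
    refine ⟨D, hD, fun j hj => h2 _ ?_, h3⟩
    rw [Set.mem_iUnion₂]
    exact ⟨j.1, Finset.mem_erase.2 ⟨fun h => hj (Subtype.ext h), j.2⟩, rfl⟩
  have hle : LinearMap.range Ψ ≤ LinearMap.range Θ := by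
    rintro _ ⟨X, rfl⟩
    choose D hD h0 h1 using fun i : F => hlift i (X i).1 (X i).2
    obtain ⟨E, hE, h2⟩ := InDer.sum Finset.univ D (fun i _ => hD i)
    have h3 : ∀ i : F, E.Θ (full (V i.1) (r i.1)) = X i := by
      intro i
      rw [h2, Finset.sum_eq_single i (fun j _ hj => h0 j i hj.symm)
        (fun h => absurd (Finset.mem_univ i) h), h1]
    refine ⟨fun a => ⟨E.Θ (P a), hU E (hE.mono' (by omega)) a⟩, ?_⟩
    change Φ (f ⟨(fun a => E.Θ (P a), fun i => X i), E, hE, fun a => rfl, h3⟩) = _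
    rw [hΦ]
    rfl
  have k1 := LinearMap.finrank_range_of_inj hΨ
  have k2 := Submodule.finrank_mono hle
  have k3 := LinearMap.finrank_range_le Θ
  have k4 : finrank K (∀ i : F, s i.1) = ∑ i : F, finrank K (s i.1) :=
    Module.finrank_pi_fintype K
  have k5 : finrank K (∀ a, U a) ≤ ∑ a, n a := by
    rw [Module.finrank_pi_fintype K]
    exact Finset.sum_le_sum fun a _ => hn a
  rw [← Finset.sum_coe_sort F fun i => finrank K (s i)]
  omega

end

end Pool.Agent.N179.GR
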