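import Pool.Agent.N179.GR.Alg
import Pool.Agent.TH125.Gal.Tate
import Pool.Agent.Y127.G.Twr

/-!
# Semi-invariant classes on products
-/

set_option autoImplicit false
set_option linter.unusedSectionVars false

open CategoryTheory AlgebraicGeometry

universe u

namespace Pool.Agent.N179.GR

open Module Pool.Agent.H914 Pool.Agent.H914.VarClass Pool.Agent.H914.VarClass.Obj
  Pool.Agent.H914.WeilCohomology Pool.Agent.H281R3.HT Pool.Agent.W552 Pool.Agent.TH125.Gal

noncomputable section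

variable {k : Type u} [Field k] {𝒱 : VarClass k} {ops : CycleOps 𝒱}
  {W : WeilCohomology.{u, 0} ops} {Γ : Type} [Group Γ]

/-- Contraction with a linear form on the second factor. -/
def ctr2 {A Z : 𝒱.Obj} (ψ : W.H Z →ₗ[W.K] W.K) : W.H (A.prod Z) →ₗ[W.K] W.H A :=
  (TensorProduct.rid W.K (W.H A)).toLinearMap ∘ₗ (ψ.lTensor (W.H A)) ∘ₗ
    (kEquiv W A Z).symm.toLinearMap

theorem ctr2_apply {A Z : 𝒱.Obj} (ψ : W.H Z →ₗ[W.K] W.K) (a : W.H A) (z : W.H Z) :
    ctr2 ψ (W.map (fst A Z) a * W.map (snd A Z) z) = ψ z • a := by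
  change TensorProduct.rid W.K (W.H A) (ψ.lTensor (W.H A) ((kEquiv W A Z).symm _)) = _
  rw [kEquiv_symm, LinearMap.lTensor_tmul, TensorProduct.rid_tmul]

theorem ctr_comm {A Z : 𝒱.Obj} (φ : W.H A →ₗ[W.K] W.K) (ψ : W.H Z →ₗ[W.K] W.K)
    (c : W.H (A.prod Z)) : ψ (ctr φ c) = φ (ctr2 ψ c) := by
  refine kun_ext (L := fun c => ψ (ctr φ c)) (L' := fun c => φ (ctr2 ψ c)) ?_ ?_ ?_ c
  · intro a b
    rw [map_add, map_add]
  · intro a b
    rw [map_add, map_add]
  · intro a z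
    rw [ctr_apply, ctr2_apply, map_smul, map_smul, smul_eq_mul, smul_eq_mul, mul_comm]

theorem eq_zero_of_ctr2 {A Z : 𝒱.Obj} {c : W.H (A.prod Z)} (h : ∀ ψ, ctr2 ψ c = 0) : c = 0 := by
  let b := Module.finBasis W.K (W.H A)
  rw [TH125.Gal.expand b c]
  refine Finset.sum_eq_zero fun r _ => ?_
  have h1 : ctr (b.coord r) c = 0 := by
    refine (Module.forall_dual_apply_eq_zero_iff W.K _).1 fun ψ => ?_
    rw [ctr_comm, h, map_zero]
  rw [h1, map_zero, mul_zero]

/-- Expansion of the classes whose slices are in the span of a set. -/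
theorem exists_exp {P : 𝒱.Obj} (Y : 𝒱.Obj) (S : Set (W.H P)) :
    ∃ (N : ℕ) (m : Fin N → W.H P) (φ : Fin N → W.H P →ₗ[W.K] W.K), (∀ l, m l ∈ S) ∧
      (∀ l l', φ l (m l') = if l' = l then 1 else 0) ∧
      ∀ c : W.H (P.prod Y), (∀ ψ, ctr2 ψ c ∈ Submodule.span W.K S) →
        c = ∑ l, W.map (fst _ Y) (m l) * W.map (snd _ Y) (ctr (φ l) c) := by
  classical
  obtain ⟨S', hSA, hSspan, hSli⟩ := exists_linearIndependent W.K S
  have hfin : S'.Finite := hSli.setFinite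
  have := hfin.fintype
  let eS := Fintype.equivFin S'
  let B := Module.Basis.extend hSli
  let φ : Fin (Fintype.card S') → W.H P →ₗ[W.K] W.K := fun l =>
    B.coord ⟨(eS.symm l : S'), Module.Basis.subset_extend hSli (eS.symm l).2⟩
  have hφ : ∀ l l', φ l ((eS.symm l' : S') : W.H P) = if l' = l then 1 else 0 := by
    intro l l'
    have h1 : ((eS.symm l' : S') : W.H P) =
        B ⟨(eS.symm l' : S'), Module.Basis.subset_extend hSli (eS.symm l').2⟩ :=
      (Module.Basis.extend_apply_self hSli ⟨((eS.symm l' : S') : W.H P),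
        Module.Basis.subset_extend hSli (eS.symm l').2⟩).symm
    change B.coord _ _ = _
    rw [h1, Module.Basis.coord_apply, Module.Basis.repr_self, Finsupp.single_apply]
    congr 1
    apply propext
    rw [Subtype.mk.injEq, Subtype.ext_iff.symm, EmbeddingLike.apply_eq_iff_eq]
  refine ⟨Fintype.card S', fun l => (eS.symm l : S'), φ, fun l => hSA (eS.symm l).2, hφ, ?_⟩
  intro c hc
  rw [← sub_eq_zero]
  refine eq_zero_of_ctr2 fun ψ => ?_
  have h1 := hc ψ
  rw [← hSspan] at h1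
  have h2 : (Set.range fun l : Fin (Fintype.card S') => ((eS.symm l : S') : W.H P)) = S' := by
    ext x
    constructor
    · rintro ⟨l, rfl⟩
      exact (eS.symm l).2
    · intro hx
      exact ⟨eS ⟨x, hx⟩, by simp⟩
  rw [← h2] at h1
  obtain ⟨a, ha⟩ := (Submodule.mem_span_range_iff_exists_fun W.K).1 h1
  have h3 : ∀ l, φ l (ctr2 ψ c) = a l := by
    intro l
    rw [← ha, map_sum, Finset.sum_eq_single l]
    · rw [map_smul, hφ, if_pos rfl, smul_eq_mul, mul_one]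
    · intro l' _ hl
      rw [map_smul, hφ, if_neg hl, smul_zero]
    · intro h
      exact absurd (Finset.mem_univ _) h
  rw [map_sub, map_sum, sub_eq_zero, ← ha]
  refine Finset.sum_congr rfl fun l _ => ?_
  rw [ctr2_apply, ctr_comm, h3]

theorem ctr_sum {P Y : 𝒱.Obj} {N : ℕ} {m : Fin N → W.H P} {φ : Fin N → W.H P →ₗ[W.K] W.K}
    (hφ : ∀ l l', φ l (m l') = if l' = l then 1 else 0) (x : Fin N → W.H Y) (l : Fin N) :
    ctr (φ l) (∑ l', W.map (fst P Y) (m l') * W.map (snd P Y) (x l')) = x l := by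
  rw [map_sum, Finset.sum_eq_single l]
  · rw [ctr_apply, hφ, if_pos rfl, one_smul]
  · intro l' _ hl
    rw [ctr_apply, hφ, if_neg hl, zero_smul]
  · intro h
    exact absurd (Finset.mem_univ _) h

section prod

variable {P Y : 𝒱.Obj} {ρ : Γ →* (W.H P ≃ₐ[W.K] W.H P)} {τ : Γ →* (W.H Y ≃ₐ[W.K] W.H Y)}
  {υ : Γ →* (W.H (P.prod Y) ≃ₐ[W.K] W.H (P.prod Y))}

theorem Θ_map {A B : 𝒱.Obj} {ρ : Γ →* (W.H A ≃ₐ[W.K] W.H A)} {υ : Γ →* (W.H B ≃ₐ[W.K] W.H B)}
    {f : B ⟶ A} (h : Intertwines (W.map f) ρ υ) (D : Der W.K Γ) (a : W.H A) :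
    D.Θ (full (W.H B) (algR υ)) (W.map f a) = W.map f (D.Θ (full (W.H A) (algR ρ)) a) :=
  (D.lin (full (W.H A) (algR ρ)) (full (W.H B) (algR υ)) (W.map f).toLinearMap
    ⟨⊤, inferInstance, fun g _ v => (h g v).symm⟩ a).symm

/-- the slices of the value of a derivation which kills the second factor -/
theorem ctr2_Θ (h1 : Intertwines (W.map (fst P Y)) ρ υ) (h2 : Intertwines (W.map (snd P Y)) τ υ)
    {D : Der W.K Γ} (hD : D.Θ (full (W.H Y) (algR τ)) = 0) (ψ : W.H Y →ₗ[W.K] W.K)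
    (z : W.H (P.prod Y)) : ctr2 ψ (D.Θ (full _ (algR υ)) z) =
      D.Θ (full (W.H P) (algR ρ)) (ctr2 ψ z) := by
  refine kun_ext (L := fun z => ctr2 ψ (D.Θ (full _ (algR υ)) z))
    (L' := fun z => D.Θ (full (W.H P) (algR ρ)) (ctr2 ψ z)) ?_ ?_ ?_ z
  · intro a b
    exact (congrArg (ctr2 ψ) (map_add (D.Θ (full _ (algR υ))) a b)).trans (map_add _ _ _)
  · intro a b
    exact (congrArg (D.Θ (full (W.H P) (algR ρ))) (map_add (ctr2 ψ) a b)).trans (map_add _ _ _)
  · intro a b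
    beta_reduce
    rw [Θ_mul, Θ_map h1, Θ_map h2, hD]
    have e1 : W.map (snd P Y) ((0 : Module.End W.K (W.H Y)) b) = 0 := map_zero _
    have e2 : W.map (fst P Y) (D.Θ (full (W.H P) (algR ρ)) a) * W.map (snd P Y) b +
        W.map (fst P Y) a * W.map (snd P Y) ((0 : Module.End W.K (W.H Y)) b) =
        W.map (fst P Y) (D.Θ (full (W.H P) (algR ρ)) a) * W.map (snd P Y) b := by
      rw [e1, mul_zero, add_zero]
    refine (congrArg (ctr2 ψ) e2).trans ?_
    rw [ctr2_apply, ctr2_apply]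
    exact (map_smul (D.Θ (full (W.H P) (algR ρ))) (ψ b) a).symm

/-- the product is killed by the derivations which kill the factors -/
theorem Θ_prod (h1 : Intertwines (W.map (fst P Y)) ρ υ) (h2 : Intertwines (W.map (snd P Y)) τ υ)
    {D : Der W.K Γ} (hP : D.Θ (full (W.H P) (algR ρ)) = 0)
    (hY : D.Θ (full (W.H Y) (algR τ)) = 0) : D.Θ (full _ (algR υ)) = 0 := by
  refine LinearMap.ext fun z => ?_
  refine eq_zero_of_ctr2 fun ψ => ?_
  rw [ctr2_Θ h1 h2 hY, hP]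
  rfl

/-- **The slices of the semi-invariant classes.** -/
theorem slice_mem {V : Type} [AddCommGroup V] [Module W.K V] [FiniteDimensional W.K V]
    {r : Γ →* Module.End W.K V} (h1 : Intertwines (W.map (fst P Y)) ρ υ)
    (h2 : Intertwines (W.map (snd P Y)) τ υ) (hgen : Gen (fun _ : Unit => full V r) ρ)
    (hspl : Spl (full V r) {full (W.H Y) (algR τ)}) :
    ∃ k, ∀ z : W.H (P.prod Y), (full (W.H (P.prod Y)) (algR υ)).Eig z → ∀ ψ,
      ctr2 ψ z ∈ inv k ρ := by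
  obtain ⟨k₀, hk₀⟩ := exists_stable (full V r) (∅ : Set (PRep W.K Γ))
  refine ⟨k₀ + 1, fun z hz ψ D hD => ?_⟩
  have hx : D.Θ (full V r) ∈ core (full V r) := by
    have e1 : D.Θ (full V r) ∈ ak (k₀ + 1) (full V r) ∅ := ⟨D, hD, by simp, rfl⟩
    rw [hk₀ _ (Nat.le_succ _)] at e1
    exact e1
  obtain ⟨D', hD', hDY, hDV⟩ := mem_aI.1 (hspl hx) 1
  have h3 : D.Θ (full (W.H P) (algR ρ)) = D'.Θ (full (W.H P) (algR ρ)) :=
    hgen.eq_of (k := 0) (hD.mono' (by omega)) hD' fun _ => hDV.symm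
  rw [h3, ← ctr2_Θ h1 h2 (hDY _ rfl), hD'.kill hz]
  exact map_zero _

end prod

end

end Pool.Agent.N179.GR
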