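import Pool.Agent.N179.GR.Conj

/-!
# The lemma of Goursat
-/

set_option autoImplicit false
set_option linter.unusedSectionVars false

namespace Pool.Agent.N179.GR

noncomputable section

variable {K : Type} [Field K] {Γ : Type} [Group Γ]

/-- a linear map through which another one factors -/
theorem exists_factor {E F G : Type} [AddCommGroup E] [Module K E] [AddCommGroup F] [Module K F]
    [AddCommGroup G] [Module K G] (f : E →ₗ[K] F) (g : E →ₗ[K] G) (h : ∀ x, f x = 0 → g x = 0) :
    ∃ Φ : F →ₗ[K] G, ∀ x, Φ (f x) = g x := by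
  obtain ⟨r, hr⟩ := f.rangeRestrict.exists_rightInverse_of_surjective f.range_rangeRestrict
  obtain ⟨Φ, hΦ⟩ := LinearMap.exists_extend (g ∘ₗ r)
  refine ⟨Φ, fun x => ?_⟩
  have h1 := LinearMap.congr_fun hΦ (f.rangeRestrict x)
  rw [LinearMap.comp_apply, Submodule.subtype_apply, LinearMap.comp_apply] at h1
  have h2 := LinearMap.congr_fun hr (f.rangeRestrict x)
  rw [LinearMap.comp_apply, LinearMap.id_apply] at h2
  have h3 : f (r (f.rangeRestrict x)) = f x := congrArg Subtype.val h2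
  have h4 : g (r (f.rangeRestrict x) - x) = 0 := h _ (by rw [map_sub, h3, sub_self])
  rw [map_sub, sub_eq_zero] at h4
  rw [← h4, ← h1]
  rfl

/-- An equivariant projector onto a stable subspace. -/
theorem SemiS.exists_proj {V : Type} [AddCommGroup V] [Module K V] [FiniteDimensional K V]
    {r : Γ →* Module.End K V} (hr : SemiS r) {A : Submodule K V} (hA : Stab r A) :
    ∃ π : V →ₗ[K] V, (∀ x ∈ A, π x = x) ∧ (∀ x, π x ∈ A) ∧ ∀ g x, π (r g x) = r g (π x) := by
  obtain ⟨B, hB, hc⟩ := hr A hA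
  have h1 : ∀ x ∈ A, (A.subtype ∘ₗ Submodule.projectionOnto A B hc) x = x := by
    intro x hx
    exact congrArg Subtype.val (Submodule.projectionOnto_apply_left hc ⟨x, hx⟩)
  have h2 : ∀ x ∈ B, (A.subtype ∘ₗ Submodule.projectionOnto A B hc) x = 0 := by
    intro x hx
    rw [LinearMap.comp_apply, Submodule.projectionOnto_apply_of_mem_right hc hx]
    rfl
  refine ⟨A.subtype ∘ₗ Submodule.projectionOnto A B hc, h1, fun x => SetLike.coe_mem _,
    fun g x => ?_⟩
  obtain ⟨a, ha, b, hb, rfl⟩ := Submodule.mem_sup.1 (hc.sup_eq_top ▸ Submodule.mem_top : x ∈ _)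
  rw [map_add (r g), map_add, map_add, h1 _ (hA g a ha), h2 _ (hB g b hb), h1 a ha, h2 b hb,
    add_zero, add_zero]

section pair

variable {V : Type} [AddCommGroup V] [Module K V] [FiniteDimensional K V]
  {W : Type} [AddCommGroup W] [Module K W] [FiniteDimensional K W]

/-- the pairs of operators defined by one derivation in every step of the derived series -/
def pairs (M N : PRep K Γ) : Submodule K (Module.End K M.V × Module.End K N.V) where
  carrier := {x | ∀ k, ∃ D : Der K Γ, InDer k D ∧ D.Θ M = x.1 ∧ D.Θ N = x.2}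
  add_mem' := by
    intro x y hx hy k
    obtain ⟨D, hD, h1, h2⟩ := hx k
    obtain ⟨D', hD', h1', h2'⟩ := hy k
    exact ⟨D + D', hD.add' hD', by rw [add_Θ, h1, h1']; rfl, by rw [add_Θ, h2, h2']; rfl⟩
  zero_mem' := fun k => ⟨0, InDer.zero' k, rfl, rfl⟩
  smul_mem' := by
    intro c x hx k
    obtain ⟨D, hD, h1, h2⟩ := hx k
    exact ⟨c • D, hD.smul c, by rw [smul_Θ, h1]; rfl, by rw [smul_Θ, h2]; rfl⟩

theorem mem_pairs {M N : PRep K Γ} {x : Module.End K M.V} {y : Module.End K N.V} :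
    (x, y) ∈ pairs M N ↔ ∀ k, ∃ D : Der K Γ, InDer k D ∧ D.Θ M = x ∧ D.Θ N = y := Iff.rfl

/-- **The Goursat lemma.** If every potentially equivariant map from `End V` to `End W` takes its
values in the span of the eigenvectors, then `V` splits off from `W`. -/
theorem spl_pair {r : Γ →* Module.End K V} {s : Γ →* Module.End K W} (hr : SemiS (cj r))
    (hs : SemiS (cj s))
    (h : ∀ f : Module.End K V →ₗ[K] Module.End K W,
      (∀ g x, f (cj r g x) = cj s g (f x)) →
      ∀ x, f x ∈ Submodule.span K {y | (full (Module.End K W) (cj s)).Eig y}) :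
    Spl (full V r) {full W s} := by
  obtain ⟨π, hπ1, hπ2, hπ3⟩ := hr.exists_proj (core_stab r)
  have hfull : ∀ N ∈ ({full V r} : Set (PRep K Γ)), IsFull N := by
    rintro N rfl
    exact isFull_full r
  obtain ⟨q, hq1, hq2, hq3⟩ := hs.exists_proj (aI_stab s (T := {full V r}) hfull)
  let f : pairs (full V r) (full W s) →ₗ[K] Module.End K V :=
    LinearMap.fst K _ _ ∘ₗ (pairs (full V r) (full W s)).subtype
  let g : pairs (full V r) (full W s) →ₗ[K] Module.End K W :=
    (LinearMap.id - q) ∘ₗ LinearMap.snd K _ _ ∘ₗ (pairs (full V r) (full W s)).subtype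
  obtain ⟨Φ, hΦ⟩ := exists_factor f g (by
    rintro ⟨⟨x, y⟩, hxy⟩ h0
    obtain rfl : x = 0 := h0
    change y - q y = 0
    rw [hq1 y, sub_self]
    rw [mem_aI]
    intro k
    obtain ⟨D, hD, h1, h2⟩ := hxy k
    exact ⟨D, hD, fun N hN => by rw [Set.mem_singleton_iff.1 hN]; exact h1, h2⟩)
  have hΦ' : ∀ x y, (x, y) ∈ pairs (full V r) (full W s) → Φ x = y - q y :=
    fun x y hxy => hΦ ⟨(x, y), hxy⟩
  have hlift : ∀ x ∈ core (full V r), (x, Φ x) ∈ pairs (full V r) (full W s) := by
    intro x hx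
    obtain ⟨y, hy⟩ := lift_pair (full V r) (full W s) hx
    rw [hΦ' x y hy]
    have h1 : ((0 : Module.End K V), q y) ∈ pairs (full V r) (full W s) := by
      intro k
      obtain ⟨D, hD, h1, h2⟩ := mem_aI.1 (hq2 y) k
      exact ⟨D, hD, h1 _ rfl, h2⟩
    have h2 := sub_mem (show (x, y) ∈ pairs (full V r) (full W s) from hy) h1
    rwa [Prod.mk_sub_mk, sub_zero] at h2
  have heqv : ∀ g, ∀ x ∈ core (full V r), Φ (cj r g x) = cj s g (Φ x) := by
    intro g x hx
    have h1 : (cj r g x, cj s g (Φ x)) ∈ pairs (full V r) (full W s) := by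
      intro k
      obtain ⟨D, hD, h1, h2⟩ := hlift x hx k
      refine ⟨D.conj g⁻¹, hD.conj _, ?_, ?_⟩
      · rw [conj_full D g⁻¹ (isFull_full r), inv_inv, h1]
        rfl
      · rw [conj_full D g⁻¹ (isFull_full s), inv_inv, h2]
        rfl
    rw [hΦ' _ _ h1, hq3]
    have h2 : q (Φ x) = 0 := by
      obtain ⟨y, hy⟩ := lift_pair (full V r) (full W s) hx
      rw [hΦ' x y hy, map_sub, hq1 _ (hq2 y), sub_self]
    rw [h2, map_zero, sub_zero]
  have hspan : ∀ x ∈ core (full V r), Φ x ∈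
      Submodule.span K {y | (full (Module.End K W) (cj s)).Eig y} := by
    intro x hx
    have h1 := h (Φ ∘ₗ π) (fun g x => by
      change Φ (π (cj r g x)) = cj s g (Φ (π x))
      rw [hπ3, heqv g _ (hπ2 x)]) x
    rwa [LinearMap.comp_apply, hπ1 x hx] at h1
  refine (core_perfect (full V r)).trans (Submodule.span_le.2 ?_)
  rintro x ⟨y, hy, z, hz, rfl⟩
  rw [SetLike.mem_coe, mem_aI]
  intro k
  obtain ⟨D, hD, h1, h2⟩ := hlift y hy (k + 1)
  obtain ⟨D', hD', h1', h2'⟩ := hlift z hz (k + 1)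
  refine ⟨D.br D', (InDer.br _ _ _ hD hD').mono' (by omega), ?_, ?_⟩
  · intro N hN
    rw [Set.mem_singleton_iff.1 hN, br_Θ, h2']
    exact hD.comm_span (hspan z hz)
  · rw [br_Θ, h1, h1']

end pair

end

end Pool.Agent.N179.GR
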