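import Pool.Agent.N179.GR.Base

/-!
# The Lie algebra of the derivations, its derived series and its perfect core
-/

set_option autoImplicit false
set_option linter.unusedSectionVars false

namespace Pool.Agent.N179.GR

noncomputable section

variable {K : Type} [Field K] {Γ : Type} [Group Γ]

@[ext] theorem Der.ext' {D D' : Der K Γ} (h : ∀ M, D.Θ M = D'.Θ M) : D = D' := by
  cases D
  cases D'
  congr 1
  funext M
  exact h M

instance : Zero (Der K Γ) where
  zero :=
    { Θ := fun _ => 0
      lin := fun M M' f _ v => by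
        rw [LinearMap.zero_apply, LinearMap.zero_apply, map_zero]
      bil := fun M₁ M₂ M' h _ x y => by
        rw [LinearMap.zero_apply, LinearMap.zero_apply, LinearMap.zero_apply, map_zero, map_zero,
          LinearMap.zero_apply, add_zero] }

instance : Add (Der K Γ) where
  add D D' :=
    { Θ := fun M => D.Θ M + D'.Θ M
      lin := fun M M' f hf v => by
        rw [LinearMap.add_apply, LinearMap.add_apply, map_add, D.lin M M' f hf, D'.lin M M' f hf]
      bil := fun M₁ M₂ M' h hh x y => by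
        rw [LinearMap.add_apply, LinearMap.add_apply, LinearMap.add_apply, map_add, map_add,
          LinearMap.add_apply, ← D.bil M₁ M₂ M' h hh, ← D'.bil M₁ M₂ M' h hh]
        abel }

instance : SMul K (Der K Γ) where
  smul c D :=
    { Θ := fun M => c • D.Θ M
      lin := fun M M' f hf v => by
        rw [LinearMap.smul_apply, LinearMap.smul_apply, map_smul, D.lin M M' f hf]
      bil := fun M₁ M₂ M' h hh x y => by
        rw [LinearMap.smul_apply, LinearMap.smul_apply, LinearMap.smul_apply, map_smul, map_smul,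
          LinearMap.smul_apply, ← D.bil M₁ M₂ M' h hh, smul_add] }

/-- the commutator -/
def Der.br (D D' : Der K Γ) : Der K Γ where
  Θ M := D.Θ M * D'.Θ M - D'.Θ M * D.Θ M
  lin M M' f hf v := by
    simp only [LinearMap.sub_apply, Module.End.mul_apply, map_sub, D.lin M M' f hf,
      D'.lin M M' f hf]
  bil M₁ M₂ M' h hh x y := by
    have h1 := fun x y => (D.bil M₁ M₂ M' h hh x y).symm
    have h2 := fun x y => (D'.bil M₁ M₂ M' h hh x y).symm
    simp only [LinearMap.sub_apply, Module.End.mul_apply, map_sub]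
    rw [h2 x y, h1 x y, map_add, map_add, h1, h1, h2, h2]
    abel

theorem zero_Θ (M : PRep K Γ) : (0 : Der K Γ).Θ M = 0 := rfl

theorem add_Θ (D D' : Der K Γ) (M : PRep K Γ) : (D + D').Θ M = D.Θ M + D'.Θ M := rfl

theorem smul_Θ (c : K) (D : Der K Γ) (M : PRep K Γ) : (c • D).Θ M = c • D.Θ M := rfl

theorem br_Θ (D D' : Der K Γ) (M : PRep K Γ) :
    (D.br D').Θ M = D.Θ M * D'.Θ M - D'.Θ M * D.Θ M := rfl

/-- The derived series of the Lie algebra of all derivations. -/
inductive InDer : ℕ → Der K Γ → Prop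
  | base (D) : InDer 0 D
  | zero (k) : InDer (k + 1) 0
  | add (k D D') : InDer (k + 1) D → InDer (k + 1) D' → InDer (k + 1) (D + D')
  | br (k D D') : InDer k D → InDer k D' → InDer (k + 1) (D.br D')

theorem InDer.zero' (k : ℕ) : InDer k (0 : Der K Γ) := by
  cases k with
  | zero => exact InDer.base _
  | succ k => exact InDer.zero k

theorem InDer.add' {k : ℕ} {D D' : Der K Γ} (h : InDer k D) (h' : InDer k D') :
    InDer k (D + D') := by
  cases k with
  | zero => exact InDer.base _
  | succ k => exact InDer.add k _ _ h h'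

theorem InDer.smul {k : ℕ} {D : Der K Γ} (c : K) (h : InDer k D) : InDer k (c • D) := by
  induction h with
  | base D => exact InDer.base _
  | zero k =>
    have h1 : c • (0 : Der K Γ) = 0 := Der.ext' fun M => smul_zero c
    rw [h1]
    exact InDer.zero k
  | add k D D' _ _ h1 h2 =>
    have h3 : c • (D + D') = c • D + c • D' := Der.ext' fun M => smul_add c _ _
    rw [h3]
    exact InDer.add k _ _ h1 h2
  | br k D D' _ h2 h1 _ =>
    have h3 : c • (D.br D') = (c • D).br D' := by
      refine Der.ext' fun M => ?_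
      rw [smul_Θ, br_Θ, br_Θ, smul_Θ, smul_sub, smul_mul_assoc, mul_smul_comm]
    rw [h3]
    exact InDer.br k _ _ h1 h2

theorem InDer.mono {k : ℕ} {D : Der K Γ} (h : InDer (k + 1) D) : InDer k D := by
  induction k generalizing D with
  | zero => exact InDer.base _
  | succ k ih =>
    generalize hn : k + 1 + 1 = n at h
    induction h with
    | base D => omega
    | zero j =>
      exact InDer.zero k
    | add j D D' _ _ h1 h2 =>
      obtain rfl : j = k + 1 := by omega
      exact InDer.add k _ _ (h1 rfl) (h2 rfl)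
    | br j D D' h1 h2 _ _ =>
      obtain rfl : j = k + 1 := by omega
      exact InDer.br k _ _ (ih h1) (ih h2)

theorem InDer.mono' {k l : ℕ} (hkl : k ≤ l) {D : Der K Γ} (h : InDer l D) : InDer k D := by
  induction l, hkl using Nat.le_induction with
  | base => exact h
  | succ l _ ih => exact ih h.mono

theorem InDer.sum {κ : Type} {k : ℕ} (s : Finset κ) (D : κ → Der K Γ)
    (h : ∀ i ∈ s, InDer k (D i)) : ∃ E : Der K Γ, InDer k E ∧ ∀ M, E.Θ M = ∑ i ∈ s, (D i).Θ M := by
  classical
  induction s using Finset.induction_on with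
  | empty => exact ⟨0, InDer.zero' k, fun M => by rw [Finset.sum_empty]; rfl⟩
  | insert a s ha ih =>
    obtain ⟨E, hE, h1⟩ := ih fun i hi => h i (Finset.mem_insert_of_mem hi)
    refine ⟨D a + E, (h a (Finset.mem_insert_self _ _)).add' hE, fun M => ?_⟩
    rw [Finset.sum_insert ha, ← h1]
    rfl

/-- The operators on `M` defined by the derivations in the `k`-th step of the derived series which
kill the members of `T`. -/
def ak (k : ℕ) (M : PRep K Γ) (T : Set (PRep K Γ)) : Submodule K (Module.End K M.V) where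
  carrier := {x | ∃ D : Der K Γ, InDer k D ∧ (∀ N ∈ T, D.Θ N = 0) ∧ D.Θ M = x}
  add_mem' := by
    rintro x y ⟨D, hD, h1, rfl⟩ ⟨D', hD', h1', rfl⟩
    exact ⟨D + D', hD.add' hD', fun N hN => by rw [add_Θ, h1 N hN, h1' N hN, add_zero], rfl⟩
  zero_mem' := ⟨0, InDer.zero' k, fun N _ => rfl, rfl⟩
  smul_mem' := by
    rintro c x ⟨D, hD, h1, rfl⟩
    exact ⟨c • D, hD.smul c, fun N hN => by rw [smul_Θ, h1 N hN, smul_zero], rfl⟩

theorem mem_ak {k : ℕ} {M : PRep K Γ} {T : Set (PRep K Γ)} {x : Module.End K M.V} :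
    x ∈ ak k M T ↔ ∃ D : Der K Γ, InDer k D ∧ (∀ N ∈ T, D.Θ N = 0) ∧ D.Θ M = x := Iff.rfl

theorem ak_anti {k l : ℕ} (hkl : k ≤ l) (M : PRep K Γ) {T T' : Set (PRep K Γ)} (hT : T ⊆ T') :
    ak l M T' ≤ ak k M T := by
  rintro x ⟨D, hD, h1, rfl⟩
  exact ⟨D, hD.mono' hkl, fun N hN => h1 N (hT hN), rfl⟩

/-- the intersection of the spaces `ak` for all `k` -/
def aI (M : PRep K Γ) (T : Set (PRep K Γ)) : Submodule K (Module.End K M.V) := ⨅ k, ak k M T

/-- **The perfect core.** -/
def core (M : PRep K Γ) : Submodule K (Module.End K M.V) := aI M ∅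

theorem mem_aI {M : PRep K Γ} {T : Set (PRep K Γ)} {x : Module.End K M.V} :
    x ∈ aI M T ↔ ∀ k, ∃ D : Der K Γ, InDer k D ∧ (∀ N ∈ T, D.Θ N = 0) ∧ D.Θ M = x := by
  unfold aI
  rw [Submodule.mem_iInf]
  rfl

theorem mem_core {M : PRep K Γ} {x : Module.End K M.V} :
    x ∈ core M ↔ ∀ k, ∃ D : Der K Γ, InDer k D ∧ D.Θ M = x := by
  unfold core
  rw [mem_aI]
  refine forall_congr' fun k => exists_congr fun D => and_congr_right fun _ => ?_
  simp

theorem aI_anti (M : PRep K Γ) {T T' : Set (PRep K Γ)} (hT : T ⊆ T') : aI M T' ≤ aI M T :=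
  iInf_mono fun _ => ak_anti le_rfl M hT

theorem aI_le_core (M : PRep K Γ) (T : Set (PRep K Γ)) : aI M T ≤ core M :=
  aI_anti M (Set.empty_subset T)

/-- the sequence of the spaces `ak` is constant from some index on -/
theorem exists_stable (M : PRep K Γ) (T : Set (PRep K Γ)) :
    ∃ k₀, ∀ k, k₀ ≤ k → ak k M T = aI M T := by
  let f : ℕ →o (Submodule K (Module.End K M.V))ᵒᵈ :=
    ⟨fun k => OrderDual.toDual (ak k M T), fun k l hkl => ak_anti hkl M (Set.Subset.refl T)⟩
  obtain ⟨n, hn⟩ := IsArtinian.monotone_stabilizes f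
  have h1 : ∀ k, n ≤ k → ak n M T = ak k M T := fun k hk => congrArg OrderDual.ofDual (hn k hk)
  refine ⟨n, fun k hk => le_antisymm ?_ (iInf_le _ k)⟩
  refine le_iInf fun l => ?_
  rcases le_total l k with h | h
  · exact ak_anti h M (Set.Subset.refl T)
  · rw [← h1 k hk, h1 l (hk.trans h)]

/-- the commutators of elements of the core span the core -/
theorem core_perfect (M : PRep K Γ) : core M ≤
    Submodule.span K {x | ∃ y ∈ core M, ∃ z ∈ core M, x = y * z - z * y} := by
  obtain ⟨k₀, hk₀⟩ := exists_stable M ∅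
  intro x hx
  obtain ⟨D, hD, rfl⟩ := mem_core.1 hx (k₀ + 1)
  clear hx
  generalize hn : k₀ + 1 = n at hD
  induction hD with
  | base D => omega
  | zero j => exact zero_mem _
  | add j D D' _ _ h1 h2 => exact add_mem (h1 hn) (h2 hn)
  | br j D D' h1 h2 _ _ =>
    obtain rfl : j = k₀ := by omega
    refine Submodule.subset_span ⟨D.Θ M, ?_, D'.Θ M, ?_, rfl⟩
    · unfold core
      rw [← hk₀ j le_rfl]
      exact ⟨D, h1, by simp, rfl⟩
    · unfold core
      rw [← hk₀ j le_rfl]
      exact ⟨D', h2, by simp, rfl⟩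

/-- brackets of the core are in the core -/
theorem core_br {M : PRep K Γ} {T : Set (PRep K Γ)} {x y : Module.End K M.V} (hx : x ∈ core M)
    (hy : y ∈ aI M T) : x * y - y * x ∈ aI M T := by
  rw [mem_aI]
  intro k
  obtain ⟨D, hD, rfl⟩ := mem_core.1 hx k
  obtain ⟨D', hD', h1, rfl⟩ := mem_aI.1 hy k
  exact ⟨D.br D', (InDer.br k _ _ hD hD').mono, fun N hN => by
    rw [br_Θ, h1 N hN, mul_zero, zero_mul, sub_zero], rfl⟩

/-- `M` splits off from the members of `T`. -/
def Spl (M : PRep K Γ) (T : Set (PRep K Γ)) : Prop := core M ≤ aI M T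

theorem Spl.mono {M : PRep K Γ} {T T' : Set (PRep K Γ)} (h : Spl M T') (hT : T ⊆ T') : Spl M T :=
  h.trans (aI_anti M hT)

theorem spl_empty (M : PRep K Γ) : Spl M ∅ := le_rfl

/-- **The lemma of Ribet.** -/
theorem Spl.union {M : PRep K Γ} {T T' : Set (PRep K Γ)} (h : Spl M T) (h' : Spl M T') :
    Spl M (T ∪ T') := by
  refine (core_perfect M).trans (Submodule.span_le.2 ?_)
  rintro x ⟨y, hy, z, hz, rfl⟩
  rw [SetLike.mem_coe, mem_aI]
  intro k
  obtain ⟨D, hD, h1, rfl⟩ := mem_aI.1 (h hy) k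
  obtain ⟨D', hD', h1', rfl⟩ := mem_aI.1 (h' hz) k
  refine ⟨D.br D', (InDer.br k _ _ hD hD').mono, fun N hN => ?_, rfl⟩
  rcases hN with hN | hN
  · rw [br_Θ, h1 N hN, mul_zero, zero_mul, sub_zero]
  · rw [br_Θ, h1' N hN, mul_zero, zero_mul, sub_zero]

theorem Spl.iUnion {M : PRep K Γ} {κ : Type} (s : Finset κ) (T : κ → Set (PRep K Γ))
    (h : ∀ i ∈ s, Spl M (T i)) : Spl M (⋃ i ∈ s, T i) := by
  classical
  induction s using Finset.induction_on with
  | empty => simpa using spl_empty M
  | insert a s ha ih =>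
    rw [Finset.set_biUnion_insert]
    exact (h a (Finset.mem_insert_self _ _)).union
      (ih fun i hi => h i (Finset.mem_insert_of_mem hi))

/-- the restriction to smaller representations -/
theorem Spl.detect {M : PRep K Γ} {T T' : Set (PRep K Γ)} (h : Spl M T)
    (hT : ∀ D : Der K Γ, (∀ N ∈ T, D.Θ N = 0) → ∀ N ∈ T', D.Θ N = 0) : Spl M T' := by
  intro x hx
  rw [mem_aI]
  intro k
  obtain ⟨D, hD, h1, rfl⟩ := mem_aI.1 (h hx) k
  exact ⟨D, hD, hT D h1, rfl⟩

end

end Pool.Agent.N179.GR
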