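import Pool.Agent.N179.GR.Exc

/-!
# Eigenvalues and the number of the representations which do not split off
-/

set_option autoImplicit false
set_option linter.unusedSectionVars false

namespace Pool.Agent.N179.GR

open Module

noncomputable section

variable {K : Type} [Field K]

section eig

variable {V : Type} [AddCommGroup V] [Module K V] [FiniteDimensional K V]

theorem hasEigenvalue_of_max {f : End K V} {c : K} (h : f.maxGenEigenspace c ≠ ⊥) :
    f.HasEigenvalue c := by
  rw [End.maxGenEigenspace_eq_genEigenspace_finrank] at h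
  exact End.hasEigenvalue_of_hasGenEigenvalue (k := finrank K V) h

/-- an operator without nonzero eigenvalues is nilpotent -/
theorem nilpotent_of_eig [IsAlgClosed K] (f : End K V)
    (h : ∀ c : K, c ≠ 0 → ∀ v, f v = c • v → v = 0) : IsNilpotent f := by
  have h1 : ∀ c, c ≠ 0 → f.maxGenEigenspace c = ⊥ := by
    intro c hc
    by_contra h3
    obtain ⟨v, hv⟩ := (hasEigenvalue_of_max h3).exists_hasEigenvector
    exact hv.2 (h c hc v hv.apply_eq_smul)
  have h2 := End.iSup_maxGenEigenspace_eq_top f
  have h3 : ⨆ c, f.maxGenEigenspace c ≤ f.maxGenEigenspace 0 := by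
    refine iSup_le fun c => ?_
    rcases eq_or_ne c 0 with rfl | hc
    · exact le_rfl
    · rw [h1 c hc]
      exact bot_le
  rw [h2, End.maxGenEigenspace_eq_genEigenspace_finrank] at h3
  refine ⟨finrank K V, LinearMap.ext fun v => ?_⟩
  have h4 : v ∈ f.genEigenspace 0 (finrank K V) := h3 Submodule.mem_top
  rw [End.mem_genEigenspace_nat, zero_smul, sub_zero] at h4
  exact LinearMap.mem_ker.1 h4

/-- eigenvalues of a commutator operator -/
theorem eig_diff [IsAlgClosed K] {y X : End K V} {c : K} (h : y * X - X * y = c • X)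
    (hX : X ≠ 0) : ∃ μ, y.HasEigenvalue μ ∧ y.HasEigenvalue (μ + c) := by
  by_contra hcon
  push Not at hcon
  apply hX
  have h1 : ∀ μ, ∀ u ∈ y.maxGenEigenspace μ, X u = 0 := by
    intro μ u hu
    by_contra hne
    have h2 : y.HasEigenvalue μ := by
      apply hasEigenvalue_of_max
      rintro h3
      rw [h3, Submodule.mem_bot] at hu
      exact hne (by rw [hu, map_zero])
    apply hcon μ h2
    apply hasEigenvalue_of_max
    rw [End.mem_maxGenEigenspace] at hu
    obtain ⟨k, hk⟩ := hu
    have h3 : (y - (μ + c) • 1) * X = X * (y - μ • 1) := by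
      rw [sub_mul, mul_sub, smul_mul_assoc, mul_smul_comm, one_mul, mul_one, add_smul, ← h]
      abel
    have h4 : ∀ k, (y - (μ + c) • 1) ^ k * X = X * (y - μ • 1) ^ k := by
      intro k
      induction k with
      | zero => rw [pow_zero, pow_zero, one_mul, mul_one]
      | succ k ih => rw [pow_succ, mul_assoc, h3, ← mul_assoc, ih, mul_assoc, ← pow_succ]
    intro h5
    have h6 : X u ∈ y.maxGenEigenspace (μ + c) := by
      rw [End.mem_maxGenEigenspace]
      refine ⟨k, ?_⟩
      rw [← End.mul_apply, h4, End.mul_apply, hk, map_zero]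
    rw [h5, Submodule.mem_bot] at h6
    exact hne h6
  have h2 : (⨆ c, y.maxGenEigenspace c) ≤ LinearMap.ker X := iSup_le fun μ u hu => h1 μ u hu
  rw [End.iSup_maxGenEigenspace_eq_top] at h2
  exact LinearMap.ext fun u => LinearMap.mem_ker.1 (h2 Submodule.mem_top)

/-- nonzero eigenvalues and the kernel -/
theorem card_add_ker_le (y : End K V) (s : Finset K) (hs : ∀ c ∈ s, c ≠ 0 ∧ y.HasEigenvalue c) :
    s.card + finrank K (LinearMap.ker y) ≤ finrank K V := by
  choose! v hv using fun c hc => (hs c hc).2.exists_hasEigenvector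
  have h1 : LinearIndependent K (fun c : s => v c) :=
    End.eigenvectors_linearIndependent' y (fun c : s => (c : K)) Subtype.coe_injective _
      fun c => hv c c.2
  have h2 : ∀ c : s, v c ∈ LinearMap.range y := by
    intro c
    refine ⟨(c : K)⁻¹ • v c, ?_⟩
    rw [map_smul, (hv c c.2).apply_eq_smul, smul_smul, inv_mul_cancel₀ (hs c c.2).1, one_smul]
  have h3 : LinearIndependent K (fun c : s => (⟨v c, h2 c⟩ : LinearMap.range y)) :=
    LinearIndependent.of_comp (LinearMap.range y).subtype h1
  have h4 := h3.fintype_card_le_finrank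
  rw [Fintype.card_coe] at h4
  have h5 := LinearMap.finrank_range_add_finrank_ker y
  omega

end eig

section lie

attribute [local instance 100] LieRing.ofAssociativeRing

variable {V : Type} [AddCommGroup V] [Module K V] [FiniteDimensional K V]

/-- **Engel's theorem**: a perfect Lie algebra of operators contains an element which is not
nilpotent. -/
theorem exists_ad_eig [IsAlgClosed K] {s : Submodule K (End K V)} (h0 : s ≠ ⊥)
    (hbr : ∀ x ∈ s, ∀ y ∈ s, x * y - y * x ∈ s)
    (hperf : s ≤ Submodule.span K {x | ∃ y ∈ s, ∃ z ∈ s, x = y * z - z * y}) :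
    ∃ x ∈ s, ∃ w ∈ s, w ≠ 0 ∧ ∃ c : K, c ≠ 0 ∧ x * w - w * x = c • w := by
  by_contra hcon
  push Not at hcon
  let L : LieSubalgebra K (End K V) := { s with lie_mem' := fun {x y} hx hy => hbr x hx y hy }
  have hnil : LieRing.IsNilpotent L := by
    rw [LieAlgebra.isNilpotent_iff_forall (R := K)]
    intro x
    refine nilpotent_of_eig _ fun c hc v hv => ?_
    by_contra hv0
    refine hcon x x.2 v v.2 (fun h => hv0 (Subtype.ext h)) c hc ?_
    exact congrArg Subtype.val hv
  have hsol : LieAlgebra.IsSolvable L := inferInstance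
  have htop : ∀ k, LieAlgebra.derivedSeries K L k = ⊤ := by
    intro k
    induction k with
    | zero => rfl
    | succ k ih =>
      have ih' : LieAlgebra.derivedSeriesOfIdeal K L k ⊤ = ⊤ := ih
      rw [LieAlgebra.derivedSeries_def, LieAlgebra.derivedSeriesOfIdeal_succ, ih', eq_top_iff]
      intro x _
      have h1 : x ∈ (⁅(⊤ : LieIdeal K L), (⊤ : LieIdeal K L)⁆ : LieIdeal K L).toSubmodule := by
        rw [LieSubmodule.lieIdeal_oper_eq_linear_span']
        have h2 : ∀ z ∈ Submodule.span K {x | ∃ y ∈ s, ∃ z ∈ s, x = y * z - z * y},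
            ∃ z' ∈ Submodule.span K {m : L | ∃ x ∈ (⊤ : LieIdeal K L), ∃ n ∈ (⊤ : LieIdeal K L),
              ⁅x, n⁆ = m}, (z' : End K V) = z := by
          intro z hz
          induction hz using Submodule.span_induction with
          | mem z hz =>
            obtain ⟨a, ha, b, hb, rfl⟩ := hz
            exact ⟨⁅(⟨a, ha⟩ : L), (⟨b, hb⟩ : L)⁆,
              Submodule.subset_span ⟨⟨a, ha⟩, trivial, ⟨b, hb⟩, trivial, rfl⟩, rfl⟩
          | zero => exact ⟨0, zero_mem _, rfl⟩
          | add a b _ _ ha hb =>
            obtain ⟨a', ha', rfl⟩ := ha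
            obtain ⟨b', hb', rfl⟩ := hb
            exact ⟨a' + b', add_mem ha' hb', rfl⟩
          | smul c a _ ha =>
            obtain ⟨a', ha', rfl⟩ := ha
            exact ⟨c • a', Submodule.smul_mem _ c ha', rfl⟩
        obtain ⟨z', hz', h3⟩ := h2 x (hperf x.2)
        rwa [← Subtype.ext h3]
      exact h1
  rw [LieAlgebra.isSolvable_iff K] at hsol
  obtain ⟨k, hk⟩ := hsol
  rw [htop k] at hk
  apply h0
  rw [eq_bot_iff]
  intro x hx
  have h1 : (⟨x, hx⟩ : L) ∈ (⊥ : LieIdeal K L) := by
    rw [← hk]
    trivial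
  rw [LieSubmodule.mem_bot] at h1
  exact congrArg Subtype.val h1

end lie

end

end Pool.Agent.N179.GR
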