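import Pool.Agent.N179.GR.Base
import Pool.Agent.H497R2.Der

/-!
# Derivations from an ultrapower
-/

set_option autoImplicit false
set_option linter.unusedSectionVars false

open Filter

namespace Pool.Agent.N179.GR

noncomputable section

variable {K : Type} [Field K] {Γ : Type} [Group Γ]

/-- the ultrapower of the field -/
abbrev UL (K : Type) [Field K] {Γ : Type} (U : Ultrafilter Γ) : Type := (U : Filter Γ).Germ K

/-- the ultrapower of a vector space -/
abbrev UV {Γ : Type} (U : Ultrafilter Γ) (V : Type) : Type := (U : Filter Γ).Germ V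

instance ulAlg (U : Ultrafilter Γ) : Algebra K (UL K U) :=
  Algebra.ofModule
    (fun r x y => by
      induction x using Germ.inductionOn with | h x =>
      induction y using Germ.inductionOn with | h y =>
      exact congrArg _ (funext fun g => smul_mul_assoc r (x g) (y g)))
    (fun r x y => by
      induction x using Germ.inductionOn with | h x =>
      induction y using Germ.inductionOn with | h y =>
      exact congrArg _ (funext fun g => mul_smul_comm r (x g) (y g)))

variable {U : Ultrafilter Γ} {V V₁ V₂ V' : Type} [AddCommGroup V] [Module K V]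
  [AddCommGroup V₁] [Module K V₁] [AddCommGroup V₂] [Module K V₂] [AddCommGroup V'] [Module K V']

theorem smul_const (a : K) : (algebraMap K (UL K U) a) = (↑a : UL K U) := by
  rw [Algebra.algebraMap_eq_smul_one]
  change ((↑(fun _ : Γ => a • (1 : K)) : UL K U)) = _
  simp only [smul_eq_mul, mul_one]
  rfl

instance tower (U : Ultrafilter Γ) : IsScalarTower K (UL K U) (UV U V) := by
  refine ⟨fun a x w => ?_⟩
  induction x using Germ.inductionOn with | h x =>
  induction w using Germ.inductionOn with | h w =>
  exact congrArg _ (funext fun g => smul_assoc a (x g) (w g))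

/-- the extension of a linear map -/
def mapL (U : Ultrafilter Γ) (f : V →ₗ[K] V') : UV U V →ₗ[UL K U] UV U V' where
  toFun w := Germ.map f w
  map_add' x y := by
    induction x using Germ.inductionOn with | h x =>
    induction y using Germ.inductionOn with | h y =>
    exact congrArg _ (funext fun g => map_add f (x g) (y g))
  map_smul' a y := by
    induction a using Germ.inductionOn with | h a =>
    induction y using Germ.inductionOn with | h y =>
    exact congrArg _ (funext fun g => map_smul f (a g) (y g))

/-- the extension of a bilinear map -/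
def mapB (U : Ultrafilter Γ) (h : V₁ →ₗ[K] V₂ →ₗ[K] V') :
    UV U V₁ →ₗ[UL K U] UV U V₂ →ₗ[UL K U] UV U V' :=
  LinearMap.mk₂ (UL K U) (fun w₁ w₂ => Germ.map₂ (fun x y => h x y) w₁ w₂)
    (fun x x' y => by
      induction x using Germ.inductionOn with | h x =>
      induction x' using Germ.inductionOn with | h x' =>
      induction y using Germ.inductionOn with | h y =>
      exact congrArg _ (funext fun g => LinearMap.map_add₂ h (x g) (x' g) (y g)))
    (fun c x y => by
      induction c using Germ.inductionOn with | h c =>
      induction x using Germ.inductionOn with | h x =>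
      induction y using Germ.inductionOn with | h y =>
      exact congrArg _ (funext fun g => LinearMap.map_smul₂ h (c g) (x g) (y g)))
    (fun x y y' => by
      induction x using Germ.inductionOn with | h x =>
      induction y using Germ.inductionOn with | h y =>
      induction y' using Germ.inductionOn with | h y' =>
      exact congrArg _ (funext fun g => map_add (h (x g)) (y g) (y' g)))
    (fun c x y => by
      induction c using Germ.inductionOn with | h c =>
      induction x using Germ.inductionOn with | h x =>
      induction y using Germ.inductionOn with | h y =>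
      exact congrArg _ (funext fun g => map_smul (h (x g)) (c g) (y g)))

theorem mapL_coe (f : V →ₗ[K] V') (x : Γ → V) : mapL U f (↑x : UV U V) = ↑(fun g => f (x g)) := rfl

theorem mapL_const (f : V →ₗ[K] V') (x : V) : mapL U f (↑x : UV U V) = (↑(f x) : UV U V') := rfl

theorem mapB_coe (h : V₁ →ₗ[K] V₂ →ₗ[K] V') (x : Γ → V₁) (y : Γ → V₂) :
    mapB U h (↑x : UV U V₁) (↑y : UV U V₂) = ↑(fun g => h (x g) (y g)) := rfl

theorem mapB_const (h : V₁ →ₗ[K] V₂ →ₗ[K] V') (x : V₁) (y : V₂) :
    mapB U h (↑x : UV U V₁) (↑y : UV U V₂) = (↑(h x y) : UV U V') := rfl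

theorem mapL_mapB (f : V' →ₗ[K] V) (h : V₁ →ₗ[K] V₂ →ₗ[K] V') (x : UV U V₁) (y : UV U V₂) :
    mapL U f (mapB U h x y) = mapB U (h.compr₂ f) x y := by
  induction x using Germ.inductionOn with | h x =>
  induction y using Germ.inductionOn with | h y =>
  rfl

theorem mapB_constR (h : V₁ →ₗ[K] V₂ →ₗ[K] V') (x : UV U V₁) (y : V₂) :
    mapB U h x (↑y : UV U V₂) = mapL U (h.flip y) x := by
  induction x using Germ.inductionOn with | h x =>
  rfl

theorem mapB_constL (h : V₁ →ₗ[K] V₂ →ₗ[K] V') (x : V₁) (y : UV U V₂) :
    mapB U h (↑x : UV U V₁) y = mapL U (h x) y := by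
  induction y using Germ.inductionOn with | h y =>
  rfl

theorem mapL_comp (f : V →ₗ[K] V₁) (f' : V₁ →ₗ[K] V₂) (x : UV U V) :
    mapL U f' (mapL U f x) = mapL U (f'.comp f) x := by
  induction x using Germ.inductionOn with | h x =>
  rfl

section findim

variable [FiniteDimensional K V] [FiniteDimensional K V₁] [FiniteDimensional K V₂]
  [FiniteDimensional K V']

/-- vectors are determined by their coordinates -/
theorem expand {κ : Type} [Fintype κ] (b : Module.Basis κ K V) (w : UV U V) :
    w = ∑ k, (mapL U (b.coord k) w : UL K U) • (↑(b k) : UV U V) := by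
  induction w using Germ.inductionOn with | h w =>
  have h1 : ∀ s : Finset κ, ∑ k ∈ s, (mapL U (b.coord k) (↑w : UV U V) : UL K U) •
      (↑(b k) : UV U V) = (↑(fun g => ∑ k ∈ s, b.coord k (w g) • b k) : UV U V) := by
    classical
    intro s
    induction s using Finset.induction_on with
    | empty => rfl
    | insert a s ha ih =>
      rw [Finset.sum_insert ha, ih]
      have h2 : (fun g => ∑ k ∈ insert a s, b.coord k (w g) • b k) =
          fun g => b.coord a (w g) • b a + ∑ k ∈ s, b.coord k (w g) • b k := by
        funext g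
        rw [Finset.sum_insert ha]
      rw [h2]
      rfl
  rw [h1]
  congr 1
  funext g
  exact (b.sum_repr (w g)).symm

theorem ext_coord {w w' : UV U V} (h : ∀ φ : V →ₗ[K] K, mapL U φ w = mapL U φ w') : w = w' := by
  rw [expand (Module.finBasis K V) w, expand (Module.finBasis K V) w']
  exact Finset.sum_congr rfl fun k _ => by rw [h]

theorem map_expand {κ : Type} [Fintype κ] (b : Module.Basis κ K V) (φ : V →ₗ[K] K) (w : UV U V) :
    (mapL U φ w : UL K U) = ∑ k, φ (b k) • (mapL U (b.coord k) w : UL K U) := by
  conv_lhs => rw [expand b w]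
  rw [map_sum]
  refine Finset.sum_congr rfl fun k _ => ?_
  rw [map_smul, mapL_const, smul_eq_mul, mul_comm, ← smul_const, Algebra.smul_def]

variable (δ : Derivation K (UL K U) (UL K U)) (θ : UL K U →ₗ[K] K)

/-- the derivative of a vector -/
def nab (w : UV U V) : UV U V :=
  ∑ k, δ (mapL U ((Module.finBasis K V).coord k) w) • (↑(Module.finBasis K V k) : UV U V)

theorem coord_nab (φ : V →ₗ[K] K) (w : UV U V) :
    (mapL U φ (nab δ w) : UL K U) = δ (mapL U φ w) := by
  rw [map_expand (Module.finBasis K V) φ w, map_sum]
  unfold nab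
  rw [map_sum]
  refine Finset.sum_congr rfl fun k _ => ?_
  rw [map_smul, mapL_const, smul_eq_mul, mul_comm, ← smul_const, ← Algebra.smul_def]
  exact (δ.map_smul _ _).symm

theorem nab_add (w w' : UV U V) : nab δ (w + w') = nab δ w + nab δ w' := by
  refine ext_coord (K := K) fun φ => ?_
  rw [map_add, coord_nab, coord_nab, coord_nab, map_add, map_add]

theorem nab_smul (a : UL K U) (w : UV U V) : nab δ (a • w) = δ a • w + a • nab δ w := by
  refine ext_coord (K := K) fun φ => ?_
  rw [map_add, map_smul, map_smul, coord_nab, coord_nab, map_smul, smul_eq_mul, smul_eq_mul,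
    smul_eq_mul, Derivation.leibniz, smul_eq_mul, smul_eq_mul]
  ring

theorem nab_const (v : V) : nab δ (↑v : UV U V) = 0 := by
  refine ext_coord (K := K) fun φ => ?_
  rw [coord_nab, mapL_const, map_zero, ← smul_const, Derivation.map_algebraMap]

theorem nab_sum {κ : Type} (s : Finset κ) (w : κ → UV U V) :
    nab δ (∑ k ∈ s, w k) = ∑ k ∈ s, nab δ (w k) := by
  classical
  induction s using Finset.induction_on with
  | empty =>
    rw [Finset.sum_empty, Finset.sum_empty]
    exact nab_const δ (0 : V)
  | insert a s ha ih => rw [Finset.sum_insert ha, Finset.sum_insert ha, nab_add, ih]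

theorem nab_mapL (f : V →ₗ[K] V') (w : UV U V) : nab δ (mapL U f w) = mapL U f (nab δ w) := by
  refine ext_coord (K := K) fun φ => ?_
  rw [coord_nab, mapL_comp, mapL_comp, coord_nab]

theorem nab_mapB (h : V₁ →ₗ[K] V₂ →ₗ[K] V') (x : UV U V₁) (y : UV U V₂) :
    nab δ (mapB U h x y) = mapB U h (nab δ x) y + mapB U h x (nab δ y) := by
  have key : ∀ (v : V₁) (y : UV U V₂),
      nab δ (mapB U h (↑v : UV U V₁) y) = mapB U h (↑v : UV U V₁) (nab δ y) := by
    intro v y
    rw [mapB_constL, mapB_constL, nab_mapL]
  let b := Module.finBasis K V₁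
  obtain ⟨c, hx⟩ : ∃ c : Fin (Module.finrank K V₁) → UL K U,
      x = ∑ k, c k • (↑(b k) : UV U V₁) := ⟨_, expand b x⟩
  rw [hx]
  rw [map_sum, nab_sum, LinearMap.sum_apply, LinearMap.sum_apply, nab_sum, map_sum,
    LinearMap.sum_apply, ← Finset.sum_add_distrib]
  refine Finset.sum_congr rfl fun k _ => ?_
  rw [nab_smul, nab_const, smul_zero, add_zero, map_smul, map_smul, LinearMap.smul_apply,
    LinearMap.smul_apply, LinearMap.smul_apply, nab_smul, key]

/-- the extension of a functional to vectors -/
def thV (w : UV U V) : V :=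
  ∑ k, θ (mapL U ((Module.finBasis K V).coord k) w) • Module.finBasis K V k

theorem coord_thV (φ : V →ₗ[K] K) (w : UV U V) : φ (thV θ w) = θ (mapL U φ w) := by
  rw [map_expand (Module.finBasis K V) φ w, map_sum]
  unfold thV
  rw [map_sum]
  refine Finset.sum_congr rfl fun k _ => ?_
  rw [map_smul, map_smul, smul_eq_mul, smul_eq_mul, mul_comm]

theorem eq_of_dual {v v' : V} (h : ∀ φ : V →ₗ[K] K, φ v = φ v') : v = v' :=
  (Module.finBasis K V).ext_elem fun k => h ((Module.finBasis K V).coord k)

theorem thV_add (w w' : UV U V) : thV θ (w + w') = thV θ w + thV θ w' := by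
  refine eq_of_dual (K := K) fun φ => ?_
  rw [coord_thV, map_add, map_add, map_add, coord_thV, coord_thV]

theorem thV_smul (a : K) (w : UV U V) : thV θ (a • w) = a • thV θ w := by
  refine eq_of_dual (K := K) fun φ => ?_
  have h1 : (mapL U φ (a • w) : UL K U) = a • mapL U φ w := by
    induction w using Germ.inductionOn with | h w =>
    exact congrArg _ (funext fun g => map_smul φ a (w g))
  rw [coord_thV, h1, map_smul, map_smul, coord_thV]

theorem thV_mapL (f : V →ₗ[K] V') (w : UV U V) : thV θ (mapL U f w) = f (thV θ w) := by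
  refine eq_of_dual (K := K) fun φ => ?_
  rw [coord_thV, mapL_comp, ← coord_thV]
  rfl

end findim

end

end Pool.Agent.N179.GR
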